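import Mathlib

open Finset

namespace Pool.Agent.Lib.MP_a893c7_co.KB

/-- product weight of a tuple -/
def W {J Ω : Type} [Fintype J] (μ : Ω → ℝ) (A : J → Ω) : ℝ := ∏ j, μ (A j)

/-- keep the entries marked by `s`, take the others from `B` -/
def pw {J Ω : Type} (s : J → Bool) (A B : J → Ω) : J → Ω := fun j => if s j then A j else B j

variable {J Ω X Y : Type} [Fintype J] [DecidableEq J] [Fintype Ω] [DecidableEq Ω]

omit [DecidableEq J] [Fintype Ω] [DecidableEq Ω] in
theorem W_nonneg {μ : Ω → ℝ} (h : ∀ z, 0 ≤ μ z) (A : J → Ω) : 0 ≤ W μ A :=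
  prod_nonneg fun _ _ => h _

omit [DecidableEq Ω] in
theorem sum_prod (g : J → Ω → ℝ) : ∑ A : J → Ω, ∏ j, g j (A j) = ∏ j, ∑ z, g j z := by
  rw [prod_univ_sum, Fintype.piFinset_univ]

omit [DecidableEq Ω] in
theorem sum_W {μ : Ω → ℝ} (h : ∑ z, μ z = 1) : ∑ A : J → Ω, W μ A = 1 := by
  unfold W
  rw [sum_prod fun _ z => μ z]
  simp [h]

theorem push [Fintype X] [Fintype Y] [DecidableEq Y] (w : X → ℝ) (f : J → X → Y)
    (G : (J → Y) → ℝ) :
    ∑ x : J → X, W w x * G (fun j => f j (x j)) =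
      ∑ y : J → Y, (∏ j, ∑ z, w z * if f j z = y j then 1 else 0) * G y := by
  have h (y : J → Y) : (∏ j, ∑ z, w z * if f j z = y j then (1 : ℝ) else 0) =
      ∑ x : J → X, W w x * if (fun j => f j (x j)) = y then 1 else 0 := by
    rw [← sum_prod fun j z => w z * if f j z = y j then (1 : ℝ) else 0]
    refine sum_congr rfl fun x _ => ?_
    rw [prod_mul_distrib, W]
    congr 1
    rw [prod_ite_zero]
    simp [funext_iff]
  simp only [h, sum_mul]
  rw [sum_comm]
  refine sum_congr rfl fun x _ => ?_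
  simp

theorem two {M : ℕ} {μ : Ω → ℝ} (h : ∑ z, μ z = 1) (i i' : Fin M) (y : Ω × Ω) :
    (∑ z : Fin M → Ω, W μ z * if (z i, z i') = y then (1 : ℝ) else 0) =
      ∑ z : Ω × Ω, (μ z.1 * μ z.2) *
        if (z.1, if decide (i = i') then z.1 else z.2) = y then 1 else 0 := by
  obtain ⟨a, b⟩ := y
  have e (z : Fin M → Ω) : (W μ z * if (z i, z i') = (a, b) then (1 : ℝ) else 0) =
      ∏ m, (μ (z m) * if (m = i → z m = a) ∧ (m = i' → z m = b) then 1 else 0) := by
    rw [prod_mul_distrib, W]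
    congr 1
    rw [prod_ite_zero]
    simp only [Prod.mk.injEq, mem_univ, forall_const, prod_const_one]
    refine if_congr ⟨fun ⟨h1, h2⟩ m => ⟨fun e => e ▸ h1, fun e => e ▸ h2⟩,
      fun H => ⟨(H i).1 rfl, (H i').2 rfl⟩⟩ rfl rfl
  simp only [e]
  rw [sum_prod fun m z => μ z * if (m = i → z = a) ∧ (m = i' → z = b) then (1 : ℝ) else 0,
    Fintype.sum_prod_type]
  by_cases hi : i = i'
  · subst hi
    rw [prod_eq_single i (fun m _ hm => by simp [hm, h]) (by simp)]
    refine sum_congr rfl fun z _ => ?_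
    simp only [forall_const, decide_true, if_true, Prod.mk.injEq]
    rw [← sum_mul, ← mul_sum, h, mul_one]
  · rw [prod_eq_mul i i' hi (fun m _ hm => by simp [hm.1, hm.2, h]) (by simp) (by simp)]
    have hi' : ¬ i' = i := fun e => hi e.symm
    simp only [hi, hi', forall_const, false_imp_iff, and_true, true_and, decide_false,
      Bool.false_eq_true, if_false, Prod.mk.injEq, sum_mul_sum]
    refine sum_congr rfl fun z _ => sum_congr rfl fun z' _ => ?_
    by_cases h1 : z = a <;> by_cases h2 : z' = b <;> simp [h1, h2]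

/-- two index tuples into independent samples -/
theorem pair {M : ℕ} {μ : Ω → ℝ} (h : ∑ z, μ z = 1) (ι ι' : J → Fin M)
    (G : (J → Ω) → (J → Ω) → ℝ) :
    ∑ ω : J → Fin M → Ω, W (W μ) ω * G (fun j => ω j (ι j)) (fun j => ω j (ι' j)) =
      ∑ A : J → Ω, ∑ B : J → Ω, W μ A * W μ B * G A (pw (fun j => decide (ι j = ι' j)) A B) := by
  have h1 := push (W μ) (fun j (z : Fin M → Ω) => (z (ι j), z (ι' j)))
    (fun y => G (fun j => (y j).1) (fun j => (y j).2))
  have h2 := push (fun z : Ω × Ω => μ z.1 * μ z.2)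
    (fun j z => (z.1, if decide (ι j = ι' j) then z.1 else z.2))
    (fun y => G (fun j => (y j).1) (fun j => (y j).2))
  simp only [two h] at h1
  rw [h1, ← h2, ← Fintype.sum_prod_type']
  refine Fintype.sum_equiv (Equiv.arrowProdEquivProdArrow J (fun _ => Ω) (fun _ => Ω)) _ _
    fun x => ?_
  simp only [W, prod_mul_distrib]
  rfl

theorem single {M : ℕ} {μ : Ω → ℝ} (h : ∑ z, μ z = 1) (ι : J → Fin M) (G : (J → Ω) → ℝ) :
    ∑ ω : J → Fin M → Ω, W (W μ) ω * G (fun j => ω j (ι j)) = ∑ A : J → Ω, W μ A * G A := by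
  rw [pair h ι ι fun A _ => G A]
  refine sum_congr rfl fun A _ => ?_
  rw [← sum_mul, ← mul_sum, sum_W h, mul_one]

omit [DecidableEq Ω] in
theorem sum_cons {K : ℕ} (μ : Ω → ℝ) (G : (Fin (K + 1) → Ω) → ℝ) :
    ∑ A : Fin (K + 1) → Ω, W μ A * G A =
      ∑ A : Fin K → Ω, ∑ b, W μ A * μ b * G (Fin.cons b A) := by
  rw [sum_comm, ← Fintype.sum_prod_type']
  refine (Fintype.sum_equiv (Fin.consEquiv fun _ => Ω) _ _ fun x => ?_).symm
  simp [W, Fin.prod_univ_succ, Fin.consEquiv, mul_comm]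

end Pool.Agent.Lib.MP_a893c7_co.KB
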