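import Pool.Agent.Lib.MP_a893c7_co.KB1

open Finset

namespace Pool.Agent.Lib.MP_a893c7_co.KB

variable {Ω : Type} [Fintype Ω] [DecidableEq Ω] {K M : ℕ} {μ : Ω → ℝ}

/-- weight of the entries that are resampled -/
def wt {J : Type} [Fintype J] (κ : ℝ) (s : J → Bool) : ℝ := ∏ j, if s j then 1 else κ

/-- correlation of `h` under resampling of the entries not marked by `s` -/
def D {J : Type} [Fintype J] [DecidableEq J] (μ : Ω → ℝ) (h : (J → Ω) → ℝ) (s : J → Bool) : ℝ :=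
  ∑ A, W μ A * ∑ B, W μ B * (h A * h (pw s A B))

omit [DecidableEq Ω] in
theorem D_cons (h : (Fin (K + 1) → Ω) → ℝ) (f : Bool) (s : Fin K → Bool) :
    D μ h (Fin.cons f s) = ∑ A : Fin K → Ω, ∑ B : Fin K → Ω, W μ A * W μ B *
      ∑ b, ∑ b', μ b * μ b' *
        (h (Fin.cons b A) * h (Fin.cons (if f then b else b') (pw s A B))) := by
  unfold D
  rw [sum_cons]
  refine sum_congr rfl fun A _ => ?_
  simp only [sum_cons μ, mul_sum]
  rw [sum_comm]
  refine sum_congr rfl fun B _ => sum_congr rfl fun b _ => sum_congr rfl fun b' _ => ?_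
  have e : pw (Fin.cons f s : Fin (K + 1) → Bool) (Fin.cons b A) (Fin.cons b' B) =
      Fin.cons (if f then b else b') (pw s A B) := by
    funext j
    refine Fin.cases ?_ (fun j => ?_) j <;> simp [pw]
  rw [e]
  ring

omit [DecidableEq Ω] in
theorem D_false {J : Type} [Fintype J] [DecidableEq J] (h : (J → Ω) → ℝ) (s : J → Bool)
    (hs : ∀ j, s j = false) : D μ h s = (∑ A, W μ A * h A) ^ 2 := by
  unfold D
  rw [sq, sum_mul_sum]
  refine sum_congr rfl fun A _ => ?_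
  rw [mul_sum]
  refine sum_congr rfl fun B _ => ?_
  have e : pw s A B = B := by
    funext j
    simp [pw, hs]
  rw [e]
  ring

theorem wt_cons (κ : ℝ) (f : Bool) (s : Fin K → Bool) :
    wt κ (Fin.cons f s : Fin (K + 1) → Bool) = (if f then 1 else κ) * wt κ s := by
  simp [wt, Fin.prod_univ_succ]

theorem wt_nonneg {J : Type} [Fintype J] {κ : ℝ} (hκ : 0 ≤ κ) (s : J → Bool) : 0 ≤ wt κ s :=
  prod_nonneg fun j _ => by split_ifs <;> simp [hκ]

theorem sum_wt {κ : ℝ} (hκ : 0 ≤ κ) (ι : Fin K → Fin M) :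
    ∑ ι' : Fin K → Fin M, wt κ (fun j => decide (ι j = ι' j)) ≤ (1 + M * κ) ^ K := by
  unfold wt
  rw [sum_prod fun j (m : Fin M) => if decide (ι j = m) then (1 : ℝ) else κ]
  refine (prod_le_prod (g := fun _ => 1 + M * κ)
    (fun j _ => sum_nonneg fun m _ => by split_ifs <;> simp [hκ]) fun j _ => ?_).trans (by simp)
  calc _ ≤ ∑ m : Fin M, ((if ι j = m then (1 : ℝ) else 0) + κ) :=
        sum_le_sum fun m _ => by by_cases e : ι j = m <;> simp [e, hκ]
    _ = _ := by simp [sum_add_distrib]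

/-- truncated count of completions -/
def Yc (μ : Ω → ℝ) (h : (Fin (K + 1) → Ω) → ℝ) (ω : Fin K → Fin M → Ω) : ℝ :=
  ∑ ι : Fin K → Fin M, ∑ b, μ b * h (Fin.cons b fun j => ω j (ι j))

/-- double completions -/
def Zc (μ : Ω → ℝ) (h : (Fin (K + 1) → Ω) → ℝ) (ω : Fin K → Fin M → Ω) : ℝ :=
  ∑ ι : Fin K → Fin M, ∑ ι' : Fin K → Fin M, if ι = ι' then 0 else
    ∑ b, μ b * (h (Fin.cons b fun j => ω j (ι j)) * h (Fin.cons b fun j => ω j (ι' j)))

theorem E_Y (h1 : ∑ z, μ z = 1) (h : (Fin (K + 1) → Ω) → ℝ) :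
    ∑ ω : Fin K → Fin M → Ω, W (W μ) ω * Yc μ h ω = (M : ℝ) ^ K * ∑ A, W μ A * h A := by
  simp only [Yc, mul_sum _ _ (W (W μ) _)]
  rw [sum_comm]
  have e (ι : Fin K → Fin M) : ∑ ω : Fin K → Fin M → Ω, ∑ b, W (W μ) ω *
      (μ b * h (Fin.cons b fun j => ω j (ι j))) = ∑ A, W μ A * h A := by
    simp only [← mul_sum]
    rw [single h1 ι fun A => ∑ b, μ b * h (Fin.cons b A), sum_cons]
    simp only [mul_sum, mul_assoc]
  simp [e]

theorem E_YY (h0 : ∀ z, 0 ≤ μ z) (h1 : ∑ z, μ z = 1) (h : (Fin (K + 1) → Ω) → ℝ)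
    (hh : ∀ A, 0 ≤ h A) {κ β : ℝ} (hκ : 0 ≤ κ) (hβ : 0 ≤ β)
    (hD : ∀ s : Fin (K + 1) → Bool, (∃ j, s j = true) → (∃ j, s j = false) →
      D μ h s ≤ (∑ A, W μ A * h A) * β * wt κ s) :
    ∑ ω : Fin K → Fin M → Ω, W (W μ) ω * Yc μ h ω ^ 2 ≤ ((M : ℝ) ^ K * ∑ A, W μ A * h A) ^ 2 +
      (M : ℝ) ^ K * ((∑ A, W μ A * h A) * β * κ * (1 + M * κ) ^ K) := by
  set γ := ∑ A, W μ A * h A with hγ
  have hγ0 : 0 ≤ γ := sum_nonneg fun A _ => mul_nonneg (W_nonneg h0 A) (hh A)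
  have e (ι ι' : Fin K → Fin M) : ∑ ω : Fin K → Fin M → Ω, W (W μ) ω *
      ((∑ b, μ b * h (Fin.cons b fun j => ω j (ι j))) *
        ∑ b, μ b * h (Fin.cons b fun j => ω j (ι' j))) ≤
      γ ^ 2 + γ * β * κ * wt κ fun j => decide (ι j = ι' j) := by
    rw [pair h1 ι ι' fun A B => (∑ b, μ b * h (Fin.cons b A)) * ∑ b, μ b * h (Fin.cons b B)]
    have e1 := D_cons (μ := μ) h false fun j => decide (ι j = ι' j)
    have e2 : D μ h (Fin.cons false fun j => decide (ι j = ι' j)) ≤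
        γ ^ 2 + γ * β * κ * wt κ fun j => decide (ι j = ι' j) := by
      by_cases c : ∃ j, (Fin.cons false fun j => decide (ι j = ι' j) : Fin (K + 1) → Bool) j = true
      · refine (hD _ c ⟨0, rfl⟩).trans ?_
        rw [wt_cons]
        simp only [Bool.false_eq_true, if_false]
        nlinarith [sq_nonneg γ]
      · rw [D_false h _ fun j => by simpa using fun e => c ⟨j, e⟩]
        have := wt_nonneg hκ fun j => decide (ι j = ι' j)
        have : 0 ≤ γ * β * κ * wt κ fun j => decide (ι j = ι' j) := by positivity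
        linarith
    refine le_trans (le_of_eq ?_) e2
    rw [e1]
    refine sum_congr rfl fun A _ => sum_congr rfl fun B _ => ?_
    rw [sum_mul_sum]
    congr 1
    refine sum_congr rfl fun b _ => sum_congr rfl fun b' _ => ?_
    simp only [Bool.false_eq_true, if_false]
    ring
  calc _ = ∑ ι : Fin K → Fin M, ∑ ι' : Fin K → Fin M, ∑ ω : Fin K → Fin M → Ω, W (W μ) ω *
      ((∑ b, μ b * h (Fin.cons b fun j => ω j (ι j))) *
        ∑ b, μ b * h (Fin.cons b fun j => ω j (ι' j))) := by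
        rw [sum_comm_cycle]
        refine sum_congr rfl fun ω _ => ?_
        rw [Yc, sq, sum_mul_sum]
        simp only [mul_sum _ _ (W (W μ) ω)]
    _ ≤ ∑ ι : Fin K → Fin M, ((M : ℝ) ^ K * γ ^ 2 + γ * β * κ * (1 + M * κ) ^ K) := by
        refine sum_le_sum fun ι _ => (sum_le_sum fun ι' _ => e ι ι').trans ?_
        rw [sum_add_distrib, ← mul_sum]
        have := mul_le_mul_of_nonneg_left (sum_wt hκ ι) (show 0 ≤ γ * β * κ by positivity)
        simpa using this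
    _ = _ := by
        simp only [sum_const, card_univ, Fintype.card_pi, Fintype.card_fin, prod_const,
          nsmul_eq_mul, Nat.cast_pow]
        ring

theorem E_Z (h0 : ∀ z, 0 ≤ μ z) (h1 : ∑ z, μ z = 1) (h : (Fin (K + 1) → Ω) → ℝ)
    (hh : ∀ A, 0 ≤ h A) {κ β : ℝ} (hκ : 0 ≤ κ) (hβ : 0 ≤ β)
    (hD : ∀ s : Fin (K + 1) → Bool, (∃ j, s j = true) → (∃ j, s j = false) →
      D μ h s ≤ (∑ A, W μ A * h A) * β * wt κ s) :
    ∑ ω : Fin K → Fin M → Ω, W (W μ) ω * Zc μ h ω ≤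
      (M : ℝ) ^ K * ((∑ A, W μ A * h A) * β * (1 + M * κ) ^ K) := by
  set γ := ∑ A, W μ A * h A with hγ
  have hγ0 : 0 ≤ γ := sum_nonneg fun A _ => mul_nonneg (W_nonneg h0 A) (hh A)
  have e (ι ι' : Fin K → Fin M) : ∑ ω : Fin K → Fin M → Ω, W (W μ) ω *
      (if ι = ι' then 0 else ∑ b, μ b *
        (h (Fin.cons b fun j => ω j (ι j)) * h (Fin.cons b fun j => ω j (ι' j)))) ≤
      γ * β * wt κ fun j => decide (ι j = ι' j) := by
    have hw := wt_nonneg hκ fun j => decide (ι j = ι' j)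
    by_cases c : ι = ι'
    · simp only [if_pos c, mul_zero, sum_const_zero]
      positivity
    simp only [if_neg c]
    rw [pair h1 ι ι' fun A B => ∑ b, μ b * (h (Fin.cons b A) * h (Fin.cons b B))]
    obtain ⟨j, hj⟩ := Function.ne_iff.1 c
    have e2 := hD (Fin.cons true fun j => decide (ι j = ι' j)) ⟨0, rfl⟩ ⟨j.succ, by simpa using hj⟩
    rw [wt_cons, D_cons] at e2
    simp only [if_true, one_mul] at e2
    refine le_trans (le_of_eq ?_) e2
    refine sum_congr rfl fun A _ => sum_congr rfl fun B _ => ?_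
    congr 1
    refine sum_congr rfl fun b _ => ?_
    rw [← sum_mul, ← mul_sum, h1, mul_one]
  calc _ = ∑ ι : Fin K → Fin M, ∑ ι' : Fin K → Fin M, ∑ ω : Fin K → Fin M → Ω, W (W μ) ω *
      (if ι = ι' then 0 else ∑ b, μ b *
        (h (Fin.cons b fun j => ω j (ι j)) * h (Fin.cons b fun j => ω j (ι' j)))) := by
        rw [sum_comm_cycle]
        refine sum_congr rfl fun ω _ => ?_
        rw [Zc]
        simp only [mul_sum _ _ (W (W μ) ω)]
    _ ≤ ∑ ι : Fin K → Fin M, γ * β * (1 + M * κ) ^ K := by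
        refine sum_le_sum fun ι _ => (sum_le_sum fun ι' _ => e ι ι').trans ?_
        rw [← mul_sum]
        exact mul_le_mul_of_nonneg_left (sum_wt hκ ι) (by positivity)
    _ = _ := by
        simp only [sum_const, card_univ, Fintype.card_pi, Fintype.card_fin, prod_const,
          nsmul_eq_mul, Nat.cast_pow]

end Pool.Agent.Lib.MP_a893c7_co.KB
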