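import Pool.Agent.Lib.MP_a893c7_co.KB2

open Finset

namespace Pool.Agent.Lib.MP_a893c7_co.KB

variable {Ω : Type} [Fintype Ω] [DecidableEq Ω] {K M : ℕ} {μ : Ω → ℝ}

theorem exp_lip {t l r : ℝ} (ht : 0 ≤ t) (hr : 0 ≤ r) (h : l - t ≤ r) :
    Real.exp (-t) ≤ Real.exp (-l) + r := by
  have h1 : Real.exp (-t) ≤ 1 := Real.exp_le_one_iff.2 (by linarith)
  have h2 : Real.exp (-l) = Real.exp (-t) * Real.exp (-(l - t)) := by
    rw [← Real.exp_add]; ring_nf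
  have h3 := Real.add_one_le_exp (-(l - t))
  have h4 := Real.exp_pos (-t)
  nlinarith

omit [DecidableEq Ω] in
theorem miss (h0 : ∀ z, 0 ≤ μ z) (h1 : ∑ z, μ z = 1) (P : Ω → Prop) [DecidablePred P] :
    ∑ ω : Fin M → Ω, W μ ω * (if ∃ m, P (ω m) then 0 else 1) ≤
      Real.exp (-(M * ∑ b, μ b * if P b then 1 else 0)) := by
  have e (ω : Fin M → Ω) : W μ ω * (if ∃ m, P (ω m) then (0 : ℝ) else 1) =
      ∏ m, (μ (ω m) * if P (ω m) then 0 else 1) := by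
    rw [prod_mul_distrib, W]
    congr 1
    by_cases c : ∃ m, P (ω m)
    · obtain ⟨m, hm⟩ := c
      rw [if_pos ⟨m, hm⟩, prod_eq_zero (mem_univ m) (by simp [hm])]
    · rw [if_neg c, prod_eq_one fun m _ => if_neg fun hm => c ⟨m, hm⟩]
  simp only [e]
  rw [sum_prod fun _ z => μ z * if P z then (0 : ℝ) else 1]
  have e2 : ∑ z, (μ z * if P z then (0 : ℝ) else 1) = 1 - ∑ b, μ b * if P b then 1 else 0 := by
    rw [← h1, ← sum_sub_distrib]
    refine sum_congr rfl fun z _ => ?_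
    split_ifs <;> simp [h1]
  have e3 : 0 ≤ ∑ z, (μ z * if P z then (0 : ℝ) else 1) :=
    sum_nonneg fun z _ => mul_nonneg (h0 z) (by split_ifs <;> simp)
  rw [prod_const, card_univ, Fintype.card_fin, ← mul_neg, Real.exp_nat_mul]
  refine pow_le_pow_left₀ e3 ?_ _
  rw [e2]
  linarith [Real.add_one_le_exp (-∑ b, μ b * if P b then (1 : ℝ) else 0)]

omit [DecidableEq Ω] in
theorem bonf (h0 : ∀ z, 0 ≤ μ z) (h : (Fin (K + 1) → Ω) → ℝ) (h01 : ∀ A, h A = 0 ∨ h A = 1)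
    (P : (Fin (K + 1) → Ω) → Prop) [DecidablePred P] (hP : ∀ A, h A = 1 → P A)
    (ω : Fin K → Fin M → Ω) : Yc μ h ω - Zc μ h ω ≤
      ∑ b, μ b * if ∃ ι : Fin K → Fin M, P (Fin.cons b fun j => ω j (ι j)) then 1 else 0 := by
  have e : Zc μ h ω = ∑ b, μ b * ((∑ ι : Fin K → Fin M, h (Fin.cons b fun j => ω j (ι j))) ^ 2 -
      ∑ ι : Fin K → Fin M, h (Fin.cons b fun j => ω j (ι j))) := by
    simp only [sq, sum_mul_sum]
    simp only [← sum_sub_distrib, mul_sum _ _ (μ _)]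
    rw [sum_comm, Zc]
    refine sum_congr rfl fun ι _ => ?_
    have e1 (ι' : Fin K → Fin M) : (if ι = ι' then 0 else ∑ b, μ b *
        (h (Fin.cons b fun j => ω j (ι j)) * h (Fin.cons b fun j => ω j (ι' j)))) =
        ∑ b, μ b * (h (Fin.cons b fun j => ω j (ι j)) * h (Fin.cons b fun j => ω j (ι' j)) -
          if ι = ι' then h (Fin.cons b fun j => ω j (ι j)) else 0) := by
      split_ifs with c
      · subst c
        refine (sum_eq_zero fun b _ => ?_).symm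
        rcases h01 (Fin.cons b fun j => ω j (ι j)) with e | e <;> simp [e]
      · simp
    simp only [e1]
    rw [sum_comm]
    refine sum_congr rfl fun b _ => ?_
    rw [← mul_sum, sum_sub_distrib]
    simp
  rw [e, Yc, sum_comm, ← sum_sub_distrib]
  refine sum_le_sum fun b _ => ?_
  rw [← mul_sum, ← mul_sub]
  refine mul_le_mul_of_nonneg_left ?_ (h0 b)
  split_ifs with c
  · nlinarith [sq_nonneg ((∑ ι : Fin K → Fin M, h (Fin.cons b fun j => ω j (ι j))) - 1)]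
  · rw [sum_eq_zero fun ι _ => (h01 _).resolve_right fun e => c ⟨ι, hP _ e⟩]
    simp

theorem one (h0 : ∀ z, 0 ≤ μ z) (h1 : ∑ z, μ z = 1) (h : (Fin (K + 1) → Ω) → ℝ)
    (h01 : ∀ A, h A = 0 ∨ h A = 1) (P : (Fin (K + 1) → Ω) → Prop) [DecidablePred P]
    (hP : ∀ A, h A = 1 → P A) {κ β τ : ℝ} (hκ : 0 ≤ κ) (hβ : 0 ≤ β) (hτ : 0 < τ)
    (hγ : ∑ A, W μ A * h A ≤ κ ^ (K + 1))
    (hD : ∀ s : Fin (K + 1) → Bool, (∃ j, s j = true) → (∃ j, s j = false) →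
      D μ h s ≤ (∑ A, W μ A * h A) * β * wt κ s) :
    ∑ ω : Fin K → Fin M → Ω, W (W μ) ω * ∑ ω₀ : Fin M → Ω, W μ ω₀ *
      (if ∃ m, ∃ ι : Fin K → Fin M, P (Fin.cons (ω₀ m) fun j => ω j (ι j)) then 0 else 1) ≤
      Real.exp (-(M * κ) ^ (K + 1)) + ((M * κ) ^ (K + 1) - (M : ℝ) ^ (K + 1) * ∑ A, W μ A * h A) +
        τ + β * (1 + M * κ) ^ (2 * K + 2) * (τ⁻¹ + 1) := by
  have hh : ∀ A, 0 ≤ h A := fun A => by rcases h01 A with e | e <;> simp [e]
  have hY := E_Y (M := M) h1 h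
  have hYY := E_YY (M := M) h0 h1 h hh hκ hβ hD
  have hZ := E_Z (M := M) h0 h1 h hh hκ hβ hD
  set γ := ∑ A, W μ A * h A
  have hγ0 : 0 ≤ γ := sum_nonneg fun A _ => mul_nonneg (W_nonneg h0 A) (hh A)
  set l := (M * κ) ^ (K + 1) with hl
  set m := (M : ℝ) ^ (K + 1) * γ with hm
  have hml : m ≤ l := by
    rw [hl, mul_pow]
    exact mul_le_mul_of_nonneg_left hγ (by positivity)
  have hW : ∑ ω : Fin K → Fin M → Ω, W (W μ) ω = 1 := sum_W (sum_W h1)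
  have pt (ω : Fin K → Fin M → Ω) : ∑ ω₀ : Fin M → Ω, W μ ω₀ *
      (if ∃ m, ∃ ι : Fin K → Fin M, P (Fin.cons (ω₀ m) fun j => ω j (ι j)) then (0 : ℝ) else 1) ≤
      (Real.exp (-l) + (l - m) + τ + τ⁻¹ * m ^ 2) + τ⁻¹ * M ^ 2 * Yc μ h ω ^ 2 +
        (-(2 * τ⁻¹ * m * M)) * Yc μ h ω + M * Zc μ h ω := by
    refine (miss h0 h1 fun b => ∃ ι : Fin K → Fin M, P (Fin.cons b fun j => ω j (ι j))).trans ?_
    have b1 := mul_le_mul_of_nonneg_left (bonf h0 h h01 P hP ω) (Nat.cast_nonneg (α := ℝ) M)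
    have z0 : 0 ≤ M * Zc μ h ω := mul_nonneg (Nat.cast_nonneg _) (sum_nonneg fun ι _ =>
      sum_nonneg fun ι' _ => by
        split_ifs
        · exact le_rfl
        · exact sum_nonneg fun b _ => mul_nonneg (h0 b) (mul_nonneg (hh _) (hh _)))
    have q0 : 0 ≤ τ⁻¹ * (M * Yc μ h ω - m) ^ 2 := by positivity
    have q1 : m - M * Yc μ h ω ≤ τ + τ⁻¹ * (M * Yc μ h ω - m) ^ 2 := by
      have e : τ + τ⁻¹ * (M * Yc μ h ω - m) ^ 2 - (m - M * Yc μ h ω) =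
          τ⁻¹ * ((τ + (M * Yc μ h ω - m) / 2) ^ 2 + 3 / 4 * (M * Yc μ h ω - m) ^ 2) := by
        field_simp
        ring
      have : 0 ≤ τ⁻¹ * ((τ + (M * Yc μ h ω - m) / 2) ^ 2 + 3 / 4 * (M * Yc μ h ω - m) ^ 2) := by
        positivity
      linarith
    refine (exp_lip (l := l) (r := (l - m) + τ + τ⁻¹ * (M * Yc μ h ω - m) ^ 2 + M * Zc μ h ω)
      (mul_nonneg (Nat.cast_nonneg _) (sum_nonneg fun b _ => mul_nonneg (h0 b)
        (by split_ifs <;> simp))) (by linarith) (by linarith)).trans (le_of_eq (by ring))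
  refine (sum_le_sum fun ω _ => mul_le_mul_of_nonneg_left (pt ω)
    (W_nonneg (W_nonneg h0) ω)).trans ?_
  have e (c₀ c₁ c₂ c₃ : ℝ) : ∑ ω : Fin K → Fin M → Ω, W (W μ) ω *
      (c₀ + c₁ * Yc μ h ω ^ 2 + c₂ * Yc μ h ω + c₃ * Zc μ h ω) =
      c₀ * (∑ ω : Fin K → Fin M → Ω, W (W μ) ω) +
        c₁ * (∑ ω : Fin K → Fin M → Ω, W (W μ) ω * Yc μ h ω ^ 2) +
        c₂ * (∑ ω : Fin K → Fin M → Ω, W (W μ) ω * Yc μ h ω) +
        c₃ * ∑ ω : Fin K → Fin M → Ω, W (W μ) ω * Zc μ h ω := by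
    simp only [mul_sum, ← sum_add_distrib]
    exact sum_congr rfl fun ω _ => by ring
  rw [e, hW, hY]
  have a0 : 0 ≤ (M : ℝ) * κ := by positivity
  have t0 : 0 < τ⁻¹ := inv_pos.2 hτ
  have p1 : l ≤ (1 + M * κ) ^ (K + 1) := pow_le_pow_left₀ a0 (by linarith) _
  have p2 : (0 : ℝ) ≤ (1 + M * κ) ^ K := by positivity
  have m0 : 0 ≤ m := by positivity
  have p3 : m * ((1 + M * κ) * (1 + M * κ) ^ K) ≤ (1 + M * κ) ^ (2 * K + 2) := by
    rw [show 2 * K + 2 = (K + 1) + (K + 1) by ring, pow_add, ← pow_succ']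
    exact mul_le_mul_of_nonneg_right (hml.trans p1) (by positivity)
  have p4 : m * (M * κ * (1 + M * κ) ^ K) ≤ (1 + M * κ) ^ (2 * K + 2) := by
    nlinarith [mul_nonneg m0 p2]
  have p5 : m * (1 + M * κ) ^ K ≤ (1 + M * κ) ^ (2 * K + 2) := by
    nlinarith [mul_nonneg m0 (mul_nonneg a0 p2)]
  have r1 := mul_le_mul_of_nonneg_left hYY (show 0 ≤ τ⁻¹ * (M : ℝ) ^ 2 by positivity)
  have r2 := mul_le_mul_of_nonneg_left hZ (Nat.cast_nonneg (α := ℝ) M)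
  have r3 : τ⁻¹ * (M : ℝ) ^ 2 * (((M : ℝ) ^ K * γ) ^ 2 +
      (M : ℝ) ^ K * (γ * β * κ * (1 + M * κ) ^ K)) =
      τ⁻¹ * m ^ 2 + τ⁻¹ * β * (m * (M * κ * (1 + M * κ) ^ K)) := by
    rw [hm]; ring
  have r4 : (M : ℝ) * ((M : ℝ) ^ K * (γ * β * (1 + M * κ) ^ K)) = β * (m * (1 + M * κ) ^ K) := by
    rw [hm]; ring
  have r5 : -(2 * τ⁻¹ * m * M) * ((M : ℝ) ^ K * γ) = -(2 * τ⁻¹ * m ^ 2) := by
    rw [hm]; ring
  have r6 := mul_le_mul_of_nonneg_left p4 (mul_nonneg t0.le hβ)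
  have r7 := mul_le_mul_of_nonneg_left p5 hβ
  rw [r5]
  nlinarith

/-- abstract random covering lemma -/
theorem cover {𝒯 : Type} [Fintype 𝒯] [DecidableEq 𝒯] (h0 : ∀ z, 0 ≤ μ z) (h1 : ∑ z, μ z = 1)
    (u : (Fin (K + 1) → Ω) → 𝒯) (Good : (Fin (K + 1) → Ω) → Prop) [DecidablePred Good]
    {κ β τ η : ℝ} (hκ : 0 ≤ κ) (hβ : 0 ≤ β) (hτ : 0 < τ)
    (hc : Fintype.card 𝒯 * κ ^ (K + 1) = 1)
    (hU : ∀ T, ∑ A, W μ A * (if u A = T then 1 else 0) ≤ κ ^ (K + 1))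
    (hη : 1 - η ≤ ∑ A, W μ A * if Good A then 1 else 0)
    (hG : ∀ A, Good A → ∀ s : Fin (K + 1) → Bool, (∃ j, s j = true) → (∃ j, s j = false) →
      ∑ B, W μ B * (if u (pw s A B) = u A then 1 else 0) ≤ β * wt κ s) (M : ℕ) :
    ∃ F : Fin (K + 1) → Fin M → Ω,
      ((univ.filter fun T => ¬ ∃ ι : Fin (K + 1) → Fin M, u (fun j => F j (ι j)) = T).card : ℝ) ≤
        Fintype.card 𝒯 * (Real.exp (-(M * κ) ^ (K + 1)) + (M * κ) ^ (K + 1) * η + τ +
          β * (1 + M * κ) ^ (2 * K + 2) * (τ⁻¹ + 1)) := by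
  have key (T : 𝒯) := one (M := M) h0 h1 (fun A => if u A = T ∧ Good A then 1 else 0)
    (fun A => by split_ifs <;> simp) (fun A => u A = T)
    (fun A e => by
      by_contra c
      simp [c] at e) hκ hβ hτ
    (le_trans (sum_le_sum fun A _ => mul_le_mul_of_nonneg_left
      (by by_cases c : u A = T <;> by_cases c' : Good A <;> simp [c, c']) (W_nonneg h0 A)) (hU T))
    (fun s s1 s2 => by
      rw [D, mul_assoc, sum_mul]
      refine sum_le_sum fun A _ => ?_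
      rw [mul_assoc]
      refine mul_le_mul_of_nonneg_left ?_ (W_nonneg h0 A)
      by_cases c : u A = T ∧ Good A
      · simp only [if_pos c, one_mul]
        refine le_trans (sum_le_sum fun B _ => mul_le_mul_of_nonneg_left ?_ (W_nonneg h0 B))
          (hG A c.2 s s1 s2)
        rw [c.1]
        by_cases c1 : u (pw s A B) = T <;> by_cases c2 : Good (pw s A B) <;> simp [c1, c2]
      · simp [if_neg c])
  have s1 := sum_le_sum fun T (_ : T ∈ univ) => key T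
  have s2 : ∑ T, ∑ A, W μ A * (if u A = T ∧ Good A then (1 : ℝ) else 0) =
      ∑ A, W μ A * if Good A then 1 else 0 := by
    rw [sum_comm]
    refine sum_congr rfl fun A _ => ?_
    rw [← mul_sum]
    by_cases c : Good A <;> simp [c]
  simp only [sum_add_distrib, sum_sub_distrib, sum_const, card_univ, nsmul_eq_mul,
    ← mul_sum _ _ ((M : ℝ) ^ (K + 1)), s2] at s1
  by_contra con
  simp only [not_exists (p := fun F : Fin (K + 1) → Fin M → Ω => _ ≤ _), not_le] at con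
  set R := Fintype.card 𝒯 * (Real.exp (-(M * κ) ^ (K + 1)) + (M * κ) ^ (K + 1) * η + τ +
    β * (1 + M * κ) ^ (2 * K + 2) * (τ⁻¹ + 1)) with hR
  have s3 : ∑ F : Fin (K + 1) → Fin M → Ω, W (W μ) F *
      ((univ.filter fun T => ¬ ∃ ι : Fin (K + 1) → Fin M, u (fun j => F j (ι j)) = T).card : ℝ) ≤
      R := by
    refine le_trans (le_of_eq ?_) (s1.trans ?_)
    · rw [sum_cons (W μ), sum_comm (s := (univ : Finset 𝒯))]
      refine sum_congr rfl fun ω _ => ?_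
      rw [← mul_sum, sum_comm, mul_sum]
      refine sum_congr rfl fun ω₀ _ => ?_
      rw [← mul_sum, mul_assoc, card_filter]
      push_cast
      congr 2
      refine sum_congr rfl fun T _ => ?_
      rw [ite_not]
      refine if_congr ⟨fun ⟨ι, e⟩ => ⟨ι 0, fun j => ι j.succ, ?_⟩,
        fun ⟨m, ι, e⟩ => ⟨Fin.cons m ι, ?_⟩⟩ rfl rfl
      all_goals
        rw [← e]
        congr 1
        funext j
        refine Fin.cases ?_ (fun j => ?_) j <;> simp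
    · have e : (M : ℝ) ^ (K + 1) = Fintype.card 𝒯 * (M * κ) ^ (K + 1) := by
        rw [mul_pow, mul_left_comm, hc, mul_one]
      have := mul_le_mul_of_nonneg_left hη (show 0 ≤ (M : ℝ) ^ (K + 1) by positivity)
      have e' : (M : ℝ) ^ (K + 1) * η = Fintype.card 𝒯 * ((M * κ) ^ (K + 1) * η) := by
        rw [e]; ring
      rw [hR]
      linarith
  have hW : ∑ F : Fin (K + 1) → Fin M → Ω, W (W μ) F = 1 := sum_W (sum_W h1)
  obtain ⟨F, -, hF⟩ := exists_ne_zero_of_sum_ne_zero (hW ▸ one_ne_zero : ∑ F, W (W μ) F ≠ 0)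
  have s4 : ∑ F : Fin (K + 1) → Fin M → Ω, W (W μ) F * R < _ :=
    sum_lt_sum (fun F _ => mul_le_mul_of_nonneg_left (con F).le (W_nonneg (W_nonneg h0) F))
      ⟨F, mem_univ F, mul_lt_mul_of_pos_left (con F)
        (lt_of_le_of_ne (W_nonneg (W_nonneg h0) F) hF.symm)⟩
  rw [← sum_mul, hW, one_mul] at s4
  exact absurd s3 (not_le.2 s4)

end Pool.Agent.Lib.MP_a893c7_co.KB
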