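import Pool.Agent.Lib.MP_a893c7_co.KB3

open Finset

namespace Pool.Agent.Lib.MP_a893c7_co.KB

variable {J : Type} [Fintype J] [DecidableEq J] {n : ℕ} {q : ℝ}

/-- one biased bit -/
def bit (q : ℝ) (b : Bool) : ℝ := if b then 1 - q else q

/-- the OR of a column -/
def or1 (a : J → Bool) : Bool := decide (∃ j, a j = true)

/-- the union of a tuple -/
def un (A : J → Fin n → Bool) : Fin n → Bool := fun i => or1 fun j => A j i

/-- probability that resampling keeps the OR -/
noncomputable def psi (q : ℝ) (s a : J → Bool) : ℝ :=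
  ∑ b, W (bit q) b * if or1 (pw s a b) = or1 a then 1 else 0

theorem bit_sum (q : ℝ) : ∑ b, bit q b = 1 := by simp [bit]

theorem bit_nonneg (h0 : 0 ≤ q) (h1 : q ≤ 1) (b : Bool) : 0 ≤ bit q b := by
  cases b <;> simp [bit, h0, h1]

theorem col (w : Bool → ℝ) (g : Fin n → (J → Bool) → ℝ) :
    ∑ A : J → Fin n → Bool, W (W w) A * ∏ i, g i (fun j => A j i) =
      ∏ i, ∑ a : J → Bool, W w a * g i a := by
  rw [← sum_prod fun i a => W w a * g i a]
  refine Fintype.sum_equiv (Equiv.piComm fun _ _ => Bool) _ _ fun A => ?_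
  rw [prod_mul_distrib]
  congr 1
  unfold W
  exact prod_comm

theorem zero_off (q : ℝ) (s : J → Bool) :
    ∑ b : J → Bool, W (bit q) b * (if ∀ j, s j = false → b j = false then 1 else 0) = wt q s := by
  have e (b : J → Bool) : W (bit q) b * (if ∀ j, s j = false → b j = false then (1 : ℝ) else 0) =
      ∏ j, (bit q (b j) * if s j = false → b j = false then 1 else 0) := by
    rw [prod_mul_distrib, W, prod_ite_zero]
    simp
  simp only [e]
  rw [sum_prod fun j z => bit q z * if s j = false → z = false then (1 : ℝ) else 0, wt]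
  refine prod_congr rfl fun j _ => ?_
  cases s j <;> simp [bit]

theorem psi_eq (q : ℝ) (s a : J → Bool) : psi q s a =
    1 - (if ∀ j, (!s j) = false → a j = false then 1 else 0) * wt q s +
      (if ∀ j, false = false → a j = false then 1 else 0) * (2 * wt q s - 1) := by
  have hW : ∑ b : J → Bool, W (bit q) b = 1 := sum_W (bit_sum q)
  by_cases c : ∀ j, (!s j) = false → a j = false
  · have e (b : J → Bool) : or1 (pw s a b) = false ↔ ∀ j, s j = false → b j = false := by
      rw [or1, decide_eq_false_iff_not, not_exists]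
      refine forall_congr' fun j => ?_
      have := c j
      cases hs : s j <;> simp_all [pw]
    by_cases c' : ∀ j, false = false → a j = false
    · have e' : or1 a = false := by simpa [or1] using c'
      rw [psi, if_pos c, if_pos c', e']
      simp only [e, zero_off]
      ring
    · have e' : or1 a = true := by simpa [or1] using c'
      rw [psi, if_pos c, if_neg c', e', ← zero_off q s, zero_mul, add_zero, one_mul, ← hW,
        ← sum_sub_distrib]
      refine sum_congr rfl fun b _ => ?_
      simp only [← e]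
      cases or1 (pw s a b) <;> simp [hW]
  · obtain ⟨j, hj⟩ := not_forall.1 c
    have h1 : s j = true := by simp_all
    have h2 : a j = true := by simp_all
    have e' : or1 a = true := by simpa [or1] using ⟨j, h2⟩
    have e (b : J → Bool) : or1 (pw s a b) = true := by
      simp only [or1, decide_eq_true_eq]
      exact ⟨j, by simp [pw, h1, h2]⟩
    rw [psi, if_neg c, if_neg fun h => by simpa [h2] using h j rfl]
    simp [e, e', hW]

omit [DecidableEq J] in
theorem wt_false (q : ℝ) : wt q (fun _ : J => false) = q ^ Fintype.card J := by simp [wt]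

omit [DecidableEq J] in
theorem wt_not (q : ℝ) (s : J → Bool) : wt q (fun j => !s j) * wt q s = q ^ Fintype.card J := by
  rw [wt, wt, ← prod_mul_distrib, ← card_univ, ← prod_const]
  refine prod_congr rfl fun j _ => ?_
  cases s j <;> simp

omit [DecidableEq J] in
theorem wt_pow (q : ℝ) (s : J → Bool) (n : ℕ) : wt (q ^ n) s = wt q s ^ n := by
  rw [wt, wt, ← prod_pow]
  refine prod_congr rfl fun j _ => ?_
  cases s j <;> simp

theorem E_psi (hq : q ^ Fintype.card J = 1 / 2) (s : J → Bool) :
    ∑ a, W (bit q) a * psi q s a = wt q s := by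
  have hW : ∑ b : J → Bool, W (bit q) b = 1 := sum_W (bit_sum q)
  have e1 := zero_off q fun j => !s j
  have e2 := zero_off q fun _ : J => false
  have e3 := wt_not q s
  rw [wt_false, hq] at e2
  rw [hq] at e3
  have e (a : J → Bool) : W (bit q) a * psi q s a = W (bit q) a -
      (W (bit q) a * if ∀ j, (!s j) = false → a j = false then 1 else 0) * wt q s +
      (W (bit q) a * if ∀ j, false = false → a j = false then 1 else 0) * (2 * wt q s - 1) := by
    rw [psi_eq]; ring
  rw [sum_congr rfl fun a _ => e a, sum_add_distrib, sum_sub_distrib, ← sum_mul, ← sum_mul, e1,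
    e2, hW]
  linarith

theorem psi_nonneg (h0 : 0 ≤ q) (h1 : q ≤ 1) (s a : J → Bool) : 0 ≤ psi q s a :=
  sum_nonneg fun b _ => mul_nonneg (W_nonneg (bit_nonneg h0 h1) b) (by split_ifs <;> simp)

theorem rho_lt (h0 : 0 < q) (h1 : q < 1) (hq : q ^ Fintype.card J = 1 / 2) (s : J → Bool)
    (s1 : ∃ j, s j = true) (s2 : ∃ j, s j = false) :
    ∑ a, W (bit q) a * √(psi q s a / wt q s) < 1 := by
  have hW : ∑ b : J → Bool, W (bit q) b = 1 := sum_W (bit_sum q)
  have z0 : 0 < wt q s := prod_pos fun j _ => by split_ifs <;> simp [h0]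
  have z1 : wt q s < 1 := by
    obtain ⟨j, hj⟩ := s2
    calc wt q s < ∏ _j : J, (1 : ℝ) := prod_lt_prod (fun j _ => by split_ifs <;> simp [h0])
          (fun j _ => by split_ifs <;> simp [h1.le]) ⟨j, mem_univ j, by simp [hj, h1]⟩
      _ = 1 := by simp
  have e : ∑ a, W (bit q) a * ((1 + psi q s a / wt q s) / 2) = 1 := by
    have : ∀ a, W (bit q) a * ((1 + psi q s a / wt q s) / 2) =
        W (bit q) a / 2 + W (bit q) a * psi q s a / wt q s / 2 := fun a => by ring
    simp only [this, sum_add_distrib, ← sum_div, E_psi hq, hW, div_self z0.ne']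
    norm_num
  have am {t : ℝ} (ht : 0 ≤ t) : (1 + t) / 2 - √t = (√t - 1) ^ 2 / 2 := by
    have := Real.sq_sqrt ht
    nlinarith
  refine lt_of_lt_of_eq (sum_lt_sum (fun a _ => mul_le_mul_of_nonneg_left ?_
    (W_nonneg (bit_nonneg h0.le h1.le) a)) ⟨fun _ => true, mem_univ _, mul_lt_mul_of_pos_left ?_
      (prod_pos fun j _ => by simp [bit, h1])⟩) e
  · have := am (div_nonneg (psi_nonneg h0.le h1.le s a) z0.le)
    nlinarith [sq_nonneg (√(psi q s a / wt q s) - 1)]
  · obtain ⟨j, hj⟩ := s1
    have e1 : psi q s (fun _ => true) = 1 := by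
      rw [psi_eq, if_neg fun h => by simpa [hj] using h j, if_neg fun h => by simpa using h j rfl]
      ring
    have h2 : 1 < 1 / wt q s := one_lt_one_div z0 z1
    have h3 := am (show 0 ≤ 1 / wt q s by linarith)
    have h4 : 1 < √(1 / wt q s) := Real.lt_sqrt_of_sq_lt (by simpa using h2)
    rw [e1]
    nlinarith [sq_pos_of_pos (sub_pos.2 h4)]

theorem un_unif (hq : q ^ Fintype.card J = 1 / 2) (T : Fin n → Bool) :
    ∑ A : J → Fin n → Bool, W (W (bit q)) A * (if un A = T then 1 else 0) = (1 / 2) ^ n := by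
  have hW : ∑ b : J → Bool, W (bit q) b = 1 := sum_W (bit_sum q)
  have e (A : J → Fin n → Bool) : (if un A = T then (1 : ℝ) else 0) =
      ∏ i, if or1 (fun j => A j i) = T i then 1 else 0 := by
    rw [prod_ite_zero]
    simp [funext_iff, un]
  simp only [e]
  rw [col _ fun i a => if or1 a = T i then (1 : ℝ) else 0]
  have e2 := zero_off q fun _ : J => false
  rw [wt_false, hq] at e2
  have e3 : ∑ a : J → Bool, W (bit q) a * (if or1 a = false then (1 : ℝ) else 0) = 1 / 2 := by
    rw [← e2]
    simp [or1]
  have e4 : ∑ a : J → Bool, W (bit q) a * (if or1 a = true then (1 : ℝ) else 0) = 1 / 2 := by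
    have : ∑ a : J → Bool, W (bit q) a * (if or1 a = true then (1 : ℝ) else 0) +
        ∑ a : J → Bool, W (bit q) a * (if or1 a = false then (1 : ℝ) else 0) = 1 := by
      rw [← sum_add_distrib, ← hW]
      refine sum_congr rfl fun a _ => ?_
      cases or1 a <;> simp [hW]
    linarith
  rw [prod_congr rfl (g := fun _ => 1 / 2) fun i _ => by cases T i <;> assumption]
  simp

theorem resample (q : ℝ) (s : J → Bool) (A : J → Fin n → Bool) :
    ∑ B, W (W (bit q)) B * (if un (pw s A B) = un A then 1 else 0) =
      ∏ i, psi q s fun j => A j i := by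
  unfold psi
  rw [← col _ fun i b => if or1 (pw s (fun j => A j i) b) = or1 (fun j => A j i) then (1 : ℝ) else 0]
  refine sum_congr rfl fun B _ => ?_
  congr 1
  rw [prod_ite_zero]
  have e (i : Fin n) : (fun j => pw s A B j i) = pw s (fun j => A j i) fun j => B j i := by
    funext j
    unfold pw
    split_ifs <;> rfl
  simp [funext_iff, un, e]

theorem bad_le (h0 : 0 < q) (h1 : q < 1) (s : J → Bool) {β : ℝ} (hβ : 0 < β) :
    ∑ A : J → Fin n → Bool, W (W (bit q)) A *
      (if β * wt q s ^ n < ∏ i, psi q s fun j => A j i then 1 else 0) ≤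
      (∑ a, W (bit q) a * √(psi q s a / wt q s)) ^ n / √β := by
  have z0 : 0 < wt q s := prod_pos fun j _ => by split_ifs <;> simp [h0]
  have e := col (n := n) (bit q) fun _ a => √(psi q s a / wt q s)
  rw [prod_const, card_univ, Fintype.card_fin] at e
  rw [← e, sum_div]
  refine sum_le_sum fun A _ => ?_
  rw [mul_div_assoc]
  refine mul_le_mul_of_nonneg_left ?_ (W_nonneg (W_nonneg (bit_nonneg h0.le h1.le)) A)
  rw [← Real.sqrt_prod _ fun i _ => div_nonneg (psi_nonneg h0.le h1.le s _) z0.le]
  split_ifs with c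
  · rw [one_le_div (Real.sqrt_pos.2 hβ)]
    refine Real.sqrt_le_sqrt ?_
    rw [prod_div_distrib, prod_const, card_univ, Fintype.card_fin, le_div_iff₀ (by positivity)]
    exact c.le
  · positivity

end Pool.Agent.Lib.MP_a893c7_co.KB
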