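import Pool.Agent.Lib.MP_a893c7_co.KB4

open Finset Filter Topology

namespace Pool.Agent.Lib.MP_a893c7_co.KB

theorem good_ev {J : Type} [Fintype J] [DecidableEq J] {q : ℝ} (h0 : 0 < q) (h1 : q < 1)
    (hq : q ^ Fintype.card J = 1 / 2) {β η : ℝ} (hβ : 0 < β) (hη : 0 < η) :
    ∀ᶠ n : ℕ in atTop, 1 - η ≤ ∑ A : J → Fin n → Bool, W (W (bit q)) A *
      if ∀ s : J → Bool, (∃ j, s j = true) → (∃ j, s j = false) →
        ∏ i, psi q s (fun j => A j i) ≤ β * wt q s ^ n then 1 else 0 := by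
  have hc : (0 : ℝ) < Fintype.card (J → Bool) := by exact_mod_cast Fintype.card_pos
  have ev (s : J → Bool) : ∀ᶠ n : ℕ in atTop, (∃ j, s j = true) → (∃ j, s j = false) →
      (∑ a, W (bit q) a * √(psi q s a / wt q s)) ^ n / √β ≤ η / Fintype.card (J → Bool) := by
    by_cases c : (∃ j, s j = true) ∧ ∃ j, s j = false
    · have t := (tendsto_pow_atTop_nhds_zero_of_lt_one (sum_nonneg fun a _ => mul_nonneg
        (W_nonneg (bit_nonneg h0.le h1.le) a) (Real.sqrt_nonneg _))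
        (rho_lt h0 h1 hq s c.1 c.2)).div_const (√β)
      rw [zero_div] at t
      filter_upwards [t.eventually (ge_mem_nhds (div_pos hη hc))] with n hn _ _ using hn
    · exact Eventually.of_forall fun n a b => absurd ⟨a, b⟩ c
  filter_upwards [eventually_all.2 ev] with n hn
  have hW : ∑ A : J → Fin n → Bool, W (W (bit q)) A = 1 := sum_W (sum_W (bit_sum q))
  have w0 (A : J → Fin n → Bool) := W_nonneg (W_nonneg (bit_nonneg h0.le h1.le)) A
  have s1 : ∑ s : J → Bool, ∑ A : J → Fin n → Bool, W (W (bit q)) A *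
      (if ((∃ j, s j = true) ∧ ∃ j, s j = false) ∧
        β * wt q s ^ n < ∏ i, psi q s (fun j => A j i) then 1 else 0) ≤ η := by
    calc _ ≤ ∑ _s : J → Bool, η / Fintype.card (J → Bool) := sum_le_sum fun s _ => by
          by_cases c : (∃ j, s j = true) ∧ ∃ j, s j = false
          · simp only [c, true_and]
            exact (bad_le h0 h1 s hβ).trans (hn s c.1 c.2)
          · simp only [c, false_and, if_false, mul_zero, sum_const_zero]
            positivity
      _ = η := by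
          rw [sum_const, card_univ, nsmul_eq_mul]
          field_simp
  rw [sum_comm] at s1
  rw [sub_le_comm, ← hW, ← sum_sub_distrib]
  refine le_trans (sum_le_sum fun A _ => ?_) s1
  rw [← mul_sum, hW, ← mul_one_sub]
  refine mul_le_mul_of_nonneg_left ?_ (w0 A)
  split_ifs with c
  · rw [sub_self]
    exact sum_nonneg fun s _ => by split_ifs <;> simp
  · push Not at c
    obtain ⟨s, c1, c2, c3⟩ := c
    refine le_trans ?_ (single_le_sum (f := fun s : J → Bool => if ((∃ j, s j = true) ∧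
      ∃ j, s j = false) ∧ β * wt q s ^ n < ∏ i, psi q s (fun j => A j i) then (1 : ℝ) else 0)
      (fun s _ => by split_ifs <;> simp) (mem_univ s))
    rw [if_pos ⟨⟨c1, c2⟩, c3⟩, sub_zero]

/-- `K + 1` families of about `b 2 ^ d` sets on `r + (K + 1) d` points whose unions miss at most
an `ε` fraction of all sets -/
theorem core (K r : ℕ) {b ε : ℝ} (hb : 0 < b) (hε : Real.exp (-(b ^ (K + 1) / 2 ^ r)) < ε) :
    ∀ᶠ d : ℕ in atTop, ∃ F : Fin (K + 1) → Fin ⌈b * 2 ^ d⌉₊ → Fin (r + (K + 1) * d) → Bool,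
      ((univ.filter fun T => ¬ ∃ ι : Fin (K + 1) → Fin ⌈b * 2 ^ d⌉₊,
        un (fun j => F j (ι j)) = T).card : ℝ) ≤ ε * 2 ^ (r + (K + 1) * d) := by
  obtain ⟨q, h0, h1, hq⟩ : ∃ q : ℝ, 0 < q ∧ q < 1 ∧ q ^ (K + 1) = 1 / 2 :=
    ⟨(1 / 2) ^ ((K + 1 : ℕ) : ℝ)⁻¹, by positivity,
      Real.rpow_lt_one (by norm_num) (by norm_num) (by positivity),
      Real.rpow_inv_natCast_pow (by norm_num) (by omega)⟩
  set g := (ε - Real.exp (-(b ^ (K + 1) / 2 ^ r))) / 3 with hg
  have g0 : 0 < g := by rw [hg]; linarith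
  set L := b + 2 with hL
  have L0 : 0 < L := by linarith
  have ev := good_ev (J := Fin (K + 1)) h0 h1 (by simpa using hq)
    (β := g / (L ^ (2 * K + 2) * (g⁻¹ + 1))) (η := g / L ^ (K + 1)) (by positivity) (by positivity)
  have td : Tendsto (fun d : ℕ => r + (K + 1) * d) atTop atTop :=
    tendsto_atTop_mono (fun d => by simp only [id]; nlinarith) tendsto_id
  filter_upwards [td.eventually ev] with d hd
  set n := r + (K + 1) * d with hn
  set M := ⌈b * 2 ^ d⌉₊ with hM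
  have k1 : (q ^ n) ^ (K + 1) = (1 / 2) ^ n := by rw [← pow_mul, mul_comm, pow_mul, hq]
  have k2 : q ^ n * 2 ^ d = q ^ r := by
    rw [hn, pow_add, pow_mul, hq, mul_assoc, ← mul_pow]
    norm_num
  have k3 : q ^ r ≤ 1 := pow_le_one₀ h0.le h1.le
  have k4 : q ^ n ≤ 1 := pow_le_one₀ h0.le h1.le
  have k0 : 0 < q ^ n := by positivity
  have m1 : b * q ^ r ≤ M * q ^ n := by
    rw [← k2]
    nlinarith [Nat.le_ceil (b * 2 ^ d)]
  have m2 : 1 + M * q ^ n ≤ L := by
    have := (Nat.ceil_lt_add_one (show 0 ≤ b * 2 ^ d by positivity)).le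
    have h2 : (M : ℝ) * q ^ n ≤ (b * 2 ^ d + 1) * q ^ n := mul_le_mul_of_nonneg_right this k0.le
    have h3 : (b * 2 ^ d + 1) * q ^ n = b * q ^ r + q ^ n := by rw [← k2]; ring
    nlinarith
  obtain ⟨F, hF⟩ := cover (μ := W (bit q)) (W_nonneg (bit_nonneg h0.le h1.le))
    (sum_W (bit_sum q)) (un (J := Fin (K + 1)) (n := n))
    (fun A => ∀ s : Fin (K + 1) → Bool, (∃ j, s j = true) → (∃ j, s j = false) →
      ∏ i, psi q s (fun j => A j i) ≤ g / (L ^ (2 * K + 2) * (g⁻¹ + 1)) * wt q s ^ n)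
    (κ := q ^ n) (η := g / L ^ (K + 1)) k0.le
    (show 0 ≤ g / (L ^ (2 * K + 2) * (g⁻¹ + 1)) by positivity) g0
    (by
      rw [k1]
      simp)
    (fun T => by rw [un_unif (by simpa using hq), k1]) (by convert hd)
    (fun A hA s s1 s2 => by
      rw [resample, wt_pow]
      exact hA s s1 s2) M
  refine ⟨F, hF.trans ?_⟩
  have c : (Fintype.card (Fin n → Bool) : ℝ) = 2 ^ n := by simp
  rw [c, mul_comm]
  refine mul_le_mul_of_nonneg_right ?_ (by positivity)
  have a0 : 0 ≤ (M : ℝ) * q ^ n := by positivity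
  have e1 : Real.exp (-(M * q ^ n) ^ (K + 1)) ≤ Real.exp (-(b ^ (K + 1) / 2 ^ r)) := by
    refine Real.exp_le_exp.2 (neg_le_neg (le_trans (le_of_eq ?_)
      (pow_le_pow_left₀ (by positivity) m1 _)))
    rw [mul_pow, ← pow_mul, mul_comm r, pow_mul, hq, one_div, inv_pow, div_eq_mul_inv]
  have e2 : (M * q ^ n) ^ (K + 1) * (g / L ^ (K + 1)) ≤ g := by
    rw [mul_div_assoc', div_le_iff₀ (by positivity), mul_comm]
    exact mul_le_mul_of_nonneg_left (pow_le_pow_left₀ a0 (by linarith) _) g0.le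
  have e3 : g / (L ^ (2 * K + 2) * (g⁻¹ + 1)) * (1 + M * q ^ n) ^ (2 * K + 2) * (g⁻¹ + 1) ≤ g := by
    calc _ ≤ g / (L ^ (2 * K + 2) * (g⁻¹ + 1)) * L ^ (2 * K + 2) * (g⁻¹ + 1) := by gcongr
      _ = g := by field_simp
  linarith

end Pool.Agent.Lib.MP_a893c7_co.KB
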