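import Pool.Agent.Lib.MP_a893c7_co.KB5

open Finset Filter

namespace Pool.Agent.Lib.MP_a893c7_co.KB

/-- every subset of `range n` is a union of `k` members of `B` -/
def Base (k n : ℕ) (B : Finset (Finset ℕ)) : Prop :=
  ∀ T ⊆ range n, ∃ f : ℕ → Finset ℕ, (∀ i < k, f i ∈ B) ∧ T = (range k).biUnion f

theorem Base.ext {k n : ℕ} {B : Finset (Finset ℕ)} (h : Base k n B) (t : ℕ) :
    Base (k + 1) (n + t) (B ∪ (Ico n (n + t)).powerset) := by
  intro T hT
  obtain ⟨f, h1, h2⟩ := h (T ∩ range n) inter_subset_right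
  refine ⟨fun i => if i < k then f i else T ∩ Ico n (n + t), fun i _ => ?_, ?_⟩
  · by_cases c : i < k
    · simp [c, h1 i c]
    · simp [c]
  · rw [range_add_one, biUnion_insert, if_neg (lt_irrefl k),
      biUnion_congr rfl (t₂ := f) fun i hi => if_pos (mem_range.1 hi), ← h2]
    ext x
    have := @hT x
    simp only [mem_union, mem_inter, mem_Ico, mem_range] at this ⊢
    by_cases c : x ∈ T <;> simp [c] at this ⊢
    omega

theorem Base.ext_many {k n : ℕ} {B : Finset (Finset ℕ)} (h : Base k n B) (t i : ℕ) :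
    ∃ B', Base (k + i) (n + i * t) B' ∧ B'.card ≤ B.card + i * 2 ^ t := by
  induction i with
  | zero => exact ⟨B, by simpa using h, by simp⟩
  | succ i ih =>
    obtain ⟨B', h1, h2⟩ := ih
    refine ⟨_, by simpa [add_mul, add_assoc] using h1.ext t, (card_union_le _ _).trans ?_⟩
    rw [card_powerset, Nat.card_Ico]
    have e : n + (i * t + t) - (n + i * t) = t := by omega
    rw [e, add_mul]
    omega

theorem Base.fin {k n : ℕ} {B : Finset (Finset ℕ)} (h : Base k n B) :
    ∃ B' : Finset (Finset (Fin n)), (∀ T : Finset (Fin n), ∃ f : Fin k → Finset (Fin n),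
      (∀ i, f i ∈ B') ∧ T = univ.biUnion f) ∧ B'.card ≤ B.card := by
  refine ⟨B.image fun A => univ.filter fun x : Fin n => x.val ∈ A, fun T => ?_, card_image_le⟩
  obtain ⟨f, h1, h2⟩ := h (T.map Fin.valEmbedding) fun x hx => by
    obtain ⟨y, -, rfl⟩ := mem_map.1 hx
    simp
  refine ⟨fun i => univ.filter fun x : Fin n => x.val ∈ f i,
    fun i => mem_image_of_mem _ (h1 i i.2), ?_⟩
  ext x
  have e : x ∈ T ↔ x.val ∈ T.map Fin.valEmbedding := by simp [Fin.val_inj]
  rw [e, h2]
  simp only [mem_biUnion, mem_range, mem_univ, true_and, mem_filter]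
  exact ⟨fun ⟨i, a, b⟩ => ⟨⟨i, a⟩, b⟩, fun ⟨i, b⟩ => ⟨i, i.2, b⟩⟩

/-- the set of a Boolean vector -/
def toS {n : ℕ} (A : Fin n → Bool) : Finset ℕ :=
  (univ.filter fun i => A i = true).map Fin.valEmbedding

theorem mem_toS {n x : ℕ} {A : Fin n → Bool} : x ∈ toS A ↔ ∃ h : x < n, A ⟨x, h⟩ = true := by
  simp only [toS, Finset.mem_map, mem_filter, mem_univ, true_and, Fin.valEmbedding_apply]
  exact ⟨fun ⟨i, a, b⟩ => b ▸ ⟨i.2, a⟩, fun ⟨h, a⟩ => ⟨_, a, rfl⟩⟩

theorem slot {a c u x : ℕ} (h1 : a ≤ x) (h2 : x < a + c * u) :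
    ∃ j < c, x ∈ Ico (a + j * u) (a + j * u + u) := by
  have hu : 0 < u := Nat.pos_of_ne_zero fun e => by simp [e] at h2; omega
  refine ⟨(x - a) / u, (Nat.div_lt_iff_lt_mul hu).2 (by omega), ?_⟩
  have e1 := Nat.div_add_mod' (x - a) u
  have e2 := Nat.mod_lt (x - a) hu
  rw [mem_Ico]
  omega

theorem lift {K M n u u' v : ℕ} (huv : (K + 1) * u = K * u' + v)
    (F : Fin (K + 1) → Fin M → Fin n → Bool) :
    ∃ B, Base (K + 1) (n + (K + 1) * u) B ∧ B.card ≤ (K + 1) * (M * 2 ^ u) + K * 2 ^ u' +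
      (univ.filter fun T => ¬ ∃ ι : Fin (K + 1) → Fin M, un (fun j => F j (ι j)) = T).card *
        2 ^ v := by
  set N := univ.filter fun T => ¬ ∃ ι : Fin (K + 1) → Fin M, un (fun j => F j (ι j)) = T with hN
  refine ⟨(univ.biUnion fun j : Fin (K + 1) => image₂ (· ∪ ·) (univ.image fun m => toS (F j m))
      (Ico (n + j * u) (n + j * u + u)).powerset) ∪
      (range K).biUnion (fun j => (Ico (n + j * u') (n + j * u' + u')).powerset) ∪
      image₂ (· ∪ ·) (N.image toS) (Ico (n + K * u') (n + K * u' + v)).powerset, ?_, ?_⟩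
  · intro T hT
    have lt (x : ℕ) (hx : x ∈ T) : x < n + (K + 1) * u := mem_range.1 (hT hx)
    by_cases c : (fun i : Fin n => decide (i.val ∈ T)) ∈ N
    · refine ⟨fun j => if j < K then T ∩ Ico (n + j * u') (n + j * u' + u') else
        toS (fun i : Fin n => decide (i.val ∈ T)) ∪ T ∩ Ico (n + K * u') (n + K * u' + v),
        fun j _ => ?_, ?_⟩
      · by_cases e : j < K
        · simp only [if_pos e]
          exact mem_union_left _ (mem_union_right _ (mem_biUnion.2
            ⟨j, mem_range.2 e, mem_powerset.2 inter_subset_right⟩))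
        · simp only [if_neg e]
          exact mem_union_right _ (mem_image₂_of_mem (mem_image_of_mem _ c)
            (mem_powerset.2 inter_subset_right))
      · ext x
        simp only [mem_biUnion, mem_range]
        refine ⟨fun hx => ?_, fun ⟨j, _, hx⟩ => ?_⟩
        · by_cases e : n ≤ x ∧ x < n + K * u'
          · obtain ⟨j, a, b⟩ := slot e.1 e.2
            exact ⟨j, by omega, by rw [if_pos a]; exact mem_inter.2 ⟨hx, b⟩⟩
          · refine ⟨K, by omega, ?_⟩
            have := lt x hx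
            simp only [lt_irrefl, if_false, mem_union, mem_toS, mem_inter, mem_Ico, hx,
              decide_true, exists_prop, and_true, true_and]
            omega
        · split_ifs at hx
          · exact (mem_inter.1 hx).1
          · rcases mem_union.1 hx with e | e
            · simpa using (mem_toS.1 e).2
            · exact (mem_inter.1 e).1
    · obtain ⟨ι, hι⟩ : ∃ ι : Fin (K + 1) → Fin M,
          un (fun j => F j (ι j)) = fun i : Fin n => decide (i.val ∈ T) := by simpa [hN] using c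
      have hx (i : Fin n) : (∃ j, F j (ι j) i = true) ↔ i.val ∈ T := by
        simpa [un, or1] using congrFun hι i
      refine ⟨fun j => if h : j < K + 1 then toS (F ⟨j, h⟩ (ι ⟨j, h⟩)) ∪
        T ∩ Ico (n + j * u) (n + j * u + u) else ∅, fun j h => ?_, ?_⟩
      · simp only [dif_pos h]
        exact mem_union_left _ (mem_union_left _ (mem_biUnion.2 ⟨⟨j, h⟩, mem_univ _,
          mem_image₂_of_mem (mem_image_of_mem _ (mem_univ _))
            (mem_powerset.2 inter_subset_right)⟩))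
      · ext x
        simp only [mem_biUnion, mem_range]
        refine ⟨fun h => ?_, fun ⟨j, hj, h⟩ => ?_⟩
        · by_cases e : x < n
          · obtain ⟨j, hj⟩ := (hx ⟨x, e⟩).2 h
            exact ⟨j, j.2, by rw [dif_pos j.2]; exact mem_union_left _ (mem_toS.2 ⟨e, hj⟩)⟩
          · obtain ⟨j, a, b⟩ := slot (not_lt.1 e) (lt x h)
            exact ⟨j, a, by rw [dif_pos a]; exact mem_union_right _ (mem_inter.2 ⟨h, b⟩)⟩
        · rw [dif_pos hj] at h
          rcases mem_union.1 h with e | e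
          · obtain ⟨a, b⟩ := mem_toS.1 e
            exact (hx ⟨x, a⟩).1 ⟨_, b⟩
          · exact (mem_inter.1 e).1
  · refine (card_union_le _ _).trans (add_le_add ((card_union_le _ _).trans
      (add_le_add ?_ ?_)) ?_)
    · refine (card_biUnion_le_card_mul _ _ (M * 2 ^ u) fun j _ => ?_).trans (by simp)
      refine (card_image₂_le _ _ _).trans (Nat.mul_le_mul (card_image_le.trans (by simp)) ?_)
      simp
    · refine (card_biUnion_le_card_mul _ _ (2 ^ u') fun j _ => ?_).trans (by simp)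
      simp
    · refine (card_image₂_le _ _ _).trans (Nat.mul_le_mul card_image_le ?_)
      simp

/-- the general upper bound -/
theorem upper (K r l : ℕ) {b ε δ : ℝ} (hb : 0 < b) (hδ : 0 < δ)
    (hε : Real.exp (-(b ^ (K + 1) / 2 ^ r)) < ε) :
    ∀ᶠ m : ℕ in atTop, ∃ B, Base (K + 1) (r + (K + 1) * m) B ∧
      (B.card : ℝ) ≤ ((K + 1) * b + δ + K / 2 ^ l + ε * 2 ^ (r + K * l)) * 2 ^ m := by
  have t2 : Tendsto (fun d : ℕ => (2 : ℝ) ^ d) atTop atTop :=
    tendsto_pow_atTop_atTop_of_one_lt one_lt_two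
  obtain ⟨d, ⟨F, hF⟩, hd⟩ := ((core K r hb hε).and
    (t2.eventually_ge_atTop ((K + 1) / δ))).exists
  filter_upwards [eventually_ge_atTop ((K + 1) * d + l)] with m hm
  obtain ⟨u, hu⟩ : ∃ u, m = u + d := ⟨m - d, by
    have : d ≤ (K + 1) * d := Nat.le_mul_of_pos_left _ (by omega)
    omega⟩
  obtain ⟨u', hu'⟩ : ∃ u', m = u' + l := ⟨m - l, by omega⟩
  obtain ⟨v, hv⟩ : ∃ v, m + K * l = v + (K + 1) * d := ⟨m + K * l - (K + 1) * d, by omega⟩
  obtain ⟨B, h1, h2⟩ := lift (u := u) (u' := u') (v := v) (by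
    have e1 : (K + 1) * m = (K + 1) * u + (K + 1) * d := by rw [hu]; ring
    have e2 : K * m = K * u' + K * l := by rw [hu']; ring
    have e3 : (K + 1) * m = K * m + m := by ring
    omega) F
  refine ⟨B, by rw [hu, mul_add, add_comm ((K + 1) * u), ← add_assoc]; exact h1, ?_⟩
  have h3 : (B.card : ℝ) ≤ _ := Nat.cast_le.2 h2
  push_cast at h3
  have c1 := (Nat.ceil_lt_add_one (show 0 ≤ b * 2 ^ d by positivity)).le
  have p1 : (2 : ℝ) ^ m = 2 ^ u * 2 ^ d := by rw [hu, pow_add]
  have p2 : (2 : ℝ) ^ m = 2 ^ u' * 2 ^ l := by rw [hu', pow_add]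
  have p3 : (2 : ℝ) ^ (r + (K + 1) * d) * 2 ^ v = 2 ^ (r + K * l) * 2 ^ m := by
    rw [← pow_add, ← pow_add]
    congr 1
    omega
  have q1 : ((K : ℝ) + 1) * (⌈b * 2 ^ d⌉₊ * 2 ^ u) ≤ ((K + 1) * b + δ) * 2 ^ m := by
    rw [div_le_iff₀ hδ] at hd
    have : ((K : ℝ) + 1) * ⌈b * 2 ^ d⌉₊ ≤ ((K + 1) * b + δ) * 2 ^ d := by
      have := mul_le_mul_of_nonneg_left c1 (show (0 : ℝ) ≤ K + 1 by positivity)
      nlinarith
    rw [p1, ← mul_assoc, mul_comm ((2 : ℝ) ^ u), ← mul_assoc]
    exact mul_le_mul_of_nonneg_right this (by positivity)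
  have q2 : (K : ℝ) * 2 ^ u' = K / 2 ^ l * 2 ^ m := by
    rw [p2]
    field_simp
  have q3 := mul_le_mul_of_nonneg_right hF (show (0 : ℝ) ≤ 2 ^ v by positivity)
  rw [mul_assoc, p3] at q3
  nlinarith

end Pool.Agent.Lib.MP_a893c7_co.KB
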