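import Pool.Agent.Lib.MP_a893c7_co.KB4

open Finset

namespace Pool.Agent.Lib.MP_a893c7_co.KB

variable {Ω : Type} [Fintype Ω] [DecidableEq Ω] {π : Ω → ℝ}

/-- weight of a random subfamily: `a` is taken with probability `π a` -/
def PR (π : Ω → ℝ) (R : Ω → Bool) : ℝ := ∏ a, bit (1 - π a) (R a)

omit [DecidableEq Ω] in
theorem PR_nonneg (h0 : ∀ a, 0 ≤ π a) (h1 : ∀ a, π a ≤ 1) (R : Ω → Bool) : 0 ≤ PR π R :=
  prod_nonneg fun a _ => bit_nonneg (by linarith [h1 a]) (by linarith [h0 a]) _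

theorem PR_sum (π : Ω → ℝ) : ∑ R, PR π R = 1 := by
  unfold PR
  rw [sum_prod fun a z => bit (1 - π a) z]
  exact prod_eq_one fun a _ => bit_sum _

theorem push' {J X Y : Type} [Fintype J] [DecidableEq J] [Fintype X] [Fintype Y] [DecidableEq Y]
    (w : J → X → ℝ) (f : J → X → Y) (G : (J → Y) → ℝ) :
    ∑ x : J → X, (∏ j, w j (x j)) * G (fun j => f j (x j)) =
      ∑ y : J → Y, (∏ j, ∑ z, w j z * if f j z = y j then 1 else 0) * G y := by
  have h (y : J → Y) : (∏ j, ∑ z, w j z * if f j z = y j then (1 : ℝ) else 0) =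
      ∑ x : J → X, (∏ j, w j (x j)) * if (fun j => f j (x j)) = y then 1 else 0 := by
    rw [prod_univ_sum, Fintype.piFinset_univ]
    refine sum_congr rfl fun x _ => ?_
    rw [prod_mul_distrib]
    congr 1
    rw [prod_ite_zero]
    simp [funext_iff]
  simp only [h, sum_mul]
  rw [sum_comm]
  refine sum_congr rfl fun x _ => ?_
  simp

theorem cond (π : Ω → ℝ) (D : Finset Ω) (g : (Ω → Bool) → ℝ) :
    ∑ R, PR π R * ((if ∀ a ∈ D, R a = true then 1 else 0) * g R) =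
      (∏ a ∈ D, π a) * ∑ R, PR π R * g (fun a => R a || decide (a ∈ D)) := by
  have h := push' (fun a z => bit (1 - π a) z * if a ∈ D then π a else 1)
    (fun a z => z || decide (a ∈ D)) g
  have e : ∏ a, (if a ∈ D then π a else 1) = ∏ a ∈ D, π a := by simp
  rw [mul_sum]
  refine Eq.trans (sum_congr rfl fun R _ => ?_) (h.symm.trans (sum_congr rfl fun R _ => ?_))
  · have e2 : (if ∀ a ∈ D, R a = true then (1 : ℝ) else 0) =
        ∏ a, if a ∈ D → R a = true then 1 else 0 := by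
      rw [prod_ite_zero]
      simp
    rw [← mul_assoc, e2, PR, ← prod_mul_distrib]
    congr 1
    refine prod_congr rfl fun a _ => ?_
    by_cases c : a ∈ D <;> cases R a <;> simp [c, bit]
    ring
  · rw [prod_mul_distrib, e, PR]
    ring

/-- no member of `𝔉` is contained in `R` -/
noncomputable def nb (𝔉 : Finset (Finset Ω)) (R : Ω → Bool) : ℝ :=
  if ∃ A ∈ 𝔉, ∀ a ∈ A, R a = true then 0 else 1

theorem nb_nonneg (𝔉 : Finset (Finset Ω)) (R : Ω → Bool) : 0 ≤ nb 𝔉 R := by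
  unfold nb
  split_ifs <;> simp

theorem nb_mono {𝔉 𝔉' : Finset (Finset Ω)} {R R' : Ω → Bool}
    (h : (∃ A ∈ 𝔉, ∀ a ∈ A, R a = true) → ∃ A ∈ 𝔉', ∀ a ∈ A, R' a = true) :
    nb 𝔉' R' ≤ nb 𝔉 R := by
  unfold nb
  by_cases c : ∃ A ∈ 𝔉, ∀ a ∈ A, R a = true
  · rw [if_pos c, if_pos (h c)]
  · rw [if_neg c]
    split_ifs <;> simp

theorem janson_step (h0 : ∀ a, 0 ≤ π a) (h1 : ∀ a, π a ≤ 1) (𝔉 : Finset (Finset Ω))
    (A : Finset Ω) : ∑ R, PR π R * nb (insert A 𝔉) R ≤ (∑ R, PR π R * nb 𝔉 R) *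
      Real.exp (-(∏ a ∈ A, π a) + ∑ A' ∈ 𝔉, if Disjoint A A' then 0 else ∏ a ∈ A ∪ A', π a) := by
  have p0 := PR_nonneg h0 h1
  set F₂ := 𝔉.filter fun A' => Disjoint A A' with hF
  set I : Finset Ω → (Ω → Bool) → ℝ := fun D R => if ∀ a ∈ D, R a = true then 1 else 0 with hI
  have I0 (D R) : 0 ≤ I D R := by
    simp only [hI]
    split_ifs <;> simp
  have e1 (R : Ω → Bool) : nb (insert A 𝔉) R = nb 𝔉 R - I A R * nb 𝔉 R := by
    simp only [nb, hI, mem_insert, exists_eq_or_imp]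
    by_cases c : ∀ a ∈ A, R a = true
    · rw [if_pos (Or.inl c), if_pos c]
      ring
    · rw [if_neg c, if_congr (or_iff_right c) rfl rfl]
      ring
  have e2 (R : Ω → Bool) : I A R * nb F₂ R -
      ∑ A' ∈ 𝔉, (if Disjoint A A' then 0 else I (A ∪ A') R * nb F₂ R) ≤ I A R * nb 𝔉 R := by
    have s0 (A' : Finset Ω) : 0 ≤ if Disjoint A A' then 0 else I (A ∪ A') R * nb F₂ R := by
      split_ifs
      · exact le_rfl
      · exact mul_nonneg (I0 _ _) (nb_nonneg _ _)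
    by_cases c : ∃ A' ∈ 𝔉, ¬ Disjoint A A' ∧ ∀ a ∈ A', R a = true
    · obtain ⟨A', a1, a2, a3⟩ := c
      have s1 := single_le_sum (fun A' _ => s0 A') a1
      have s2 : I (A ∪ A') R = I A R := if_congr
        ⟨fun h a ha => h a (mem_union_left _ ha),
          fun h a ha => (mem_union.1 ha).elim (h a) (a3 a)⟩ rfl rfl
      rw [if_neg a2, s2] at s1
      linarith [mul_nonneg (I0 A R) (nb_nonneg 𝔉 R)]
    · have s1 : nb F₂ R ≤ nb 𝔉 R := nb_mono fun ⟨A', a1, a3⟩ =>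
        ⟨A', mem_filter.2 ⟨a1, by_contra fun a2 => c ⟨A', a1, a2, a3⟩⟩, a3⟩
      linarith [mul_le_mul_of_nonneg_left s1 (I0 A R), sum_nonneg fun A' (_ : A' ∈ 𝔉) => s0 A']
  set N₂ := ∑ R, PR π R * nb F₂ R with hN₂
  set N := ∑ R, PR π R * nb 𝔉 R with hN
  have n0 : 0 ≤ N := sum_nonneg fun R _ => mul_nonneg (p0 R) (nb_nonneg _ _)
  have n1 : N ≤ N₂ := sum_le_sum fun R _ => mul_le_mul_of_nonneg_left
    (nb_mono fun ⟨A', a1, a3⟩ => ⟨A', (mem_filter.1 a1).1, a3⟩) (p0 R)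
  have e3 : (∏ a ∈ A, π a) * N₂ ≤ ∑ R, PR π R * (I A R * nb F₂ R) := by
    rw [hI, cond]
    refine mul_le_mul_of_nonneg_left (sum_le_sum fun R _ => mul_le_mul_of_nonneg_left
      (nb_mono fun ⟨A', a1, a3⟩ => ⟨A', a1, fun a ha => ?_⟩) (p0 R)) (prod_nonneg fun a _ => h0 a)
    have : a ∉ A := fun h => disjoint_left.1 (mem_filter.1 a1).2 h ha
    simpa [this] using a3 a ha
  have e4 (D : Finset Ω) : ∑ R, PR π R * (I D R * nb F₂ R) ≤ (∏ a ∈ D, π a) * N₂ := by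
    rw [hI, cond]
    exact mul_le_mul_of_nonneg_left (sum_le_sum fun R _ => mul_le_mul_of_nonneg_left
      (nb_mono fun ⟨A', a1, a3⟩ => ⟨A', a1, fun a ha => by simp [a3 a ha]⟩) (p0 R))
      (prod_nonneg fun a _ => h0 a)
  set x := (∏ a ∈ A, π a) - ∑ A' ∈ 𝔉, if Disjoint A A' then 0 else ∏ a ∈ A ∪ A', π a with hx
  have e5 : x * N₂ ≤ ∑ R, PR π R * (I A R * nb 𝔉 R) := by
    refine le_trans ?_ (sum_le_sum fun R _ => mul_le_mul_of_nonneg_left (e2 R) (p0 R))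
    simp only [mul_sub, sum_sub_distrib, mul_sum _ _ (PR π _)]
    rw [hx, sub_mul, sum_comm, sum_mul]
    refine sub_le_sub e3 (sum_le_sum fun A' _ => ?_)
    split_ifs
    · simp
    · exact e4 _
  have e6 : 0 ≤ ∑ R, PR π R * (I A R * nb 𝔉 R) :=
    sum_nonneg fun R _ => mul_nonneg (p0 R) (mul_nonneg (I0 _ _) (nb_nonneg _ _))
  have e7 : x * N ≤ ∑ R, PR π R * (I A R * nb 𝔉 R) := by
    rcases le_total 0 x with c | c
    · exact (mul_le_mul_of_nonneg_left n1 c).trans e5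
    · exact (mul_nonpos_of_nonpos_of_nonneg c n0).trans e6
  simp only [e1, mul_sub, sum_sub_distrib]
  have e8 := mul_le_mul_of_nonneg_left (Real.add_one_le_exp (-x)) n0
  rw [show -(∏ a ∈ A, π a) + ∑ A' ∈ 𝔉, (if Disjoint A A' then 0 else ∏ a ∈ A ∪ A', π a) = -x by
    rw [hx]; ring]
  linarith

/-- the inequality of Janson -/
theorem janson (h0 : ∀ a, 0 ≤ π a) (h1 : ∀ a, π a ≤ 1) (𝔉 : Finset (Finset Ω)) :
    ∑ R, PR π R * nb 𝔉 R ≤ Real.exp (-(∑ A ∈ 𝔉, ∏ a ∈ A, π a) +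
      (∑ A ∈ 𝔉, ∑ A' ∈ 𝔉, if A = A' ∨ Disjoint A A' then 0 else ∏ a ∈ A ∪ A', π a) / 2) := by
  induction 𝔉 using Finset.induction_on with
  | empty => simp [nb, PR_sum]
  | insert A 𝔉 hA ih =>
    refine (janson_step h0 h1 𝔉 A).trans ((mul_le_mul_of_nonneg_right ih
      (Real.exp_pos _).le).trans (le_of_eq ?_))
    rw [← Real.exp_add]
    congr 1
    simp only [sum_insert hA, sum_add_distrib, true_or, if_true]
    have e1 : ∑ A' ∈ 𝔉, (if A = A' ∨ Disjoint A A' then 0 else ∏ a ∈ A ∪ A', π a) =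
        ∑ A' ∈ 𝔉, if Disjoint A A' then 0 else ∏ a ∈ A ∪ A', π a :=
      sum_congr rfl fun A' h => if_congr (or_iff_right fun e => hA (e ▸ h)) rfl rfl
    have e2 : ∑ A' ∈ 𝔉, (if A' = A ∨ Disjoint A' A then 0 else ∏ a ∈ A' ∪ A, π a) =
        ∑ A' ∈ 𝔉, if Disjoint A A' then 0 else ∏ a ∈ A ∪ A', π a :=
      sum_congr rfl fun A' h => if_congr ((or_iff_right fun e : A' = A => hA (e ▸ h)).trans disjoint_comm)
        rfl (by rw [union_comm])
    rw [e1, e2]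
    ring

end Pool.Agent.Lib.MP_a893c7_co.KB
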