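import Pool.Agent.Lib.MP_a893c7_co.KC1

open Finset

namespace Pool.Agent.Lib.MP_a893c7_co.KB

variable {Ω : Type} [Fintype Ω] [DecidableEq Ω] {μ : Ω → ℝ}

theorem fiber {j : ℕ} {D : Finset Ω} (hD : D.card = j) :
    (univ.filter fun f : Fin j → Ω => univ.image f = D).card = j.factorial := by
  have e : Fintype.card (Fin j ≃ D) = j.factorial := by
    rw [Fintype.card_equiv (Fintype.equivOfCardEq (by simp [hD]))]
    simp
  rw [← e, ← card_univ]
  refine (card_bij (fun e _ i => (e i).1) (fun e _ => ?_) (fun e _ e' _ h => ?_)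
    fun f hf => ?_).symm
  · rw [mem_filter]
    refine ⟨mem_univ _, ?_⟩
    ext a
    simp only [mem_image, mem_univ, true_and]
    exact ⟨fun ⟨i, h⟩ => h ▸ (e i).2, fun h => ⟨e.symm ⟨a, h⟩, by simp⟩⟩
  · ext i
    exact congrFun h i
  · have h1 := (mem_filter.1 hf).2
    have h2 : Function.Injective f := by
      have := injOn_of_card_image_eq (s := univ) (f := f) (by simp [h1, hD])
      simpa using this
    refine ⟨Equiv.ofBijective (fun i => ⟨f i, h1 ▸ mem_image_of_mem f (mem_univ i)⟩)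
      ⟨fun i i' h => h2 (congrArg Subtype.val h), fun ⟨a, ha⟩ => ?_⟩, mem_univ _, rfl⟩
    obtain ⟨i, -, hi⟩ := mem_image.1 (h1 ▸ ha)
    exact ⟨i, Subtype.ext hi⟩

omit [Fintype Ω] in
theorem prod_img {j : ℕ} {f : Fin j → Ω} (h : (univ.image f).card = j) (M : ℝ) :
    ∏ a ∈ univ.image f, M * μ a = M ^ j * W μ f := by
  rw [prod_image (injOn_of_card_image_eq (by simp [h])), prod_mul_distrib, W]
  simp

/-- sets of size `j` against tuples -/
theorem sets_le (h0 : ∀ z, 0 ≤ μ z) {M : ℝ} (hM : 0 ≤ M) (j : ℕ) (C : Finset Ω → Prop)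
    [DecidablePred C] (𝔇 : Finset (Finset Ω)) (h : ∀ D ∈ 𝔇, D.card = j ∧ C D) :
    ∑ D ∈ 𝔇, ∏ a ∈ D, M * μ a ≤ M ^ j / j.factorial *
      ∑ g : Fin j → Ω, W μ g * if C (univ.image g) then 1 else 0 := by
  have f0 : (0 : ℝ) < j.factorial := by exact_mod_cast j.factorial_pos
  rw [div_mul_eq_mul_div, le_div_iff₀ f0, sum_mul, mul_sum]
  calc _ = ∑ D ∈ 𝔇, ∑ g ∈ univ.filter fun g : Fin j → Ω => univ.image g = D,
        M ^ j * (W μ g * if C (univ.image g) then 1 else 0) := by
        refine sum_congr rfl fun D hD => ?_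
        rw [← fiber (h D hD).1, mul_comm, ← nsmul_eq_mul, ← sum_const]
        refine sum_congr rfl fun g hg => ?_
        have e := (mem_filter.1 hg).2
        rw [e, if_pos (h D hD).2, mul_one, ← e, prod_img (e ▸ (h D hD).1)]
    _ = ∑ g ∈ univ.filter fun g : Fin j → Ω => univ.image g ∈ 𝔇,
        M ^ j * (W μ g * if C (univ.image g) then 1 else 0) := by
        rw [← sum_fiberwise_of_maps_to (g := fun g : Fin j → Ω => univ.image g) (t := 𝔇)
          fun g hg => (mem_filter.1 hg).2]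
        refine sum_congr rfl fun D hD => sum_congr ?_ fun _ _ => rfl
        ext g
        simp only [mem_filter, mem_univ, true_and]
        exact ⟨fun e => ⟨e ▸ hD, e⟩, fun e => e.2⟩
    _ ≤ _ := sum_le_sum_of_subset_of_nonneg (subset_univ _) fun g _ _ =>
        mul_nonneg (by positivity) (mul_nonneg (W_nonneg h0 g) (by split_ifs <;> simp))

theorem tuples_le (h0 : ∀ z, 0 ≤ μ z) {M : ℝ} (hM : 0 ≤ M) {k : ℕ} (𝒢 : Finset (Fin k → Ω))
    (h : ∀ f ∈ 𝒢, Function.Injective f) :
    M ^ k / k.factorial * ∑ f ∈ 𝒢, W μ f ≤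
      ∑ D ∈ 𝒢.image (fun f => univ.image f), ∏ a ∈ D, M * μ a := by
  have f0 : (0 : ℝ) < k.factorial := by exact_mod_cast k.factorial_pos
  have c (f) (hf : f ∈ 𝒢) : (univ.image f).card = k := by
    rw [card_image_of_injective _ (h f hf)]
    simp
  rw [div_mul_eq_mul_div, div_le_iff₀ f0, sum_mul, mul_sum,
    ← sum_fiberwise_of_maps_to (g := fun f : Fin k → Ω => univ.image f)
      (t := 𝒢.image fun f => univ.image f) fun f hf => mem_image_of_mem _ hf]
  refine sum_le_sum fun D hD => ?_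
  obtain ⟨f, hf, rfl⟩ := mem_image.1 hD
  rw [← fiber (c f hf), mul_comm _ (Nat.cast _), ← nsmul_eq_mul, ← sum_const]
  refine le_trans (le_of_eq (sum_congr rfl fun g hg => ?_)) (sum_le_sum_of_subset_of_nonneg
    (filter_subset_filter _ (subset_univ 𝒢)) fun g _ _ =>
      prod_nonneg fun a _ => mul_nonneg hM (h0 a))
  rw [← (mem_filter.1 hg).2, prod_img (c g (mem_filter.1 hg).1)]

/-- one target: the chance that no good tuple lies in the random family -/
theorem miss_le (h0 : ∀ z, 0 ≤ μ z) {M κ β G : ℝ} (hM : 0 ≤ M) (hβ : 0 ≤ β) {k : ℕ}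
    (C : Finset Ω → Prop) [DecidablePred C] (𝒢 : Finset (Fin k → Ω))
    (hi : ∀ f ∈ 𝒢, Function.Injective f) (hc : ∀ f ∈ 𝒢, C (univ.image f))
    (hs : ∀ f ∈ 𝒢, ∀ j, M * μ (f j) ≤ 1)
    (hr : ∀ f ∈ 𝒢, ∀ S ⊆ univ.image f, S.Nonempty → S ≠ univ.image f →
      ∑ g : Fin (k - S.card) → Ω, W μ g * (if C (S ∪ univ.image g) then 1 else 0) ≤
        β * κ ^ (k - S.card))
    (hG : ∀ j ≤ k, (M * κ) ^ j / j.factorial ≤ G) (hb : β * 2 ^ k * G ≤ 1 / 5) :
    ∑ R, PR (fun a => min 1 (M * μ a)) R * nb (𝒢.image fun f => univ.image f) R ≤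
      Real.exp (-(9 / 10 * (M ^ k / k.factorial * ∑ f ∈ 𝒢, W μ f))) := by
  have m0 (a) : 0 ≤ M * μ a := mul_nonneg hM (h0 a)
  have p0 (a) : 0 ≤ min 1 (M * μ a) := le_min zero_le_one (m0 a)
  have G0 : 0 ≤ G := le_trans (by simp) (hG 0 (Nat.zero_le _))
  set 𝔉 := 𝒢.image fun f => univ.image f with h𝔉
  have ck (A) (hA : A ∈ 𝔉) : A.card = k ∧ C A := by
    obtain ⟨f, hf, rfl⟩ := mem_image.1 hA
    exact ⟨by rw [card_image_of_injective _ (hi f hf)]; simp, hc f hf⟩
  have e1 : ∑ A ∈ 𝔉, ∏ a ∈ A, min 1 (M * μ a) = ∑ A ∈ 𝔉, ∏ a ∈ A, M * μ a := by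
    refine sum_congr rfl fun A hA => prod_congr rfl fun a ha => min_eq_right ?_
    obtain ⟨f, hf, rfl⟩ := mem_image.1 hA
    obtain ⟨j, -, rfl⟩ := mem_image.1 ha
    exact hs f hf j
  have e2 (A) (hA : A ∈ 𝔉) : ∑ A' ∈ 𝔉, (if A = A' ∨ Disjoint A A' then 0 else
      ∏ a ∈ A ∪ A', min 1 (M * μ a)) ≤ (∏ a ∈ A, M * μ a) * (1 / 5) := by
    rw [← sum_fiberwise_of_maps_to (g := fun A' => A' ∩ A) (t := A.powerset)
      fun A' _ => mem_powerset.2 inter_subset_right]
    have a0 : 0 ≤ ∏ a ∈ A, M * μ a := prod_nonneg fun a _ => m0 a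
    refine le_trans (sum_le_card_nsmul _ _ ((∏ a ∈ A, M * μ a) * (β * G)) fun S hS => ?_) ?_
    · by_cases c : S.Nonempty ∧ S ≠ A
      · obtain ⟨f, hf, rfl⟩ := mem_image.1 hA
        have r1 := hr f hf S (mem_powerset.1 hS) c.1 c.2
        have r2 := sets_le h0 hM (k - S.card) (fun D => C (S ∪ D))
          ((𝔉.filter fun A' => A' ∩ univ.image f = S).image fun A' => A' \ univ.image f)
          fun D hD => by
            obtain ⟨A', a1, rfl⟩ := mem_image.1 hD
            obtain ⟨a2, rfl⟩ := mem_filter.1 a1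
            refine ⟨by rw [card_sdiff, (ck A' a2).1, inter_comm], ?_⟩
            rw [union_comm, sdiff_union_inter]
            exact (ck A' a2).2
        rw [sum_image fun A₁ a1 A₂ a2 e => by
          rw [← sdiff_union_inter A₁ (univ.image f), ← sdiff_union_inter A₂ (univ.image f),
            (mem_filter.1 a1).2, (mem_filter.1 a2).2]
          exact congrArg (· ∪ S) e] at r2
        have r3 := mul_le_mul_of_nonneg_left r1
          (show 0 ≤ M ^ (k - S.card) / (k - S.card).factorial by positivity)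
        have r4 := mul_le_mul_of_nonneg_left (hG (k - S.card) (Nat.sub_le _ _)) hβ
        have r5 : M ^ (k - S.card) / (k - S.card).factorial * (β * κ ^ (k - S.card)) =
            β * ((M * κ) ^ (k - S.card) / (k - S.card).factorial) := by
          rw [mul_pow]; ring
        refine le_trans ?_ (mul_le_mul_of_nonneg_left (r2.trans (r3.trans (r5.trans_le r4))) a0)
        rw [mul_sum]
        refine sum_le_sum fun A' _ => ?_
        rw [← prod_union disjoint_sdiff, union_sdiff_self_eq_union]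
        split_ifs
        · exact prod_nonneg fun a _ => m0 a
        · exact prod_le_prod (fun a _ => p0 a) fun a _ => min_le_right _ _
      · refine le_trans (le_of_eq (sum_eq_zero fun A' a1 => if_pos ?_)) (by positivity)
        obtain ⟨a2, rfl⟩ := mem_filter.1 a1
        by_cases c' : (A' ∩ A).Nonempty
        · have e : A' ∩ A = A := by_contra fun e => c ⟨c', e⟩
          exact Or.inl (eq_of_subset_of_card_le (e ▸ inter_subset_left)
            (by rw [(ck A hA).1, (ck A' a2).1]))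
        · rw [not_nonempty_iff_eq_empty, inter_comm] at c'
          exact Or.inr (disjoint_iff_inter_eq_empty.2 c')
    · rw [card_powerset, (ck A hA).1, nsmul_eq_mul, mul_left_comm]
      refine mul_le_mul_of_nonneg_left ?_ a0
      push_cast
      linarith
  refine (janson p0 (fun a => min_le_left _ _) 𝔉).trans (Real.exp_le_exp.2 ?_)
  have e3 := sum_le_sum e2
  have e4 := tuples_le h0 hM 𝒢 hi
  rw [← sum_mul] at e3
  rw [e1]
  linarith

end Pool.Agent.Lib.MP_a893c7_co.KB
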