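import Pool.Agent.Lib.MP_a893c7_co.KC2

open Finset

namespace Pool.Agent.Lib.MP_a893c7_co.KB

variable {n k : ℕ} {q β : ℝ}

/-- chance that `u` OR a fresh bit (false with probability `z`) equals `t` -/
def pt (z : ℝ) (u t : Bool) : ℝ := if u then (if t then 1 else 0) else (if t then 1 - z else z)

/-- the union of the family is `T` -/
def Cov (T : Fin n → Bool) (𝒜 : Finset (Fin n → Bool)) : Prop :=
  ∀ i, T i = true ↔ ∃ A ∈ 𝒜, A i = true

instance (T : Fin n → Bool) : DecidablePred (Cov T) := fun _ => by unfold Cov; infer_instance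

theorem pt_nonneg {z : ℝ} (h0 : 0 ≤ z) (h1 : z ≤ 1) (u t : Bool) : 0 ≤ pt z u t := by
  cases u <;> cases t <;> simp [pt, h0, h1]

theorem phi {J : Type} [Fintype J] [DecidableEq J] (q : ℝ) (T : Fin n → Bool)
    (S : Finset (Fin n → Bool)) :
    ∑ g : J → Fin n → Bool, W (W (bit q)) g * (if Cov T (S ∪ univ.image g) then 1 else 0) =
      ∏ i, pt (q ^ Fintype.card J) (decide (∃ A ∈ S, A i = true)) (T i) := by
  have hW : ∑ b : J → Bool, W (bit q) b = 1 := sum_W (bit_sum q)
  have e (g : J → Fin n → Bool) : (if Cov T (S ∪ univ.image g) then (1 : ℝ) else 0) =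
      ∏ i, if T i = (decide (∃ A ∈ S, A i = true) || or1 fun l => g l i) then 1 else 0 := by
    have h : Cov T (S ∪ univ.image g) ↔
        ∀ i, T i = (decide (∃ A ∈ S, A i = true) || or1 fun l => g l i) := by
      refine forall_congr' fun i => ?_
      rw [Bool.eq_iff_iff (a := T i) (b := _ || _)]
      simp [or_and_right, exists_or, or1]
    rw [prod_ite_zero, prod_const_one]
    simp only [h, mem_univ, forall_const]
  simp only [e]
  rw [col _ fun i b => if T i = (decide (∃ A ∈ S, A i = true) || or1 b) then (1 : ℝ) else 0]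
  refine prod_congr rfl fun i _ => ?_
  have z : ∑ b : J → Bool, W (bit q) b * (if or1 b = false then 1 else 0) =
      q ^ Fintype.card J := by
    rw [← wt_false, ← zero_off]
    simp [or1]
  generalize decide (∃ A ∈ S, A i = true) = u
  generalize T i = t
  cases u <;> cases t
  · simp only [pt, ← z, Bool.false_eq_true, if_false]
    refine sum_congr rfl fun b _ => ?_
    cases or1 b <;> simp
  · simp only [pt, ← z, Bool.false_eq_true, if_false, if_true]
    rw [← hW, ← sum_sub_distrib]
    refine sum_congr rfl fun b _ => ?_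
    cases or1 b <;> simp [hW]
  · simp [pt]
  · simp [pt, hW]

/-- good tuples for the target `T` -/
noncomputable def good (k : ℕ) (q β : ℝ) (T : Fin n → Bool) : Finset (Fin k → Fin n → Bool) :=
  univ.filter fun f => un f = T ∧ ∀ s : Fin k → Bool, (∃ j, s j = true) → (∃ j, s j = false) →
    ∏ i, pt (wt q s) (or1 fun j => s j && f j i) (T i) ≤ β * wt q s ^ n

theorem wt_ne (q : ℝ) (j : Fin k) : wt q (fun l => decide (l ≠ j)) = q := by
  rw [wt, prod_eq_single j (fun l _ h => by simp [h]) (by simp)]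
  simp

theorem good_cov {T : Fin n → Bool} {f} (h : f ∈ good k q β T) : Cov T (univ.image f) := by
  intro i
  rw [← (mem_filter.1 h).2.1]
  simp [un, or1]

theorem good_inj (h0 : 0 < q) (h1 : q < 1) (hβ : β < 1) {T : Fin n → Bool} {f}
    (h : f ∈ good k q β T) : Function.Injective f := by
  intro i j e
  by_contra c
  obtain ⟨a, b⟩ := (mem_filter.1 h).2
  have b1 := b (fun l => decide (l ≠ j)) ⟨i, by simpa using c⟩ ⟨j, by simp⟩
  rw [wt_ne] at b1
  have b2 : q ^ n ≤ ∏ x, pt q (or1 fun l => decide (l ≠ j) && f l x) (T x) := by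
    refine le_trans (by simp) (prod_le_prod (f := fun _ => q) (fun _ _ => h0.le) fun x _ => ?_)
    have : (or1 fun l => decide (l ≠ j) && f l x) = T x := by
      rw [← a]
      simp only [un, or1, decide_eq_decide, Bool.and_eq_true, decide_eq_true_eq]
      refine ⟨fun ⟨l, _, h⟩ => ⟨l, h⟩, fun ⟨l, h⟩ => ?_⟩
      by_cases d : l = j
      · exact ⟨i, c, by rw [e, ← d, h]⟩
      · exact ⟨l, d, h⟩
    rw [this]
    cases T x <;> simp [pt, h1.le]
  nlinarith [pow_pos h0 n]

theorem good_small (h0 : 0 < q) (h1 : q < 1) (hk : 2 ≤ k) {T : Fin n → Bool} {f}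
    (h : f ∈ good k q β T) (j : Fin k) : W (bit q) (f j) ≤ β * q ^ n := by
  obtain ⟨a, b⟩ := (mem_filter.1 h).2
  have : Nontrivial (Fin k) := Fin.nontrivial_iff_two_le.2 hk
  obtain ⟨i, hi⟩ := exists_ne j
  have b1 := b (fun l => decide (l ≠ j)) ⟨i, by simpa using hi⟩ ⟨j, by simp⟩
  rw [wt_ne] at b1
  refine le_trans (prod_le_prod (fun x _ => bit_nonneg h0.le h1.le _) fun x _ => ?_) b1
  have t : T x = true ↔ (or1 fun l => decide (l ≠ j) && f l x) = true ∨ f j x = true := by
    rw [← a]
    simp only [un, or1, Bool.and_eq_true, decide_eq_true_eq]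
    refine ⟨fun ⟨l, h⟩ => ?_, fun h => h.elim (fun ⟨l, _, h⟩ => ⟨l, h⟩) fun h => ⟨j, h⟩⟩
    by_cases d : l = j
    · exact Or.inr (d ▸ h)
    · exact Or.inl ⟨l, d, h⟩
  revert t
  cases T x <;> cases (or1 fun l => decide (l ≠ j) && f l x) <;> cases f j x <;>
    simp [pt, bit, h0.le, h1.le]

theorem good_res (h0 : 0 < q) (h1 : q < 1) (hβ : β < 1) {T : Fin n → Bool} {f}
    (h : f ∈ good k q β T) (S : Finset (Fin n → Bool)) (s0 : S ⊆ univ.image f) (s1 : S.Nonempty)
    (s2 : S ≠ univ.image f) :
    ∑ g : Fin (k - S.card) → Fin n → Bool, W (W (bit q)) g *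
      (if Cov T (S ∪ univ.image g) then 1 else 0) ≤ β * (q ^ n) ^ (k - S.card) := by
  have hi := good_inj h0 h1 hβ h
  have b := (mem_filter.1 h).2.2 (fun j => decide (f j ∈ S)) (by
    obtain ⟨A, hA⟩ := s1
    obtain ⟨j, -, rfl⟩ := mem_image.1 (s0 hA)
    exact ⟨j, by simpa using hA⟩) (by
    by_contra c
    refine s2 (Subset.antisymm s0 fun A hA => ?_)
    obtain ⟨j, -, rfl⟩ := mem_image.1 hA
    by_contra d
    exact c ⟨j, by simpa using d⟩)
  have c1 : (univ.filter fun j => f j ∈ S).card = S.card := by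
    rw [← card_image_of_injective _ hi]
    congr 1
    ext A
    simp only [mem_image, mem_filter, mem_univ, true_and]
    refine ⟨fun ⟨j, a, e⟩ => e ▸ a, fun a => ?_⟩
    obtain ⟨j, -, rfl⟩ := mem_image.1 (s0 a)
    exact ⟨j, a, rfl⟩
  have c2 : wt q (fun j => decide (f j ∈ S)) = q ^ (k - S.card) := by
    have := card_filter_add_card_filter_not (s := (univ : Finset (Fin k))) fun j => f j ∈ S
    rw [card_univ, Fintype.card_fin, c1] at this
    simp only [wt, decide_eq_true_eq]
    rw [prod_ite, prod_const_one, one_mul, prod_const]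
    congr 1
    omega
  rw [c2] at b
  rw [phi, Fintype.card_fin, ← pow_mul, mul_comm n, pow_mul]
  refine le_trans (le_of_eq (prod_congr rfl fun i _ => ?_)) b
  congr 1
  simp only [or1, decide_eq_decide, Bool.and_eq_true, decide_eq_true_eq]
  refine ⟨fun ⟨A, a, e⟩ => ?_, fun ⟨j, a, e⟩ => ⟨_, a, e⟩⟩
  obtain ⟨j, -, rfl⟩ := mem_image.1 (s0 a)
  exact ⟨j, a, e⟩

theorem gap {z d : ℝ} (d0 : 0 ≤ d) (d1 : d ≤ 1 / 8) (z0 : d ≤ z) (z1 : 2 * d ≤ 1 - z) :
    (1 - z) * √(1 + z) + z * √z ≤ 1 - d / 8 := by
  have h0 : 0 ≤ z := d0.trans z0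
  have h1 : z ≤ 1 := by linarith
  have v : √(1 + z) ≤ 1 + z / 2 - z ^ 2 / 12 := by
    refine Real.sqrt_le_iff.2 ⟨by nlinarith, ?_⟩
    nlinarith [mul_nonneg (sq_nonneg z) (sub_nonneg.2 h1), sq_nonneg (z ^ 2)]
  have v' := mul_le_mul_of_nonneg_left v (sub_nonneg.2 h1)
  rcases le_total z (1 / 4) with c | c
  · have w : √z ≤ 1 / 4 + z := Real.sqrt_le_iff.2 ⟨by linarith, by nlinarith [sq_nonneg (z - 1 / 4)]⟩
    have w' := mul_le_mul_of_nonneg_left w h0
    nlinarith [mul_nonneg h0 (sub_nonneg.2 c), mul_nonneg (sq_nonneg z) (sub_nonneg.2 c)]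
  · have w : √z ≤ (1 + z) / 2 - (1 - z) ^ 2 / 8 := by
      refine Real.sqrt_le_iff.2 ⟨by nlinarith, ?_⟩
      nlinarith [mul_nonneg (sq_nonneg (1 - z)) (sub_nonneg.2 h1), sq_nonneg ((1 - z) ^ 2)]
    have w' := mul_le_mul_of_nonneg_left w h0
    have p : 3 / 2 * d ≤ z * (1 - z) := by
      nlinarith [mul_nonneg (sub_nonneg.2 c) (sub_nonneg.2 z1)]
    nlinarith [mul_nonneg h0 (sq_nonneg (1 - z))]

theorem col_true {J : Type} [Fintype J] [DecidableEq J] (h0 : 7 / 8 ≤ q) (h1 : q < 1)
    (hq : q ^ Fintype.card J = 1 / 2) (s : J → Bool)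
    (s1 : ∃ j, s j = true) (s2 : ∃ j, s j = false) :
    ∑ a : J → Bool, W (bit q) a * ((if or1 a = true then 1 else 0) *
      √(pt (wt q s) (or1 fun j => s j && a j) true / wt q s)) ≤ 1 / 2 * (1 - (1 - q) / 8) := by
  have q0 : 0 < q := by linarith
  have hW : ∑ b : J → Bool, W (bit q) b = 1 := sum_W (bit_sum q)
  have le (s : J → Bool) (s2 : ∃ j, s j = false) : wt q s ≤ q := by
    obtain ⟨j, hj⟩ := s2
    refine le_trans (prod_le_prod (g := fun l => if l = j then q else 1)
      (fun l _ => by split_ifs <;> simp [q0.le]) fun l _ => ?_) (by simp)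
    by_cases c : l = j
    · simp [c, hj]
    · cases s l <;> simp [c, h1.le]
  have z0 : 0 < wt q s := prod_pos fun j _ => by split_ifs <;> simp [q0]
  have e1 := zero_off q fun j => !s j
  have e2 := zero_off q fun _ : J => false
  have e3 := wt_not q s
  rw [wt_false, hq] at e2
  rw [hq] at e3
  have l1 := le s s2
  have l2 := le (fun j => !s j) (by simpa using s1)
  set y := 1 / wt q s with hy
  have y1 : wt q (fun j => !s j) = y / 2 := by
    rw [hy]
    field_simp
    linarith
  have y2 : (1 - wt q s) / wt q s = y - 1 := by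
    rw [hy]
    field_simp
  have y3 : 2 - q ≤ y := by
    rw [hy, le_div_iff₀ z0]
    nlinarith [sq_nonneg (1 - q)]
  have e (a : J → Bool) : W (bit q) a * ((if or1 a = true then 1 else 0) *
      √(pt (wt q s) (or1 fun j => s j && a j) true / wt q s)) = W (bit q) a * √y +
      (W (bit q) a * if ∀ j, (!s j) = false → a j = false then 1 else 0) * (√(y - 1) - √y) -
      (W (bit q) a * if ∀ j, false = false → a j = false then 1 else 0) * √(y - 1) := by
    by_cases c : ∀ j, (!s j) = false → a j = false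
    · have u : (or1 fun j => s j && a j) = false := by simpa [or1] using c
      rw [u, if_pos c]
      by_cases c' : ∀ j, false = false → a j = false
      · rw [if_pos c', if_neg (by simpa [or1] using c')]
        ring
      · rw [if_neg c', if_pos (by simpa [or1] using c')]
        simp only [pt, Bool.false_eq_true, if_false, if_true, y2]
        ring
    · have u : (or1 fun j => s j && a j) = true := by simpa [or1] using c
      obtain ⟨j, hj⟩ : ∃ j, a j = true := by
        obtain ⟨j, hj⟩ := not_forall.1 c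
        exact ⟨j, by simp_all⟩
      rw [u, if_neg c, if_pos (by simpa [or1] using ⟨j, hj⟩),
        if_neg fun h => by simpa [hj] using h j rfl]
      simp only [pt, if_true, ← hy]
      ring
  rw [sum_congr rfl fun a _ => e a, sum_sub_distrib, sum_add_distrib, ← sum_mul, ← sum_mul,
    ← sum_mul, e1, e2, hW, y1]
  have g := gap (z := y - 1) (d := 1 - q) (by linarith) (by linarith) (by linarith) (by linarith)
  rw [add_sub_cancel] at g
  linarith

theorem col_false {J : Type} [Fintype J] [DecidableEq J] (q0 : 0 < q)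
    (hq : q ^ Fintype.card J = 1 / 2) (s : J → Bool) :
    ∑ a : J → Bool, W (bit q) a * ((if or1 a = false then 1 else 0) *
      √(pt (wt q s) (or1 fun j => s j && a j) false / wt q s)) = 1 / 2 := by
  have z0 : 0 < wt q s := prod_pos fun j _ => by split_ifs <;> simp [q0]
  have z := zero_off q fun _ : J => false
  rw [wt_false, hq] at z
  rw [← z]
  refine sum_congr rfl fun a _ => ?_
  by_cases d : ∀ j, false = false → a j = false
  · have u : (or1 fun j => s j && a j) = false := by
      rw [or1, decide_eq_false_iff_not, not_exists]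
      intro j
      simp [d j rfl]
    rw [u, if_pos d, if_pos (by simpa [or1] using d)]
    simp [pt, z0.ne']
  · rw [if_neg d, if_neg (by simpa [or1] using d)]
    simp

theorem good_mass (h0 : 7 / 8 ≤ q) (h1 : q < 1) (hq : q ^ k = 1 / 2) (hβ : 0 < β)
    (T : Fin n → Bool) : (1 / 2) ^ n * (1 - 2 ^ k *
      ((1 - (1 - q) / 8) ^ (univ.filter fun i => T i = true).card / √β)) ≤
      ∑ f ∈ good k q β T, W (W (bit q)) f := by
  have q0 : 0 < q := by linarith
  have w0 (f : Fin k → Fin n → Bool) := W_nonneg (W_nonneg (bit_nonneg q0.le h1.le)) f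
  set r := (1 - (1 - q) / 8) ^ (univ.filter fun i => T i = true).card / √β with hr
  have r0 : 0 ≤ r := div_nonneg (pow_nonneg (by linarith) _) (Real.sqrt_nonneg _)
  set bad : (Fin k → Bool) → (Fin k → Fin n → Bool) → ℝ := fun s f =>
    if un f = T ∧ ((∃ j, s j = true) ∧ ∃ j, s j = false) ∧
      β * wt q s ^ n < ∏ i, pt (wt q s) (or1 fun j => s j && f j i) (T i) then 1 else 0 with hb
  have b0 (s f) : 0 ≤ bad s f := by
    simp only [hb]
    split_ifs <;> simp
  have s1 (s : Fin k → Bool) : ∑ f, W (W (bit q)) f * bad s f ≤ (1 / 2) ^ n * r := by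
    by_cases c : (∃ j, s j = true) ∧ ∃ j, s j = false
    swap
    · simp only [hb, c, false_and, and_false, if_false, mul_zero, sum_const_zero]
      positivity
    have z0 : 0 < wt q s := prod_pos fun j _ => by split_ifs <;> simp [q0]
    have z1 : wt q s ≤ 1 := prod_le_one (fun j _ => by split_ifs <;> simp [q0.le])
      fun j _ => by split_ifs <;> simp [h1.le]
    have e := col (n := n) (bit q) fun i a => (if or1 a = T i then 1 else 0) *
      √(pt (wt q s) (or1 fun j => s j && a j) (T i) / wt q s)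
    have e2 : ∏ i, ∑ a : Fin k → Bool, W (bit q) a * ((if or1 a = T i then 1 else 0) *
        √(pt (wt q s) (or1 fun j => s j && a j) (T i) / wt q s)) ≤
        ∏ i, 1 / 2 * if T i = true then 1 - (1 - q) / 8 else 1 := by
      refine prod_le_prod (fun i _ => sum_nonneg fun a _ => mul_nonneg
        (W_nonneg (bit_nonneg q0.le h1.le) a) (by split_ifs <;> simp)) fun i _ => ?_
      cases T i
      · rw [col_false q0 (by simpa using hq)]
        simp
      · exact col_true h0 h1 (by simpa using hq) s c.1 c.2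
    rw [prod_mul_distrib, prod_const, card_univ, Fintype.card_fin, prod_ite, prod_const_one,
      mul_one, prod_const, ← e] at e2
    rw [hr, ← mul_div_assoc]
    refine le_trans ?_ (div_le_div_of_nonneg_right e2 (Real.sqrt_nonneg _))
    rw [sum_div]
    refine sum_le_sum fun f _ => ?_
    rw [mul_div_assoc]
    refine mul_le_mul_of_nonneg_left ?_ (w0 f)
    simp only [hb]
    split_ifs with d
    · have u (i : Fin n) : (or1 fun j => f j i) = T i := congrFun d.1 i
      simp only [u, if_true, one_mul]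
      rw [one_le_div (Real.sqrt_pos.2 hβ), ← Real.sqrt_prod _ fun i _ => div_nonneg (pt_nonneg z0.le z1 _ _) z0.le]
      refine Real.sqrt_le_sqrt ?_
      rw [prod_div_distrib, prod_const, card_univ, Fintype.card_fin, le_div_iff₀ (by positivity)]
      exact d.2.2.le
    · exact div_nonneg (prod_nonneg fun i _ => by split_ifs <;> simp) (Real.sqrt_nonneg _)
  have s2 : ∑ s, ∑ f, W (W (bit q)) f * bad s f ≤ 2 ^ k * ((1 / 2) ^ n * r) := by
    simpa using sum_le_card_nsmul univ _ _ fun s _ => s1 s
  have s3 := un_unif (J := Fin k) (by simpa using hq) T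
  have s4 : ∑ f : Fin k → Fin n → Bool, W (W (bit q)) f * (if un f = T then 1 else 0) ≤
      ∑ f ∈ good k q β T, W (W (bit q)) f + ∑ s, ∑ f, W (W (bit q)) f * bad s f := by
    rw [sum_comm, good, sum_filter, ← sum_add_distrib]
    refine sum_le_sum fun f _ => ?_
    have p := sum_nonneg fun s (_ : s ∈ univ) => mul_nonneg (w0 f) (b0 s f)
    by_cases c : un f = T
    · rw [if_pos c, mul_one]
      split_ifs with d
      · linarith
      · push Not at d
        obtain ⟨s, d1, d2, d3⟩ := d c
        have := single_le_sum (fun s _ => mul_nonneg (w0 f) (b0 s f)) (mem_univ s)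
        simp only [hb] at this ⊢
        rw [if_pos ⟨c, ⟨d1, d2⟩, d3⟩] at this
        linarith
    · rw [if_neg c, if_neg fun d => c d.1]
      linarith
  linarith

end Pool.Agent.Lib.MP_a893c7_co.KB
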