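import Mathlib

open Finset

namespace Pool.Agent.Lib.MP_a893c7_co.KB

/-- weight of the trace of `T` on an interval -/
noncomputable def om (a b : ℕ) (T : Finset ℕ) : ℝ := ∏ x ∈ Ico a b, if x ∈ T then 1 / 3 else 2 / 3

/-- subsets of intervals with weight at least `w` -/
noncomputable def ivl (n : ℕ) (w : ℝ) : Finset (Finset ℕ) :=
  (range (n + 1) ×ˢ range (n + 1)).biUnion fun p =>
    (Ico p.1 p.2).powerset.filter fun A => w ≤ om p.1 p.2 A

theorem om_pos (a b : ℕ) (T : Finset ℕ) : 0 < om a b T :=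
  prod_pos fun x _ => by split_ifs <;> norm_num

theorem om_sum (a b : ℕ) : ∑ A ∈ (Ico a b).powerset, om a b A = 1 := by
  have h := prod_add (fun _ => (1 / 3 : ℝ)) (fun _ => 2 / 3) (Ico a b)
  rw [prod_eq_one fun _ _ => by norm_num] at h
  rw [h]
  refine sum_congr rfl fun A hA => ?_
  rw [om, prod_ite, filter_mem_eq_inter, inter_eq_right.2 (mem_powerset.1 hA), sdiff_eq_filter]

theorem ivl_card (n : ℕ) {w : ℝ} (hw : 0 < w) : ((ivl n w).card : ℝ) ≤ (n + 1) ^ 2 / w := by
  have h (a b : ℕ) : (((Ico a b).powerset.filter fun A => w ≤ om a b A).card : ℝ) ≤ 1 / w := by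
    rw [le_div_iff₀ hw, ← om_sum a b, ← nsmul_eq_mul]
    exact (card_nsmul_le_sum _ _ _ fun A hA => (mem_filter.1 hA).2).trans
      (sum_le_sum_of_subset_of_nonneg (filter_subset _ _) fun A _ _ => (om_pos a b A).le)
  have h2 : ((ivl n w).card : ℝ) ≤ _ := Nat.cast_le.2 card_biUnion_le
  rw [Nat.cast_sum] at h2
  refine h2.trans ((sum_le_card_nsmul _ _ _ fun p _ => h p.1 p.2).trans (le_of_eq ?_))
  simp only [card_product, card_range, nsmul_eq_mul]
  push_cast
  ring

theorem mem_ivl {n a b : ℕ} {w : ℝ} {T : Finset ℕ} (ha : a ≤ n) (hb : b ≤ n) (h : w ≤ om a b T) :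
    T ∩ Ico a b ∈ ivl n w := by
  refine mem_biUnion.2 ⟨(a, b), by simp [ha, hb], mem_filter.2
    ⟨mem_powerset.2 inter_subset_right, h.trans (le_of_eq (prod_congr rfl fun x hx => ?_))⟩⟩
  simp only [mem_inter, hx, and_true]

theorem greedy {n : ℕ} {w : ℝ} (h0 : 0 < w) (h1 : w ≤ 1) (T : Finset ℕ) (j : ℕ) :
    ∀ a ≤ n, (3 * w) ^ (j + 1) ≤ om a n T →
      ∃ f : ℕ → Finset ℕ, (∀ i < j + 1, f i ∈ ivl n w) ∧
        T ∩ Ico a n = (range (j + 1)).biUnion f := by
  have triv (j a : ℕ) (ha : a ≤ n) (c : w ≤ om a n T) : ∃ f : ℕ → Finset ℕ,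
      (∀ i < j + 1, f i ∈ ivl n w) ∧ T ∩ Ico a n = (range (j + 1)).biUnion f :=
    ⟨fun _ => T ∩ Ico a n, fun _ _ => mem_ivl ha le_rfl c, by
      ext x
      simp only [mem_biUnion, mem_range]
      exact ⟨fun h => ⟨0, by omega, h⟩, fun ⟨_, _, h⟩ => h⟩⟩
  induction j with
  | zero => exact fun a ha h => triv 0 a ha (by rw [zero_add, pow_one] at h; linarith)
  | succ j ih =>
    intro a ha h
    by_cases c : w ≤ om a n T
    · exact triv _ a ha c
    have ex : ∃ b, om a b T < w := ⟨n, not_le.1 c⟩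
    have b1 := Nat.find_spec ex
    have b2 : Nat.find ex ≤ n := Nat.find_min' ex (not_le.1 c)
    have b3 : a < Nat.find ex := by
      by_contra d
      rw [om, Ico_eq_empty d, prod_empty] at b1
      linarith
    obtain ⟨b, hb⟩ : ∃ b, Nat.find ex = b + 1 := ⟨Nat.find ex - 1, by omega⟩
    have b4 : w ≤ om a b T := not_lt.1 (Nat.find_min ex (by omega))
    have b5 : om a b T < 3 * w := by
      rw [hb, om, prod_Ico_succ_top (by omega)] at b1
      have := om_pos a b T
      unfold om at this ⊢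
      split_ifs at b1 <;> linarith
    have b6 : om a n T = om a b T * om b n T := (prod_Ico_consecutive _ (by omega) (by omega)).symm
    obtain ⟨f, f1, f2⟩ := ih b (by omega) (by
      rw [pow_succ', b6] at h
      exact le_of_mul_le_mul_left (h.trans (mul_le_mul_of_nonneg_right b5.le (om_pos _ _ _).le))
        (by linarith))
    refine ⟨fun i => if i < j + 1 then f i else T ∩ Ico a b, fun i _ => ?_, ?_⟩
    · by_cases d : i < j + 1
      · simp only [if_pos d, f1 i d]
      · simp only [if_neg d, mem_ivl ha (by omega) b4]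
    · rw [range_add_one, biUnion_insert, if_neg (lt_irrefl _),
        biUnion_congr rfl (t₂ := f) fun i hi => if_pos (mem_range.1 hi), ← f2,
        ← inter_union_distrib_left, Ico_union_Ico_eq_Ico (by omega) (by omega)]

theorem om_ge {n : ℕ} {T : Finset ℕ} (hT : T ⊆ range n) (h : 3 * T.card ≤ n) :
    (4 / 27) ^ n ≤ om 0 n T ^ 3 := by
  have c := card_le_card hT
  rw [card_range] at c
  obtain ⟨u, rfl⟩ := Nat.exists_eq_add_of_le c
  rw [om, prod_ite, filter_mem_eq_inter, ← sdiff_eq_filter, ← range_eq_Ico, inter_eq_right.2 hT,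
    prod_const, prod_const, card_sdiff_of_subset hT, card_range, Nat.add_sub_cancel_left]
  obtain ⟨v, rfl⟩ : ∃ v, u = 2 * T.card + v := ⟨u - 2 * T.card, by omega⟩
  have e : ((1 / 3 : ℝ) ^ T.card * (2 / 3) ^ (2 * T.card + v)) ^ 3 =
      (4 / 27) ^ (T.card + 2 * T.card) * (8 / 27) ^ v := by
    rw [pow_add, pow_mul, ← mul_assoc, ← mul_pow, mul_pow _ _ 3, ← pow_mul, ← pow_mul,
      mul_comm v, pow_mul _ 3]
    norm_num
    ring_nf
  rw [e, ← add_assoc, pow_add _ _ v]
  gcongr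
  norm_num

end Pool.Agent.Lib.MP_a893c7_co.KB
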