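import Pool.Agent.Lib.MP_a893c7_co.KB6
import Pool.Agent.Lib.MP_a893c7_co.KC3
import Pool.Agent.Lib.MP_a893c7_co.KC4

open Finset

namespace Pool.Agent.Lib.MP_a893c7_co.KB

theorem ex_le {X : Type} [Fintype X] {w v : X → ℝ} {c : ℝ} (h0 : ∀ x, 0 ≤ w x) (h1 : ∑ x, w x = 1)
    (h : ∑ x, w x * v x ≤ c) : ∃ x, v x ≤ c := by
  by_contra con
  simp only [not_exists, not_le] at con
  obtain ⟨x, -, hx⟩ := exists_ne_zero_of_sum_ne_zero (h1 ▸ one_ne_zero : ∑ x, w x ≠ 0)
  have s : ∑ x, w x * c < _ := sum_lt_sum (fun x _ => mul_le_mul_of_nonneg_left (con x).le (h0 x))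
    ⟨x, mem_univ x, mul_lt_mul_of_pos_left (con x) (lt_of_le_of_ne (h0 x) hx.symm)⟩
  rw [← sum_mul, h1, one_mul] at s
  exact absurd h (not_le.2 s)

theorem num1 {k : ℕ} {u : ℝ} (hk : 11 ≤ k) (hu : 100 * k ≤ u) :
    500 * 24 ^ k * (k * u) ≤ Real.exp (0.054 * u) := by
  have k0 : (11 : ℝ) ≤ k := by exact_mod_cast hk
  have a : (24 : ℝ) ≤ Real.exp 3.2 := by
    have e : Real.exp 3.2 = Real.exp 1 ^ 3 * Real.exp 0.2 := by
      rw [← Real.exp_nat_mul, ← Real.exp_add]; norm_num
    have e1 : (2.7182818283 : ℝ) ^ 3 ≤ Real.exp 1 ^ 3 :=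
      pow_le_pow_left₀ (by norm_num) Real.exp_one_gt_d9.le 3
    have e2 := Real.add_one_le_exp 0.2
    rw [e]
    nlinarith
  have b : (24 : ℝ) ^ k ≤ Real.exp (0.032 * u) := by
    refine (pow_le_pow_left₀ (by norm_num) a k).trans ?_
    rw [← Real.exp_nat_mul]
    exact Real.exp_le_exp.2 (by linarith)
  have c := Real.pow_div_factorial_le_exp (0.022 * u) (by linarith) 10
  have d : (24.2 : ℝ) ^ 8 ≤ (0.022 * u) ^ 8 := pow_le_pow_left₀ (by norm_num) (by linarith) 8
  have e : 500 * (k * u) ≤ Real.exp (0.022 * u) := by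
    refine le_trans ?_ c
    rw [show (0.022 * u) ^ 10 = (0.022 * u) ^ 8 * (0.022 ^ 2 * u ^ 2) by ring]
    have f := mul_le_mul_of_nonneg_right d (show 0 ≤ (0.022 : ℝ) ^ 2 * u ^ 2 by positivity)
    norm_num [Nat.factorial] at f ⊢
    nlinarith
  rw [show 0.054 * u = 0.032 * u + 0.022 * u by ring, Real.exp_add, mul_comm 500, mul_assoc]
  exact mul_le_mul b e (by nlinarith) (by positivity)

theorem num2 {k : ℕ} {u : ℝ} (hk : 11 ≤ k) (hu : 100 * k ≤ u) :
    180 * (k * u + 1) ^ 2 ≤ Real.exp (0.05 * u) := by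
  have k0 : (11 : ℝ) ≤ k := by exact_mod_cast hk
  have c := Real.pow_div_factorial_le_exp (0.05 * u) (by linarith) 12
  have d : (55 : ℝ) ^ 8 ≤ (0.05 * u) ^ 8 := pow_le_pow_left₀ (by norm_num) (by linarith) 8
  have e : (k * u + 1) ^ 2 ≤ (u ^ 2 / 50) ^ 2 :=
    pow_le_pow_left₀ (by nlinarith) (by nlinarith) 2
  refine le_trans ?_ c
  rw [show (0.05 * u) ^ 12 = (0.05 * u) ^ 8 * (0.05 ^ 4 * u ^ 4) by ring]
  have f := mul_le_mul_of_nonneg_right d (show 0 ≤ (0.05 : ℝ) ^ 4 * u ^ 4 by positivity)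
  norm_num [Nat.factorial] at f ⊢
  nlinarith [pow_nonneg (show 0 ≤ u by linarith) 4]

theorem exists_q {k : ℕ} (hk : 11 ≤ k) :
    ∃ q : ℝ, 7 / 8 ≤ q ∧ 0.65 / k ≤ 1 - q ∧ q ^ k = 1 / 2 := by
  have k0 : (11 : ℝ) ≤ k := by exact_mod_cast hk
  obtain ⟨q, h0, hq⟩ : ∃ q : ℝ, 0 < q ∧ q ^ k = 1 / 2 :=
    ⟨(1 / 2) ^ (k : ℝ)⁻¹, by positivity, Real.rpow_inv_natCast_pow (by norm_num) (by omega)⟩
  refine ⟨q, le_of_pow_le_pow_left₀ (n := k) (by omega) h0.le ?_, ?_, hq⟩
  · rw [hq]
    exact (pow_le_pow_of_le_one (by norm_num) (by norm_num) hk).trans (by norm_num)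
  · have a : (1 + 0.693 / k) * q ≤ 1 := by
      refine le_of_pow_le_pow_left₀ (n := k) (by omega) zero_le_one ?_
      have b : (1 + 0.693 / k : ℝ) ^ k ≤ 2 := by
        refine (pow_le_pow_left₀ (by positivity) ((add_comm _ _).trans_le
          (Real.add_one_le_exp _)) k).trans ?_
        rw [← Real.exp_nat_mul, mul_div_cancel₀ _ (by linarith), ← Real.exp_log two_pos]
        exact Real.exp_le_exp.2 (by linarith [Real.log_two_gt_d9])
      rw [mul_pow, hq, one_pow]
      linarith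
    have k1 : (0 : ℝ) < k := by linarith
    have a' : (k + 0.693) * q ≤ k := by
      have := mul_le_mul_of_nonneg_left a k1.le
      rwa [← mul_assoc, mul_add, mul_div_cancel₀ _ k1.ne', mul_one] at this
    rw [div_le_iff₀ k1]
    by_contra c
    have c1 : k * (k - 0.65) < k * (k * q) := mul_lt_mul_of_pos_left (by linarith) k1
    nlinarith

theorem down {k : ℕ} {c : ℝ} (h : k ≤ 3 * c) (i : ℕ) :
    ∀ j, j + i = k → c ^ j / j.factorial ≤ 3 ^ i * (c ^ k / k.factorial) := by
  have c0 : 0 ≤ c := by linarith [Nat.cast_nonneg (α := ℝ) k]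
  induction i with
  | zero => rintro j rfl; simp
  | succ i ih =>
    intro j hj
    have a := ih (j + 1) (by omega)
    have b : ((j + 1 : ℕ) : ℝ) ≤ k := by exact_mod_cast (by omega : j + 1 ≤ k)
    have f : (0 : ℝ) < j.factorial := by exact_mod_cast j.factorial_pos
    have d : c ^ j / j.factorial ≤ 3 * (c ^ (j + 1) / (j + 1).factorial) := by
      rw [Nat.factorial_succ, Nat.cast_mul, ← mul_div_assoc, div_le_div_iff₀ f (by positivity),
        pow_succ]
      nlinarith [mul_nonneg (mul_nonneg (pow_nonneg c0 j) f.le) (sub_nonneg.2 (b.trans h))]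
    rw [pow_succ' (3 : ℝ), mul_assoc]
    linarith

theorem toS_dec {n : ℕ} {T : Finset ℕ} (hT : T ⊆ range n) :
    toS (fun i : Fin n => decide (i.val ∈ T)) = T := by
  ext x
  simp only [mem_toS, decide_eq_true_eq, exists_prop]
  exact ⟨fun h => h.2, fun h => ⟨mem_range.1 (hT h), h⟩⟩

/-- from the random family, the missed sets and the interval family to a base -/
theorem assemble {k n : ℕ} (hk : 0 < k) {q β w : ℝ} (R : (Fin n → Bool) → Bool) (w0 : 0 < w)
    (hw : ((3 * w) ^ k) ^ 3 ≤ (4 / 27) ^ n) :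
    Base k n ((univ.filter fun A => R A = true).image toS ∪
      (univ.filter fun T : Fin n → Bool => n ≤ 3 * (univ.filter fun i => T i = true).card ∧
        nb ((good k q β T).image fun f => univ.image f) R = 1).image toS ∪ ivl n w) := by
  intro T hT
  obtain ⟨j, rfl⟩ : ∃ j, k = j + 1 := ⟨k - 1, by omega⟩
  by_cases c : 3 * T.card ≤ n
  · have w1 : 3 * w ≤ 1 := by
      rw [← pow_mul] at hw
      exact (pow_le_one_iff_of_nonneg (by linarith) (by omega)).1
        (hw.trans (pow_le_one₀ (by norm_num) (by norm_num)))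
    obtain ⟨f, f1, f2⟩ := greedy w0 (by linarith) T j 0 (Nat.zero_le n)
      (le_of_pow_le_pow_left₀ three_ne_zero (om_pos _ _ _).le (hw.trans (om_ge hT c)))
    rw [← range_eq_Ico, inter_eq_left.2 hT] at f2
    exact ⟨f, fun i hi => mem_union_right _ (f1 i hi), f2⟩
  set T' : Fin n → Bool := fun i => decide (i.val ∈ T) with hT'
  have e : toS T' = T := toS_dec hT
  by_cases d : ∃ A ∈ (good (j + 1) q β T').image fun f => univ.image f, ∀ a ∈ A, R a = true
  · obtain ⟨A, a1, a2⟩ := d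
    obtain ⟨f, hf, rfl⟩ := mem_image.1 a1
    have hx (i : Fin n) : (∃ l, f l i = true) ↔ i.val ∈ T := by
      simpa [un, or1, hT'] using congrFun (mem_filter.1 hf).2.1 i
    refine ⟨fun l => if h : l < j + 1 then toS (f ⟨l, h⟩) else ∅, fun l h => ?_, ?_⟩
    · simp only [dif_pos h]
      exact mem_union_left _ (mem_union_left _ (mem_image_of_mem _ (mem_filter.2
        ⟨mem_univ _, a2 _ (mem_image_of_mem _ (mem_univ _))⟩)))
    · ext x
      simp only [mem_biUnion, mem_range]
      refine ⟨fun h => ?_, fun ⟨l, hl, h⟩ => ?_⟩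
      · obtain ⟨l, hl⟩ := (hx ⟨x, mem_range.1 (hT h)⟩).2 h
        exact ⟨l, l.2, by rw [dif_pos l.2]; exact mem_toS.2 ⟨_, hl⟩⟩
      · rw [dif_pos hl] at h
        obtain ⟨a, b⟩ := mem_toS.1 h
        exact (hx ⟨x, a⟩).1 ⟨_, b⟩
  · refine ⟨fun _ => T, fun _ _ => mem_union_left _ (mem_union_right _ (mem_image.2
      ⟨T', mem_filter.2 ⟨mem_univ _, ?_, if_neg d⟩, e⟩)), ?_⟩
    · have : (univ.filter fun i => T' i = true).card = T.card := by
        rw [← e, toS, card_map]
      omega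
    · ext x
      simp only [mem_biUnion, mem_range]
      exact ⟨fun h => ⟨0, by omega, h⟩, fun ⟨_, _, h⟩ => h⟩

theorem count {k n : ℕ} (hk : 11 ≤ k) (hn : 100 * k ^ 2 ≤ n) :
    ∃ B, Base k n B ∧ B.card ^ k ≤ k.factorial * n * 2 ^ n := by
  have k0 : (11 : ℝ) ≤ k := by exact_mod_cast hk
  have k1 : (0 : ℝ) < k := by linarith
  have n0 : (100 : ℝ) * k ^ 2 ≤ n := by exact_mod_cast hn
  have n1 : (12100 : ℝ) ≤ n := by nlinarith
  have f0 : (0 : ℝ) < k.factorial := by exact_mod_cast k.factorial_pos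
  obtain ⟨q, q0, q1, hq⟩ := exists_q hk
  have q2 : q < 1 := by linarith [show (0 : ℝ) < 0.65 / k by positivity]
  have q3 : 0 < q := by linarith
  obtain ⟨u, hu⟩ : ∃ u : ℝ, n = k * u := ⟨n / k, by field_simp⟩
  have u0 : 100 * k ≤ u := le_of_mul_le_mul_left (by nlinarith) k1
  obtain ⟨X, X0, hX⟩ : ∃ X : ℝ, 0 < X ∧ X ^ k = k.factorial * n * 2 ^ n :=
    ⟨(k.factorial * n * 2 ^ n) ^ (k : ℝ)⁻¹, by positivity,
      Real.rpow_inv_natCast_pow (by positivity) (by omega)⟩
  set κ := q ^ n with hκ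
  have κ0 : 0 < κ := by positivity
  have κ1 : κ ^ k = (1 / 2) ^ n := by rw [hκ, ← pow_mul, mul_comm, pow_mul, hq]
  have κ2 : (2 : ℝ) ^ n * (1 / 2) ^ n = 1 := by rw [← mul_pow]; norm_num
  set θ : ℝ := 1 - 1 / (10 * k) with hθ
  have θ0 : 1 / (10 * (k : ℝ)) ≤ 1 := by rw [div_le_one (by positivity)]; linarith
  have θ1 : 9 / 10 ≤ θ ^ k := by
    have := one_add_mul_le_pow (a := -(1 / (10 * (k : ℝ)))) (by linarith) k
    rw [← sub_eq_add_neg, ← hθ] at this
    have e : (k : ℝ) * -(1 / (10 * k)) = -(1 / 10) := by field_simp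
    linarith
  have θ2 : θ ^ k ≤ 1 := pow_le_one₀ (by linarith) (by
    linarith [show 0 ≤ 1 / (10 * (k : ℝ)) by positivity])
  set M := θ * X with hM
  have M0 : 0 ≤ M := mul_nonneg (by linarith) X0.le
  have l0 : M ^ k / k.factorial * (1 / 2) ^ n = θ ^ k * n := by
    rw [hM, mul_pow, hX]
    calc _ = θ ^ k * n * (2 ^ n * (1 / 2) ^ n) := by field_simp
      _ = _ := by rw [κ2, mul_one]
  have l1 : (M * κ) ^ k / k.factorial = θ ^ k * n := by rw [← l0, mul_pow, κ1]; ring
  have c0 : (k : ℝ) ≤ 3 * (M * κ) := by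
    refine le_of_pow_le_pow_left₀ (n := k) (by omega) (by positivity) ?_
    have a := Real.pow_div_factorial_le_exp (k : ℝ) k1.le k
    have b : Real.exp k ≤ 3 ^ k := by
      rw [← mul_one (k : ℝ), Real.exp_nat_mul]
      exact pow_le_pow_left₀ (Real.exp_pos _).le (by linarith [Real.exp_one_lt_d9]) k
    rw [div_eq_iff f0.ne'] at l1
    rw [div_le_iff₀ f0] at a
    rw [mul_pow, l1]
    refine a.trans (mul_le_mul b ?_ f0.le (by positivity))
    exact le_mul_of_one_le_left f0.le (by nlinarith)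
  have hG (j : ℕ) (hj : j ≤ k) : (M * κ) ^ j / j.factorial ≤ 3 ^ k * n := by
    refine (down c0 (k - j) j (by omega)).trans (mul_le_mul (pow_le_pow_right₀ (by norm_num)
      (by omega)) (by rw [l1]; nlinarith) (by positivity) (by positivity))
  set β : ℝ := 1 / (5 * 2 ^ k * (3 ^ k * n)) with hβ
  have β0 : 0 < β := by positivity
  have β1 : β * 2 ^ k * (3 ^ k * n) ≤ 1 / 5 := by rw [hβ]; field_simp; rfl
  have p2 : (1 : ℝ) ≤ 2 ^ k := one_le_pow₀ one_le_two
  have p3 : (1 : ℝ) ≤ 3 ^ k * n := one_le_mul_of_one_le_of_one_le (one_le_pow₀ (by norm_num))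
    (by linarith)
  have β2 : β * (3 ^ k * n) ≤ 1 / 5 := by nlinarith [mul_pos β0 (zero_lt_one.trans_le p3)]
  have β3 : β < 1 := by nlinarith
  have μ0 := W_nonneg (J := Fin n) (bit_nonneg q3.le q2.le)
  set π : (Fin n → Bool) → ℝ := fun a => min 1 (M * W (bit q) a) with hπ
  have π0 (a) : 0 ≤ π a := le_min zero_le_one (mul_nonneg M0 (μ0 a))
  have π1 (a) : π a ≤ 1 := min_le_left _ _
  have miss (T : Fin n → Bool) (hT : n ≤ 3 * (univ.filter fun i => T i = true).card) :
      ∑ R, PR π R * nb ((good k q β T).image fun f => univ.image f) R ≤ (1 / 2) ^ n := by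
    refine (miss_le μ0 M0 β0.le (Cov T) (good k q β T) (fun f => good_inj q3 q2 β3)
      (fun f => good_cov) (fun f hf j => ?_) (fun f hf => good_res q3 q2 β3 hf) hG β1).trans ?_
    · have a := mul_le_mul_of_nonneg_left (good_small q3 q2 (by omega) hf j) M0
      have b := mul_le_mul_of_nonneg_left (hG 1 (by omega)) β0.le
      simp only [pow_one, Nat.factorial_one, Nat.cast_one, div_one] at b
      rw [mul_left_comm] at a
      exact a.trans (b.trans (β2.trans (by norm_num)))
    have g := good_mass q0 q2 hq β0 T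
    set t := (univ.filter fun i => T i = true).card
    have t0 : (n : ℝ) ≤ 3 * t := by exact_mod_cast hT
    have r0 : (0 : ℝ) ≤ 1 - (1 - q) / 8 := by linarith
    have r1 : ((1 - (1 - q) / 8) ^ t) ^ 2 ≤ Real.exp (-(0.054 * u)) := by
      rw [← pow_mul]
      refine (pow_le_pow_left₀ r0 (show _ ≤ Real.exp (-((1 - q) / 8)) by
        linarith [Real.add_one_le_exp (-((1 - q) / 8))]) _).trans ?_
      rw [← Real.exp_nat_mul]
      refine Real.exp_le_exp.2 ?_
      rw [div_le_iff₀ k1] at q1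
      push_cast
      nlinarith [mul_le_mul_of_nonneg_left t0 (sub_nonneg.2 q2.le),
        mul_le_mul_of_nonneg_right q1 (show 0 ≤ u by linarith)]
    have r2 : 2 ^ k * ((1 - (1 - q) / 8) ^ t / √β) ≤ 1 / 10 := by
      rw [← mul_div_assoc, div_le_iff₀ (Real.sqrt_pos.2 β0), one_div, ← div_le_iff₀' (by norm_num)]
      refine Real.le_sqrt_of_sq_le ?_
      have a := num1 hk u0
      rw [← hu] at a
      rw [Real.exp_neg, ← one_div, le_div_iff₀ (Real.exp_pos _)] at r1
      rw [hβ, le_div_iff₀ (by positivity)]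
      refine le_trans (le_of_eq ?_) ((mul_le_mul_of_nonneg_left a (sq_nonneg _)).trans r1)
      rw [show (24 : ℝ) = 2 * 2 * 2 * 3 by norm_num, mul_pow, mul_pow, mul_pow]
      ring
    have r3 : θ ^ k * n * (9 / 10) ≤ M ^ k / k.factorial * ∑ f ∈ good k q β T, W (W (bit q)) f := by
      rw [← l0, mul_assoc]
      refine mul_le_mul_of_nonneg_left (le_trans ?_ g) (by positivity)
      exact mul_le_mul_of_nonneg_left (by linarith) (by positivity)
    rw [one_div, inv_pow, ← Real.exp_log two_pos, ← Real.exp_nat_mul, ← Real.exp_neg]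
    refine Real.exp_le_exp.2 ?_
    nlinarith [Real.log_two_lt_d9]
  obtain ⟨R, hR⟩ := ex_le (PR_nonneg π0 π1) (PR_sum π) (c := M + 1)
    (v := fun R => ∑ a, (if R a = true then 1 else 0) + ∑ T ∈ univ.filter fun T : Fin n → Bool =>
      n ≤ 3 * (univ.filter fun i => T i = true).card,
        nb ((good k q β T).image fun f => univ.image f) R) (by
    simp only [mul_add, sum_add_distrib, mul_sum]
    refine add_le_add ?_ ?_ <;> rw [sum_comm]
    · calc _ ≤ ∑ a, M * W (bit q) a := sum_le_sum fun a _ => by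
            have := cond π {a} fun _ => 1
            simp only [mem_singleton, forall_eq, mul_one, prod_singleton, PR_sum] at this
            rw [this]
            exact min_le_right _ _
        _ = M := by rw [← mul_sum, sum_W (bit_sum q), mul_one]
    · refine (sum_le_card_nsmul _ _ _ fun T hT => miss T (mem_filter.1 hT).2).trans ?_
      rw [nsmul_eq_mul]
      refine le_trans (mul_le_mul_of_nonneg_right ?_ (by positivity)) κ2.le
      exact_mod_cast (card_le_univ _).trans (by simp))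
  set w := κ * Real.exp (0.05 * u) / 3 with hw
  have w0 : 0 < w := by positivity
  have w1 : ((3 * w) ^ k) ^ 3 ≤ (4 / 27) ^ n := by
    have a : (3 * w) ^ k = (1 / 2 * Real.exp 0.05) ^ n := by
      rw [hw, mul_div_cancel₀ _ three_ne_zero, mul_pow, κ1, mul_pow, ← Real.exp_nat_mul,
        ← Real.exp_nat_mul, hu]
      ring_nf
    rw [a, ← pow_mul, mul_comm n, pow_mul]
    refine pow_le_pow_left₀ (by positivity) ?_ n
    have b := Real.add_one_le_exp (-0.05)
    have c : Real.exp 0.05 * Real.exp (-0.05) = 1 := by rw [← Real.exp_add]; norm_num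
    have d : Real.exp 0.05 ≤ 20 / 19 := by nlinarith [Real.exp_pos 0.05]
    exact (pow_le_pow_left₀ (by positivity) (show _ ≤ (10 / 19 : ℝ) by linarith) 3).trans
      (by norm_num)
  refine ⟨_, assemble (by omega) (q := q) (β := β) R w0 w1, ?_⟩
  set B₁ := univ.filter fun A => R A = true
  set B₂ := univ.filter fun T : Fin n → Bool => n ≤ 3 * (univ.filter fun i => T i = true).card ∧
    nb ((good k q β T).image fun f => univ.image f) R = 1 with hB
  have c1 : ((B₁.image toS ∪ B₂.image toS ∪ ivl n w).card : ℝ) ≤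
      B₁.card + B₂.card + (ivl n w).card := by
    exact_mod_cast (card_union_le _ _).trans (add_le_add_left ((card_union_le _ _).trans
      (add_le_add card_image_le card_image_le)) _)
  have c2 : (B₁.card : ℝ) = ∑ a, if R a = true then 1 else 0 := by simp [B₁]
  have c3 : (B₂.card : ℝ) ≤ ∑ T ∈ univ.filter fun T : Fin n → Bool =>
      n ≤ 3 * (univ.filter fun i => T i = true).card,
        nb ((good k q β T).image fun f => univ.image f) R := by
    rw [hB, ← filter_filter, card_filter]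
    push_cast
    refine sum_le_sum fun T _ => ?_
    split_ifs with c
    · exact c.ge
    · exact nb_nonneg _ _
  have c4 : ((ivl n w).card : ℝ) * κ ≤ 1 / 60 := by
    have a := num2 hk u0
    rw [← hu] at a
    refine (mul_le_mul_of_nonneg_right (ivl_card n w0) κ0.le).trans ?_
    rw [hw]
    field_simp
    linarith
  have c5 : κ ≤ 1 / 64 := by
    refine le_of_pow_le_pow_left₀ (n := k) (by omega) (by norm_num) ?_
    rw [κ1, show (1 / 64 : ℝ) = (1 / 2) ^ 6 by norm_num, ← pow_mul]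
    exact pow_le_pow_of_le_one (by norm_num) (by norm_num) (by nlinarith)
  have c6 : 1 / 30 ≤ (X - M) * κ := by
    have a : (X - M) * κ = X * κ / (10 * k) := by rw [hM, hθ]; ring
    have b : M ≤ X := mul_le_of_le_one_left X0.le (by
      linarith [show 0 ≤ 1 / (10 * (k : ℝ)) by positivity])
    rw [a, le_div_iff₀ (by positivity)]
    nlinarith
  have c7 : 1 + ((ivl n w).card : ℝ) ≤ X - M := le_of_mul_le_mul_right (by linarith) κ0
  have c8 : ((B₁.image toS ∪ B₂.image toS ∪ ivl n w).card : ℝ) ^ k ≤ X ^ k :=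
    pow_le_pow_left₀ (by positivity) (by linarith) k
  rw [hX] at c8
  exact_mod_cast c8

end Pool.Agent.Lib.MP_a893c7_co.KB
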