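import Pool.Agent.Lib.MP_a893c7_co.KC5

open Finset

namespace Pool.Agent.Lib.MP_a893c7_co.KB

theorem canon {k : ℕ} (hk : 0 < k) (n : ℕ) :
    ∑ i ∈ range k, 2 ^ ((n + i) / k) = (k + n % k) * 2 ^ (n / k) := by
  have h := Nat.mod_lt n hk
  have e := Nat.div_add_mod n k
  obtain ⟨j, hj⟩ : ∃ j, k = j + n % k := ⟨k - n % k, by omega⟩
  have a (i : ℕ) (hi : i ∈ range j) : 2 ^ ((n + i) / k) = 2 ^ (n / k) := by
    rw [mem_range] at hi
    congr 1
    exact Nat.div_eq_of_lt_le (by rw [mul_comm]; omega) (by rw [mul_comm, mul_add]; omega)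
  have b (i : ℕ) (hi : i ∈ range (n % k)) : 2 ^ ((n + (j + i)) / k) = 2 ^ (n / k + 1) := by
    rw [mem_range] at hi
    congr 1
    exact Nat.div_eq_of_lt_le (by rw [mul_comm, mul_add]; omega)
      (by rw [mul_comm, mul_add, mul_add]; omega)
  conv_lhs => rw [show range k = range (j + n % k) from congrArg range hj]
  rw [sum_range_add, sum_congr rfl a, sum_congr rfl b]
  simp only [sum_const, card_range, smul_eq_mul]
  generalize n % k = r at hj
  rw [hj]
  ring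

theorem five {k : ℕ} (hk : 11 ≤ k) :
    101 * (k.factorial * (100 * k ^ 2 + 5) * 2 ^ 5) ≤ 100 * (k + 5) ^ k := by
  induction k, hk using Nat.le_induction with
  | base => norm_num [Nat.factorial]
  | succ k hk ih =>
    have a : (k + 5) ^ k ≤ (k + 1 + 5) ^ k := Nat.pow_le_pow_left (by omega) k
    have b : (k + 1) * (100 * (k + 1) ^ 2 + 5) ≤ (k + 1 + 5) * (100 * k ^ 2 + 5) := by nlinarith
    calc _ = 101 * 2 ^ 5 * k.factorial * ((k + 1) * (100 * (k + 1) ^ 2 + 5)) := by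
          rw [Nat.factorial_succ]; ring
      _ ≤ 101 * 2 ^ 5 * k.factorial * ((k + 1 + 5) * (100 * k ^ 2 + 5)) := Nat.mul_le_mul_left _ b
      _ = 101 * (k.factorial * (100 * k ^ 2 + 5) * 2 ^ 5) * (k + 1 + 5) := by ring
      _ ≤ 100 * (k + 1 + 5) ^ k * (k + 1 + 5) :=
          Nat.mul_le_mul_right _ (ih.trans (Nat.mul_le_mul_left _ a))
      _ = _ := by ring

theorem below {k n b : ℕ} (hk : 11 ≤ k) (hn : 100 * k ^ 2 ≤ n)
    (hb : b ^ k ≤ k.factorial * n * 2 ^ n)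
    (h : 101 * (k.factorial * n * 2 ^ (n % k)) ≤ 100 * (k + n % k) ^ k) :
    b + (k - 1) < (k + n % k) * 2 ^ (n / k) := by
  have e : 2 ^ n = 2 ^ (n % k) * (2 ^ (n / k)) ^ k := by
    rw [← pow_mul, ← pow_add, mul_comm, Nat.mod_add_div]
  have m : 100 * k ≤ n / k := (Nat.le_div_iff_mul_le (by omega)).2 (by nlinarith)
  have m1 : 200 * k ≤ 2 ^ (n / k) := by
    obtain ⟨j, hj⟩ : ∃ j, n / k = j + 2 := ⟨n / k - 2, by omega⟩
    have := Nat.lt_two_pow_self (n := j)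
    rw [hj, pow_add]
    omega
  set Y := (k + n % k) * 2 ^ (n / k) with hY
  have y1 : 101 * b ^ k ≤ 100 * Y ^ k := by
    calc _ ≤ 101 * (k.factorial * n * 2 ^ n) := Nat.mul_le_mul_left _ hb
      _ = 101 * (k.factorial * n * 2 ^ (n % k)) * (2 ^ (n / k)) ^ k := by rw [e]; ring
      _ ≤ 100 * (k + n % k) ^ k * (2 ^ (n / k)) ^ k := Nat.mul_le_mul_right _ h
      _ = _ := by rw [hY, mul_pow]; ring
  have y2 : k * (200 * k) ≤ Y := Nat.mul_le_mul (by omega) m1
  by_contra c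
  have k0 : (11 : ℝ) ≤ k := by exact_mod_cast hk
  have c1 : (Y : ℝ) ≤ b + k := by exact_mod_cast (by omega : Y ≤ b + k)
  have y3 : (k : ℝ) * (200 * k) ≤ Y := by exact_mod_cast y2
  have y4 : (101 : ℝ) * b ^ k ≤ 100 * Y ^ k := by exact_mod_cast y1
  have y0 : (0 : ℝ) < Y := by nlinarith
  have t0 : 1 / (200 * (k : ℝ)) ≤ 1 := by rw [div_le_one (by positivity)]; linarith
  have t1 : (1 + -(1 / (200 * (k : ℝ)))) * Y ≤ b := by
    have : (k : ℝ) ≤ 1 / (200 * k) * Y := by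
      rw [one_div, ← div_eq_inv_mul, le_div_iff₀ (by positivity)]
      exact y3
    linarith
  have t2 := one_add_mul_le_pow (a := -(1 / (200 * (k : ℝ)))) (by linarith) k
  have t3 : (k : ℝ) * -(1 / (200 * k)) = -(1 / 200) := by field_simp
  have t4 := pow_le_pow_left₀ (mul_nonneg (by linarith) y0.le) t1 k
  rw [mul_pow] at t4
  rw [t3] at t2
  nlinarith [pow_pos y0 k, mul_le_mul_of_nonneg_right t2 (pow_pos y0 k).le]

end Pool.Agent.Lib.MP_a893c7_co.KB
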