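import Pool.Agent.Lib.MP_a893c7_co.Tools

/-! The structure theorem. -/

set_option autoImplicit false

open Finset

namespace Pool.Agent.Lib.MP_a893c7_co

variable {ι : Type*} [Fintype ι] [DecidableEq ι]

lemma levels (f : ℕ → ℝ) {m : ℝ} (h0 : 0 ≤ f 0) {L : ℕ} (hL : 0 < L) (hm : f L ≤ m) :
    ∃ j < L, f (j + 1) - f j ≤ m / L := by
  by_contra h
  push Not at h
  have := sum_lt_sum_of_nonempty (s := range L) (f := fun _ => m / L)
    (g := fun j => f (j + 1) - f j) (nonempty_range_iff.2 hL.ne') fun j hj => h j (mem_range.1 hj)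
  rw [sum_range_sub, sum_const, card_range, nsmul_eq_mul,
    mul_div_cancel₀ _ (by exact_mod_cast hL.ne')] at this
  linarith

open Classical in
theorem core (B : Finset (Finset ι)) {ζ θ : ℝ} (hζ : 0 < ζ) (hθ : 0 < θ)
    {T L : ℕ} (hT : 1 < T * θ ^ 2) (hL : 0 < L) (hn : 0 < Fintype.card ι) :
    ∃ V ⊆ B, (∀ T0 : Finset ι, ((V.filter fun A => (1 + 24 * 3 ^ L) * ζ * Fintype.card ι <
        |((A ∩ T0).card : ℝ) - (1 - rho) * T0.card|).card : ℝ) ≤ θ / ζ ^ 2 * B.card) ∧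
      ((((B ×ˢ B).filter fun p => p.1 ∉ V ∨ p.2 ∉ V).image fun p => p.1 ∪ p.2).card : ℝ) ≤
        4 ^ T * 2 ^ Fintype.card ι / (ζ ^ 2 * Fintype.card ι) + 4 * (θ / ζ ^ 2) * B.card ^ 2 +
        B.card + (B.card - V.card + B.card / L) ^ 2 / 4 := by
  obtain ⟨J, hJ, hP⟩ := pin B hθ hT
  set n : ℝ := (Fintype.card ι : ℝ) with hndef
  have n0 : 0 < n := by rw [hndef]; exact_mod_cast hn
  set m : ℝ := (B.card : ℝ) with hmdef
  have m0 : 0 ≤ m := Nat.cast_nonneg _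
  have zn : 0 < ζ * n := mul_pos hζ n0
  let x : Finset ι → ι → ℝ := fun κ => mean (cls B J κ)
  have hx : ∀ κ i, 0 ≤ x κ i ∧ x κ i ≤ 1 := fun κ i => mean_mem _ i
  let w : Finset ι → Finset ι → ι → ℝ := fun κ κ' i => if 1 / 2 ≤ x κ i * x κ' i then 1 else -1
  have hw : ∀ κ κ' i, w κ κ' i ^ 2 ≤ 1 := fun κ κ' i => by
    simp only [w]; split_ifs <;> norm_num
  have hw' : ∀ κ κ' i, w κ κ' i * (x κ i * x κ' i - 1 / 2) = |x κ i * x κ' i - 1 / 2| := by
    intro κ κ' i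
    simp only [w]
    split_ifs with h
    · rw [abs_of_nonneg (by linarith), one_mul]
    · rw [abs_of_neg (by linarith)]; ring
  let D : Finset ι × Finset ι → ℝ := fun p => ∑ i, w (p.1 ∩ J) (p.2 ∩ J) i *
    (c p.1 i * c p.2 i - x (p.1 ∩ J) i * x (p.2 ∩ J) i)
  have hD : ∑ p ∈ B ×ˢ B, D p ^ 2 ≤ 4 * θ * m ^ 2 * n ^ 2 := by
    have e : ∀ p : Finset ι × Finset ι, D p ^ 2 ≤
        2 * (∑ i, (c p.1 i - x (p.1 ∩ J) i) * (w (p.1 ∩ J) (p.2 ∩ J) i * c p.2 i)) ^ 2 +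
        2 * (∑ i, (c p.2 i - x (p.2 ∩ J) i) * (w (p.1 ∩ J) (p.2 ∩ J) i * x (p.1 ∩ J) i)) ^ 2 := by
      intro p
      have : D p = ∑ i, (c p.1 i - x (p.1 ∩ J) i) * (w (p.1 ∩ J) (p.2 ∩ J) i * c p.2 i) +
          ∑ i, (c p.2 i - x (p.2 ∩ J) i) * (w (p.1 ∩ J) (p.2 ∩ J) i * x (p.1 ∩ J) i) := by
        rw [← sum_add_distrib]
        exact sum_congr rfl fun i _ => by ring
      rw [this]
      exact add_sq_le.trans (le_of_eq (by ring))
    have b : ∀ a t : ℝ, a ^ 2 ≤ 1 → 0 ≤ t ∧ t ≤ 1 → (a * t) ^ 2 ≤ 1 := fun a t h1 h2 => by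
      rw [mul_pow]; exact mul_le_one₀ h1 (sq_nonneg _) (by nlinarith [h2.1, h2.2])
    refine (sum_le_sum fun p _ => e p).trans ?_
    rw [sum_add_distrib, ← mul_sum, ← mul_sum, sum_product_right, sum_product]
    have k1 := sum_le_card_nsmul B _ _ fun A' _ =>
      hP (fun κ i => w κ (A' ∩ J) i * c A' i) fun κ i => b _ _ (hw _ _ _) (c_mem _ _)
    have k2 := sum_le_card_nsmul B _ _ fun A _ =>
      hP (fun κ i => w (A ∩ J) κ i * x (A ∩ J) i) fun κ i => b _ _ (hw _ _ _) (hx _ _)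
    rw [nsmul_eq_mul] at k1 k2
    simp only [x] at k1 k2 ⊢
    nlinarith
  have hbad := (cheb (B ×ˢ B) D zn).trans hD
  let bad : Finset (Finset ι) := (J.powerset ×ˢ J.powerset).biUnion fun q =>
    univ.filter fun S => ζ * n < |∑ i, w q.1 q.2 i * (c S i - 1 / 2)|
  have hbad2 : (bad.card : ℝ) ≤ 4 ^ T * 2 ^ Fintype.card ι / (ζ ^ 2 * n) := by
    have k1 : (bad.card : ℝ) ≤ ∑ q ∈ J.powerset ×ˢ J.powerset, ((univ.filter fun S =>
        ζ * n < |∑ i, w q.1 q.2 i * (c S i - 1 / 2)|).card : ℝ) := by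
      exact_mod_cast card_biUnion_le
    refine k1.trans ((sum_le_card_nsmul _ _ (2 ^ Fintype.card ι / (ζ ^ 2 * n)) fun q _ => ?_).trans
      ?_)
    · have := (cheb univ _ zn).trans (cube (w q.1 q.2) (hw _ _))
      rw [le_div_iff₀ (by positivity)]
      refine le_of_mul_le_mul_right ?_ n0
      linarith
    · rw [nsmul_eq_mul, mul_div_assoc, card_product, card_powerset, ← mul_pow]
      gcongr
      exact_mod_cast Nat.pow_le_pow_right (by norm_num : 0 < 4) hJ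
  let R : Finset ι → Finset ι → Prop := fun A A' =>
    ∑ i, |x (A ∩ J) i * x (A' ∩ J) i - 1 / 2| ≤ 2 * (ζ * n)
  have Rs : ∀ A A', R A A' → R A' A := fun A A' h => by simpa only [R, mul_comm] using h
  let cen : Finset ι → ℝ := fun A => ∑ i, |x (A ∩ J) i - rho|
  have Re : ∀ A A', R A A' → cen A' ≤ 2 * (2 * (ζ * n) + cen A) := fun A A' h => by
    refine (sum_le_sum fun i _ => pt_edge (x := x (A ∩ J) i) (hx _ i)).trans ?_
    rw [← mul_sum, sum_add_distrib]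
    gcongr
  have Rt : ∀ A A' A'', R A A' → R A A'' → R A' A'' → cen A ≤ 24 * (ζ * n) := by
    intro A A' A'' h1 h2 h3
    refine (sum_le_sum fun i _ => pt_tri (y := x (A' ∩ J) i) (hx _ i) (hx (A'' ∩ J) i)).trans ?_
    rw [← mul_sum, sum_add_distrib, sum_add_distrib]
    simp only [R] at h1 h2 h3
    linarith
  let W : ℕ → Finset (Finset ι) := fun j => B.filter fun A => cen A ≤ 24 * 3 ^ j * (ζ * n)
  have WB : ∀ j, ((W j).card : ℝ) ≤ m := fun j => Nat.cast_le.2 (card_filter_le _ _)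
  obtain ⟨j, hj, hj'⟩ := levels (fun j => (W j).card) (Nat.cast_nonneg _) hL (WB L)
  have p3 : (1 : ℝ) ≤ 3 ^ j := one_le_pow₀ (by norm_num)
  refine ⟨W (j + 1), filter_subset _ _, fun T0 => ?_, ?_⟩
  · have k1 := (cheb B _ zn).trans (hP (fun _ i => if i ∈ T0 then 1 else 0) fun _ i => by
      split_ifs <;> norm_num)
    have k2 : ((W (j + 1)).filter fun A => (1 + 24 * 3 ^ L) * ζ * n <
        |((A ∩ T0).card : ℝ) - (1 - rho) * T0.card|) ⊆ B.filter fun A => ζ * n <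
        |∑ i, (c A i - mean (cls B J (A ∩ J)) i) * if i ∈ T0 then 1 else 0| := by
      intro A hA
      obtain ⟨h1, h2⟩ := mem_filter.1 (mem_filter.1 hA).1
      refine mem_filter.2 ⟨h1, ?_⟩
      by_contra h3
      refine absurd (mem_filter.1 hA).2 (not_lt.2 ?_)
      have e1 : ((A ∩ T0).card : ℝ) - (1 - rho) * T0.card =
          -(∑ i ∈ T0, (c A i - x (A ∩ J) i) + ∑ i ∈ T0, (x (A ∩ J) i - rho)) := by
        have : ∑ i ∈ T0, c A i = T0.card - (A ∩ T0).card := by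
          have := card_filter_add_card_filter_not (s := T0) fun i => i ∈ A
          rw [filter_mem_eq_inter, inter_comm] at this
          rw [← this]
          simp [c, sum_ite]
        rw [sum_sub_distrib, sum_sub_distrib, this, sum_const, nsmul_eq_mul]
        ring
      have e2 : ∑ i, (c A i - mean (cls B J (A ∩ J)) i) * (if i ∈ T0 then 1 else 0) =
          ∑ i ∈ T0, (c A i - x (A ∩ J) i) := by simp [x]
      have e3 : |∑ i ∈ T0, (x (A ∩ J) i - rho)| ≤ cen A := (abs_sum_le_sum_abs _ _).trans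
        (sum_le_sum_of_subset_of_nonneg (subset_univ _) fun _ _ _ => abs_nonneg _)
      have e4 : (3 : ℝ) ^ (j + 1) ≤ 3 ^ L := pow_le_pow_right₀ (by norm_num) hj
      rw [e2, not_lt] at h3
      rw [e1, abs_neg]
      refine (abs_add_le _ _).trans ?_
      nlinarith [mul_le_mul_of_nonneg_right e4 zn.le]
    refine ((Nat.cast_le (α := ℝ)).2 (card_le_card k2)).trans ?_
    rw [div_mul_eq_mul_div, le_div_iff₀ (by positivity)]
    refine le_of_mul_le_mul_right ?_ (pow_pos n0 2)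
    linarith
  · set P := ((B \ W j) ×ˢ (B \ W j)).filter fun p => R p.1 p.2 with hPdef
    have up : ∀ A ∈ W j, A ∈ W (j + 1) ∧ ∀ A' ∈ B, R A A' → A' ∈ W (j + 1) := by
      intro A hA
      obtain ⟨l1, l2⟩ := mem_filter.1 hA
      refine ⟨mem_filter.2 ⟨l1, ?_⟩, fun A' l3 l4 => mem_filter.2 ⟨l3, ?_⟩⟩
      · rw [pow_succ]; nlinarith
      · have := Re _ _ l4
        rw [pow_succ]; nlinarith
    have k1 : (((B ×ˢ B).filter fun p => p.1 ∉ W (j + 1) ∨ p.2 ∉ W (j + 1)).image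
        fun p => p.1 ∪ p.2) ⊆ bad ∪ (((B ×ˢ B).filter fun p =>
        ζ * n < |D p|).image fun p => p.1 ∪ p.2) ∪ P.image fun p => p.1 ∪ p.2 := by
      intro S hS
      obtain ⟨p, hp', rfl⟩ := mem_image.1 hS
      obtain ⟨hp, hp2⟩ := mem_filter.1 hp'
      by_cases h1 : ζ * n < |D p|
      · exact mem_union_left _ (mem_union_right _ (mem_image_of_mem _ (mem_filter.2 ⟨hp, h1⟩)))
      by_cases h2 : ζ * n < |∑ i, w (p.1 ∩ J) (p.2 ∩ J) i * (c (p.1 ∪ p.2) i - 1 / 2)|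
      · refine mem_union_left _ (mem_union_left _ (mem_biUnion.2 ⟨(p.1 ∩ J, p.2 ∩ J), ?_,
          mem_filter.2 ⟨mem_univ _, h2⟩⟩))
        simp
      obtain ⟨h3, h4⟩ := mem_product.1 hp
      suffices hR : R p.1 p.2 by
        refine mem_union_right _ (mem_image_of_mem _ (mem_filter.2 ⟨mem_product.2
          ⟨mem_sdiff.2 ⟨h3, fun a => ?_⟩, mem_sdiff.2 ⟨h4, fun b => ?_⟩⟩, hR⟩))
        · exact hp2.elim (· (up _ a).1) (· ((up _ a).2 _ h4 hR))
        · exact hp2.elim (· ((up _ b).2 _ h3 (Rs _ _ hR))) (· (up _ b).1)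
      have e : ∑ i, |x (p.1 ∩ J) i * x (p.2 ∩ J) i - 1 / 2| =
          ∑ i, w (p.1 ∩ J) (p.2 ∩ J) i * (c (p.1 ∪ p.2) i - 1 / 2) - D p := by
        rw [← sum_sub_distrib]
        refine sum_congr rfl fun i _ => ?_
        have : c (p.1 ∪ p.2) i = c p.1 i * c p.2 i := by
          by_cases a : i ∈ p.1 <;> by_cases b : i ∈ p.2 <;> simp [c, a, b]
        rw [← hw', this]
        ring
      simp only [R]
      rw [e]
      linarith [(abs_le.1 (not_lt.1 h1)).1, (abs_le.1 (not_lt.1 h2)).2]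
    have k2 := (Nat.cast_le (α := ℝ)).2 ((card_le_card k1).trans ((card_union_le _ _).trans
      (Nat.add_le_add_right ((card_union_le _ _).trans (Nat.add_le_add_left card_image_le _)) _)))
    rw [Nat.cast_add, Nat.cast_add] at k2
    have k3 := image_le B P
      (fun p hp => (mem_sdiff.1 (mem_product.1 (mem_filter.1 hp).1).1).1) fun p hp =>
      mem_filter.2 ⟨mem_product.2 (mem_product.1 (mem_filter.1 hp).1).symm,
        Rs _ _ (mem_filter.1 hp).2⟩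
    have k6 := mantel (B \ W j) R Rs fun A hA A' _ A'' _ h1 h2 h3 =>
      (mem_sdiff.1 hA).2 (mem_filter.2 ⟨(mem_sdiff.1 hA).1, (Rt _ _ _ h1 h2 h3).trans
        (by nlinarith)⟩)
    have k7 : ((B \ W j).card : ℝ) ≤ m - (W (j + 1)).card + m / L := by
      rw [card_sdiff_of_subset (filter_subset _ _), Nat.cast_sub (card_filter_le _ _)]
      linarith
    have k8 := pow_le_pow_left₀ (Nat.cast_nonneg _) k7 2
    have k9 : (((B ×ˢ B).filter fun p => ζ * n < |D p|).card : ℝ) ≤ 4 * (θ / ζ ^ 2) * m ^ 2 := by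
      rw [← mul_div_assoc, div_mul_eq_mul_div, le_div_iff₀ (by positivity)]
      refine le_of_mul_le_mul_right ?_ (pow_pos n0 2)
      linarith
    linarith

open Classical in
theorem main {ε : ℝ} (hε : 0 < ε) : ∃ n0 : ℕ, ∀ n ≥ n0, ∀ B : Finset (Finset (Fin n)), ∃ W ⊆ B,
    (∀ A ∈ W, |(A.card : ℝ) - (1 - 1 / √2) * n| ≤ ε * n) ∧
    (∀ T : Finset (Fin n), ((W.filter fun A =>
      ε * n < |((A ∩ T).card : ℝ) - (1 - 1 / √2) * T.card|).card : ℝ) ≤ ε * B.card) ∧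
    ((((B ×ˢ B).filter fun p => p.1 ∉ W ∨ p.2 ∉ W).image fun p => p.1 ∪ p.2).card : ℝ) ≤
      ((B.card : ℝ) - W.card) ^ 2 / 4 + ε / 4 * 2 ^ n ∧
    ((B.card : ℝ) ^ 2 < 4 * 2 ^ n → (B.card : ℝ) ≤ ε / 16 * 2 ^ n) := by
  obtain ⟨L, hL⟩ := exists_nat_gt (64 / ε)
  have L0 : (0 : ℝ) < L := lt_trans (by positivity) hL
  have L1 : 0 < L := by exact_mod_cast L0
  set ζ := ε / (1 + 24 * 3 ^ L) with hζ
  have ζ0 : 0 < ζ := by positivity
  set δ := ε / 400 with hδ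
  have δ0 : 0 < δ := by positivity
  obtain ⟨T, hT⟩ := exists_nat_gt (1 / (δ * ζ ^ 2) ^ 2)
  obtain ⟨n0, hn0⟩ := exists_nat_gt (max (16 * 4 ^ T / (ζ ^ 2 * ε)) (1024 / ε ^ 2))
  refine ⟨n0, fun n hn B => ?_⟩
  have hn1 : (n0 : ℝ) ≤ n := by exact_mod_cast hn
  have hn2 := ((le_max_left _ _).trans_lt hn0).trans_le hn1
  have hn3 := ((le_max_right _ _).trans_lt hn0).trans_le hn1
  have n0' : (0 : ℝ) < n := lt_trans (by positivity) hn3
  set N : ℝ := 2 ^ n with hN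
  have N0 : 0 < N := by positivity
  have nN : (n : ℝ) ≤ N := by rw [hN]; exact_mod_cast Nat.lt_two_pow_self.le
  set m : ℝ := (B.card : ℝ) with hm
  have m0 : 0 ≤ m := Nat.cast_nonneg _
  have e2 : m ^ 2 < 4 * N → m ≤ ε / 16 * N := fun big => by
    refine (pow_le_pow_iff_left₀ m0 (by positivity) two_ne_zero).1 ?_
    rw [div_lt_iff₀ (by positivity)] at hn3
    nlinarith [mul_le_mul_of_nonneg_right nN (sq_nonneg ε)]
  by_cases big : 4 * N ≤ m ^ 2
  · refine ⟨∅, empty_subset _, by simp, fun T => by simp; positivity, ?_, e2⟩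
    refine le_trans (b := N) ?_ ?_
    · rw [hN]
      exact_mod_cast (card_le_univ _).trans (by simp)
    · simp only [card_empty, Nat.cast_zero, sub_zero]
      nlinarith [mul_pos hε N0]
  obtain ⟨V, v1, v2, v3⟩ := core B ζ0 (θ := δ * ζ ^ 2) (by positivity) (T := T)
    (by rwa [div_lt_iff₀ (by positivity)] at hT) L1 (by simpa using (by exact_mod_cast n0'))
  rw [mul_div_cancel_right₀ _ (by positivity), Fintype.card_fin] at v2 v3
  rw [hζ, mul_div_cancel₀ _ (by positivity), rho, ← hm] at v2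
  rw [← hm, ← hN, div_eq_mul_inv m] at v3
  have v4 := v2 univ
  simp only [inter_univ, card_univ, Fintype.card_fin] at v4
  set Z := V.filter fun A => ε * n < |(A.card : ℝ) - (1 - 1 / √2) * n| with hZ
  refine ⟨V \ Z, sdiff_subset.trans v1, fun A hA => ?_, fun T0 => ?_, ?_, e2⟩
  · exact not_lt.1 fun k => (mem_sdiff.1 hA).2 (mem_filter.2 ⟨(mem_sdiff.1 hA).1, k⟩)
  · refine ((Nat.cast_le.2 (card_le_card (filter_subset_filter _ sdiff_subset))).trans
      (v2 T0)).trans ?_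
    gcongr
    linarith
  have k1 : (((B ×ˢ B).filter fun p => p.1 ∉ V \ Z ∨ p.2 ∉ V \ Z).image fun p => p.1 ∪ p.2) ⊆
      (((B ×ˢ B).filter fun p => p.1 ∉ V ∨ p.2 ∉ V).image fun p => p.1 ∪ p.2) ∪
      (Z ×ˢ B).image fun p => p.1 ∪ p.2 := by
    intro S hS
    obtain ⟨p, hp, rfl⟩ := mem_image.1 hS
    obtain ⟨h1, h2⟩ := mem_filter.1 hp
    by_cases a : p.1 ∈ Z
    · exact mem_union_right _ (mem_image_of_mem _ (mem_product.2 ⟨a, (mem_product.1 h1).2⟩))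
    by_cases b : p.2 ∈ Z
    · exact mem_union_right _ (mem_image.2 ⟨p.swap, mem_product.2 ⟨b, (mem_product.1 h1).1⟩,
        union_comm _ _⟩)
    exact mem_union_left _ (mem_image_of_mem _ (mem_filter.2 ⟨h1, h2.imp
      (fun k k' => k (mem_sdiff.2 ⟨k', a⟩)) fun k k' => k (mem_sdiff.2 ⟨k', b⟩)⟩))
  have k2 := (Nat.cast_le (α := ℝ)).2 ((card_le_card k1).trans ((card_union_le _ _).trans
    (Nat.add_le_add_left card_image_le _)))
  rw [Nat.cast_add, card_product, Nat.cast_mul, ← hm] at k2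
  have k3 := mul_le_mul_of_nonneg_right v4 m0
  have l0 : (0 : ℝ) ≤ (L : ℝ)⁻¹ := inv_nonneg.2 L0.le
  have l1 : (L : ℝ)⁻¹ ≤ 1 := inv_le_one_of_one_le₀ (by exact_mod_cast L1)
  have w1 : ((V \ Z).card : ℝ) ≤ V.card := Nat.cast_le.2 (card_le_card sdiff_subset)
  have w2 : (V.card : ℝ) ≤ m := Nat.cast_le.2 (card_le_card v1)
  have w0 : (0 : ℝ) ≤ (V \ Z).card := Nat.cast_nonneg _
  have a2 : (m - V.card + m * (L : ℝ)⁻¹) ^ 2 / 4 ≤ (m - (V \ Z).card) ^ 2 / 4 +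
      (L : ℝ)⁻¹ * m ^ 2 := by
    have := pow_le_pow_left₀ (by nlinarith) (show m - V.card + m * (L : ℝ)⁻¹ ≤
      m - (V \ Z).card + m * (L : ℝ)⁻¹ by linarith) 2
    have k1 : (m - (V \ Z).card) * (m * (L : ℝ)⁻¹) ≤ m * (m * (L : ℝ)⁻¹) := by gcongr; linarith
    have k2 : (L : ℝ)⁻¹ * (L : ℝ)⁻¹ * m ^ 2 ≤ 1 * (L : ℝ)⁻¹ * m ^ 2 := by gcongr
    nlinarith [mul_nonneg l0 (sq_nonneg m)]
  have e1 : 4 ^ T * N / (ζ ^ 2 * n) ≤ ε / 16 * N := by
    rw [div_le_iff₀ (by positivity)]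
    rw [div_lt_iff₀ (by positivity)] at hn2
    nlinarith
  have e3 : (L : ℝ)⁻¹ ≤ ε / 64 := by
    rw [inv_le_comm₀ L0 (by positivity), inv_div]; exact hL.le
  have e4 : (5 * δ + (L : ℝ)⁻¹) * m ^ 2 ≤ (5 * δ + ε / 64) * (4 * N) := by
    gcongr
    exact (not_le.1 big).le
  nlinarith [mul_pos hε N0, e2 (not_le.1 big)]

open Classical in
theorem two_thirds {n : ℕ} {ε : ℝ} (hε : 0 < ε) {B W : Finset (Finset (Fin n))}
    (h1 : ((((B ×ˢ B).filter fun p => p.1 ∉ W ∨ p.2 ∉ W).image fun p => p.1 ∪ p.2).card : ℝ) ≤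
      ((B.card : ℝ) - W.card) ^ 2 / 4 + ε / 4 * 2 ^ n)
    (h2 : (B.card : ℝ) ^ 2 < 4 * 2 ^ n → (B.card : ℝ) ≤ ε / 16 * 2 ^ n)
    (hB : ∀ S : Finset (Fin n), ∃ A ∈ B, ∃ A' ∈ B, S = A ∪ A')
    (hm : (B.card : ℝ) ≤ (2 - ε) * √(2 ^ n)) : 2 * B.card ≤ 3 * W.card := by
  by_contra hc
  have hc' : (3 * W.card : ℝ) < 2 * B.card := by exact_mod_cast not_le.1 hc
  have N0 : (0 : ℝ) < 2 ^ n := by positivity
  have m0 : (0 : ℝ) ≤ B.card := Nat.cast_nonneg _
  have w0 : (0 : ℝ) ≤ W.card := Nat.cast_nonneg _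
  have e0 : 0 ≤ 2 - ε := by
    by_contra k
    linarith [mul_neg_of_neg_of_pos (not_le.1 k) (Real.sqrt_pos.2 N0)]
  have k1 := pow_le_pow_left₀ m0 hm 2
  rw [mul_pow, Real.sq_sqrt N0.le] at k1
  have k2 : (2 - ε) ^ 2 * 2 ^ n ≤ (4 - 2 * ε) * 2 ^ n := by gcongr; nlinarith
  have k3 := h2 (by nlinarith [mul_pos hε N0])
  have k4 := image_le W (W ×ˢ W) (fun p hp => (mem_product.1 hp).1) fun p hp =>
    mem_product.2 (mem_product.1 hp).symm
  have k5 : (univ : Finset (Finset (Fin n))) ⊆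
      (((B ×ˢ B).filter fun p => p.1 ∉ W ∨ p.2 ∉ W).image fun p => p.1 ∪ p.2) ∪
      (W ×ˢ W).image fun p => p.1 ∪ p.2 := by
    intro S _
    obtain ⟨A, hA, A', hA', rfl⟩ := hB S
    by_cases k : A ∉ W ∨ A' ∉ W
    · exact mem_union_left _ (mem_image.2 ⟨(A, A'), mem_filter.2 ⟨mem_product.2 ⟨hA, hA'⟩, k⟩, rfl⟩)
    · push Not at k
      exact mem_union_right _ (mem_image.2 ⟨(A, A'), mem_product.2 k, rfl⟩)
  have k6 := (Nat.cast_le (α := ℝ)).2 ((card_le_card k5).trans (card_union_le _ _))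
  rw [card_product, Nat.cast_mul] at k4
  simp only [card_univ, Fintype.card_finset, Fintype.card_fin, Nat.cast_pow, Nat.cast_ofNat,
    Nat.cast_add] at k6
  nlinarith [mul_pos hε N0, mul_nonneg w0 (sub_pos.2 hc').le]

end Pool.Agent.Lib.MP_a893c7_co
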