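import Mathlib

/-! The pinning lemma: conditioning on boundedly many coordinates kills most covariances. -/

set_option autoImplicit false

open Finset

namespace Pool.Agent.Lib.MP_a893c7_co

variable {ι : Type*} [Fintype ι] [DecidableEq ι]

/-- Indicator of the complement. -/
def c (A : Finset ι) (i : ι) : ℝ := if i ∈ A then 0 else 1

/-- Members with given trace on `J`. -/
def cls (B : Finset (Finset ι)) (J κ : Finset ι) : Finset (Finset ι) := B.filter fun A => A ∩ J = κ

/-- Mean of the indicators. -/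
noncomputable def mean (s : Finset (Finset ι)) (i : ι) : ℝ := (∑ A ∈ s, c A i) / s.card

/-- Unnormalised covariance. -/
noncomputable def cv (s : Finset (Finset ι)) (i j : ι) : ℝ :=
  ∑ A ∈ s, (c A i - mean s i) * (c A j - mean s j)

/-- Total conditional variance. -/
noncomputable def Phi (B : Finset (Finset ι)) (J : Finset ι) : ℝ :=
  ∑ i, ∑ A ∈ B, (c A i - mean (cls B J (A ∩ J)) i) ^ 2

/-- Total squared conditional covariance. -/
noncomputable def Psi (B : Finset (Finset ι)) (J : Finset ι) : ℝ :=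
  ∑ j, ∑ i, ∑ κ, cv (cls B J κ) i j ^ 2 / (cls B J κ).card

omit [Fintype ι] in
lemma c_mem (A : Finset ι) (i : ι) : 0 ≤ c A i ∧ c A i ≤ 1 := by
  unfold c; split_ifs <;> norm_num

omit [Fintype ι] in
lemma mean_mem (s : Finset (Finset ι)) (i : ι) : 0 ≤ mean s i ∧ mean s i ≤ 1 := by
  refine ⟨div_nonneg (sum_nonneg fun A _ => (c_mem A i).1) (Nat.cast_nonneg _), ?_⟩
  refine div_le_one_of_le₀ ?_ (Nat.cast_nonneg _)
  simpa using sum_le_card_nsmul s _ 1 fun A _ => (c_mem A i).2

omit [Fintype ι] in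
lemma dev_sq (s : Finset (Finset ι)) (A : Finset ι) (i : ι) : (c A i - mean s i) ^ 2 ≤ 1 := by
  have := c_mem A i
  have := mean_mem s i
  nlinarith

omit [Fintype ι] in
lemma best (s : Finset (Finset ι)) (i : ι) (t : ℝ) :
    ∑ A ∈ s, (c A i - mean s i) ^ 2 ≤ ∑ A ∈ s, (c A i - t) ^ 2 := by
  rcases s.eq_empty_or_nonempty with rfl | h
  · simp
  have h0 : (s.card : ℝ) ≠ 0 := by exact_mod_cast h.card_pos.ne'
  have e : ∑ A ∈ s, c A i = s.card * mean s i := by rw [mean]; field_simp
  have : ∑ A ∈ s, (c A i - t) ^ 2 = ∑ A ∈ s, (c A i - mean s i) ^ 2 +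
      (2 * (mean s i - t) * (∑ A ∈ s, c A i - s.card * mean s i) + s.card * (mean s i - t) ^ 2) := by
    rw [← nsmul_eq_mul, ← nsmul_eq_mul, ← sum_const, ← sum_const, ← sum_sub_distrib, mul_sum,
      ← sum_add_distrib, ← sum_add_distrib]
    exact sum_congr rfl fun A _ => by ring
  rw [this, e]
  have : 0 ≤ (s.card : ℝ) * (mean s i - t) ^ 2 := by positivity
  linarith

lemma fiber (B : Finset (Finset ι)) (J : Finset ι) (f : Finset ι → Finset ι → ℝ) :
    ∑ A ∈ B, f (A ∩ J) A = ∑ κ, ∑ A ∈ cls B J κ, f κ A := by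
  rw [← sum_fiberwise B (fun A => A ∩ J)]
  exact sum_congr rfl fun κ _ => sum_congr rfl fun A hA => by rw [(mem_filter.1 hA).2]

lemma regress {α : Type*} (s : Finset α) (g h : α → ℝ) (hh : ∀ a, h a ^ 2 ≤ 1) :
    ∑ a ∈ s, (g a - (∑ b ∈ s, g b * h b) / s.card * h a) ^ 2 ≤
      ∑ a ∈ s, g a ^ 2 - (∑ b ∈ s, g b * h b) ^ 2 / s.card := by
  rcases s.eq_empty_or_nonempty with rfl | hs
  · simp
  have h0 : (0 : ℝ) < s.card := by exact_mod_cast hs.card_pos
  set C := ∑ b ∈ s, g b * h b with hC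
  calc _ ≤ ∑ a ∈ s, (g a ^ 2 - 2 * (C / s.card) * (g a * h a) + (C / s.card) ^ 2) :=
        sum_le_sum fun a _ => by nlinarith [mul_le_mul_of_nonneg_left (hh a) (sq_nonneg (C / s.card))]
    _ = _ := by
        rw [sum_add_distrib, sum_sub_distrib, ← mul_sum, ← hC, sum_const, nsmul_eq_mul]
        field_simp
        ring

lemma step (B : Finset (Finset ι)) (J : Finset ι) (j : ι) :
    Phi B (insert j J) ≤ Phi B J - ∑ i, ∑ κ, cv (cls B J κ) i j ^ 2 / (cls B J κ).card := by
  rw [Phi, Phi, ← sum_sub_distrib]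
  refine sum_le_sum fun i _ => ?_
  let f : Finset ι → ℝ := fun κ => mean (cls B J (κ ∩ J)) i +
    cv (cls B J (κ ∩ J)) i j / (cls B J (κ ∩ J)).card * (c κ j - mean (cls B J (κ ∩ J)) j)
  calc _ ≤ ∑ A ∈ B, (c A i - f (A ∩ insert j J)) ^ 2 := by
        rw [fiber B _ fun κ A => (c A i - mean (cls B (insert j J) κ) i) ^ 2,
          fiber B _ fun κ A => (c A i - f κ) ^ 2]
        exact sum_le_sum fun κ _ => best _ _ _
    _ = ∑ A ∈ B, (c A i - mean (cls B J (A ∩ J)) i - cv (cls B J (A ∩ J)) i j /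
          (cls B J (A ∩ J)).card * (c A j - mean (cls B J (A ∩ J)) j)) ^ 2 := by
        refine sum_congr rfl fun A _ => ?_
        have e1 : A ∩ insert j J ∩ J = A ∩ J := by
          rw [inter_assoc, inter_eq_right.2 (subset_insert j J)]
        have e2 : c (A ∩ insert j J) j = c A j := by simp [c]
        simp only [f, e1, e2]
        ring
    _ ≤ _ := by
        rw [fiber B J fun κ A => (c A i - mean (cls B J κ) i - cv (cls B J κ) i j /
          (cls B J κ).card * (c A j - mean (cls B J κ) j)) ^ 2,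
          fiber B J fun κ A => (c A i - mean (cls B J κ) i) ^ 2, ← sum_sub_distrib]
        exact sum_le_sum fun κ _ => regress _ _ _ fun A => dev_sq _ A j

lemma exists_J (B : Finset (Finset ι)) {η : ℝ} (t : ℕ) :
    ∃ J : Finset ι, J.card ≤ t ∧ (Psi B J ≤ η * B.card * Fintype.card ι ^ 2 ∨
      Phi B J ≤ (1 - t * η) * (B.card * Fintype.card ι)) := by
  induction t with
  | zero =>
    refine ⟨∅, le_rfl, Or.inr ?_⟩
    refine (sum_le_card_nsmul _ _ (B.card : ℝ) fun i _ => ?_).trans (by simp [mul_comm])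
    simpa using sum_le_card_nsmul B _ 1 fun A _ => dev_sq _ A i
  | succ t ih =>
    obtain ⟨J, hJ, h | h⟩ := ih
    · exact ⟨J, by omega, Or.inl h⟩
    by_cases k : Psi B J ≤ η * B.card * Fintype.card ι ^ 2
    · exact ⟨J, by omega, Or.inl k⟩
    obtain ⟨j, -, hj⟩ := exists_lt_of_sum_lt (s := univ)
      (f := fun _ => η * (B.card * Fintype.card ι)) (lt_of_eq_of_lt (by simp; ring) (not_le.1 k))
    refine ⟨insert j J, (card_insert_le _ _).trans (by omega), Or.inr ?_⟩
    have := step B J j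
    push_cast
    linarith

theorem pin (B : Finset (Finset ι)) {θ : ℝ} (hθ : 0 < θ) {T : ℕ} (hT : 1 < T * θ ^ 2) :
    ∃ J : Finset ι, J.card ≤ T ∧ ∀ u : Finset ι → ι → ℝ, (∀ κ i, u κ i ^ 2 ≤ 1) →
      ∑ A ∈ B, (∑ i, (c A i - mean (cls B J (A ∩ J)) i) * u (A ∩ J) i) ^ 2 ≤
        θ * B.card * Fintype.card ι ^ 2 := by
  obtain ⟨J, hJ, h⟩ := exists_J B (η := θ ^ 2) T
  refine ⟨J, hJ, fun u hu => ?_⟩
  have h' : Psi B J ≤ θ ^ 2 * B.card * Fintype.card ι ^ 2 := by
    refine h.elim id fun h => ?_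
    have h1 : 0 ≤ Phi B J := sum_nonneg fun _ _ => sum_nonneg fun _ _ => sq_nonneg _
    have h2 : (B.card * Fintype.card ι : ℝ) ≤ 0 := by
      by_contra k
      nlinarith [mul_pos (sub_pos.2 hT) (not_le.1 k)]
    rcases mul_eq_zero.1 (le_antisymm h2 (by positivity)) with k | k
    · have : B = ∅ := card_eq_zero.1 (by exact_mod_cast k)
      simp [this, Psi, cls, cv]
    · have : IsEmpty ι := Fintype.card_eq_zero_iff.1 (by exact_mod_cast k)
      simp [Psi]
  have hm : ∑ κ, ((cls B J κ).card : ℝ) = B.card := by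
    simpa using (fiber B J fun _ _ => (1 : ℝ)).symm
  rw [fiber B J fun κ A => (∑ i, (c A i - mean (cls B J κ) i) * u κ i) ^ 2]
  calc _ ≤ ∑ κ, ∑ j, ∑ i, (cv (cls B J κ) i j ^ 2 / (cls B J κ).card / (2 * θ) +
          θ / 2 * (cls B J κ).card) := by
        refine sum_le_sum fun κ _ => ?_
        set s := cls B J κ
        have e : ∑ A ∈ s, (∑ i, (c A i - mean s i) * u κ i) ^ 2 =
            ∑ j, ∑ i, cv s i j * (u κ i * u κ j) := by
          simp only [sq, sum_mul_sum]
          simp only [cv, sum_mul]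
          rw [sum_comm]
          refine sum_congr rfl fun j _ => ?_
          rw [sum_comm]
          exact sum_congr rfl fun i _ => sum_congr rfl fun A _ => by ring
        rw [e]
        refine sum_le_sum fun j _ => sum_le_sum fun i _ => ?_
        rcases s.eq_empty_or_nonempty with k | k
        · simp [k, cv]
        have h0 : (0 : ℝ) < s.card := by exact_mod_cast k.card_pos
        have h1 : (u κ i * u κ j) ^ 2 ≤ 1 := by
          rw [mul_pow]; exact mul_le_one₀ (hu κ i) (sq_nonneg _) (hu κ j)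
        rw [div_div, ← sub_le_iff_le_add, le_div_iff₀ (by positivity)]
        nlinarith [sq_nonneg (cv s i j - θ * s.card * (u κ i * u κ j)),
          mul_le_mul_of_nonneg_left h1 (sq_nonneg (θ * s.card))]
    _ = Psi B J / (2 * θ) + θ / 2 * B.card * Fintype.card ι ^ 2 := by
        simp only [sum_add_distrib, sum_const, nsmul_eq_mul, card_univ, ← mul_sum, hm]
        congr 1
        · simp only [Psi, sum_div]
          rw [sum_comm]
          exact sum_congr rfl fun j _ => sum_comm
        · ring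
    _ ≤ _ := by
        have : Psi B J / (2 * θ) ≤ θ / 2 * B.card * Fintype.card ι ^ 2 := by
          rw [div_le_iff₀ (by positivity)]; linarith
        linarith

end Pool.Agent.Lib.MP_a893c7_co
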