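import Pool.Agent.Lib.MP_a893c7_co.Pin

/-! Chebyshev, the uniform cube, Mantel, and pointwise inequalities. -/

set_option autoImplicit false

open Finset
open scoped symmDiff

namespace Pool.Agent.Lib.MP_a893c7_co

variable {ι : Type*} [Fintype ι] [DecidableEq ι]

open Classical in
lemma cheb {α : Type*} (s : Finset α) (f : α → ℝ) {t : ℝ} (ht : 0 < t) :
    ((s.filter fun a => t < |f a|).card : ℝ) * t ^ 2 ≤ ∑ a ∈ s, f a ^ 2 := by
  refine le_trans ?_ (sum_le_sum_of_subset_of_nonneg (filter_subset (fun a => t < |f a|) s)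
    fun _ _ _ => sq_nonneg _)
  rw [← nsmul_eq_mul]
  refine card_nsmul_le_sum _ _ _ fun a ha => ?_
  rw [← sq_abs (f a)]
  exact pow_le_pow_left₀ ht.le (mem_filter.1 ha).2.le 2

lemma cube (w : ι → ℝ) (hw : ∀ i, w i ^ 2 ≤ 1) :
    ∑ S : Finset ι, (∑ i, w i * (c S i - 1 / 2)) ^ 2 ≤ 2 ^ Fintype.card ι * Fintype.card ι := by
  have o : ∀ i j, i ≠ j → ∑ S : Finset ι, (c S i - 1 / 2) * (c S j - 1 / 2) = 0 := by
    intro i j h
    have := Equiv.sum_comp (symmDiff_left_involutive ({i} : Finset ι)).toPerm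
      fun S => (c S i - 1 / 2) * (c S j - 1 / 2)
    have e : ∀ S : Finset ι, (c (S ∆ {i}) i - 1 / 2) * (c (S ∆ {i}) j - 1 / 2) =
        -((c S i - 1 / 2) * (c S j - 1 / 2)) := by
      intro S
      by_cases h1 : i ∈ S <;> by_cases h2 : j ∈ S <;> simp [c, mem_symmDiff, h1, h2, h.symm] <;>
        norm_num
    simp only [Function.Involutive.coe_toPerm, e, sum_neg_distrib] at this
    linarith
  calc _ = ∑ i, ∑ j, w i * w j * ∑ S : Finset ι, (c S i - 1 / 2) * (c S j - 1 / 2) := by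
        simp only [sq, sum_mul_sum]
        simp only [mul_sum]
        rw [sum_comm]
        refine sum_congr rfl fun j _ => ?_
        rw [sum_comm]
        exact sum_congr rfl fun i _ => sum_congr rfl fun A _ => by ring
    _ ≤ ∑ _i : ι, (2 : ℝ) ^ Fintype.card ι := by
        refine sum_le_sum fun i _ => ?_
        rw [sum_eq_single i (fun j _ h => by rw [o i j h.symm, mul_zero]) (by simp)]
        have h1 : ∑ S : Finset ι, (c S i - 1 / 2) * (c S i - 1 / 2) ≤ 2 ^ Fintype.card ι := by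
          refine (sum_le_card_nsmul _ _ 1 fun S _ => ?_).trans (by simp)
          nlinarith [c_mem S i]
        have h2 : 0 ≤ ∑ S : Finset ι, (c S i - 1 / 2) * (c S i - 1 / 2) :=
          sum_nonneg fun _ _ => mul_self_nonneg _
        nlinarith [hw i]
    _ = _ := by simp [mul_comm]

lemma mantel {α : Type*} [DecidableEq α] (U : Finset α) (R : α → α → Prop) [DecidableRel R]
    (hs : ∀ a b, R a b → R b a)
    (ht : ∀ a ∈ U, ∀ b ∈ U, ∀ d ∈ U, R a b → R a d → R b d → False) :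
    (((U ×ˢ U).filter fun p => R p.1 p.2).card : ℝ) ≤ (U.card : ℝ) ^ 2 / 2 := by
  let deg : α → ℝ := fun a => (U.filter (R a)).card
  have sm : ∀ f : α → ℝ, ∑ p ∈ (U ×ˢ U).filter fun p => R p.1 p.2, f p.1 = ∑ a ∈ U, deg a * f a := by
    intro f
    rw [sum_filter, sum_product]
    refine sum_congr rfl fun a _ => ?_
    rw [← sum_filter]
    simp [deg]
  have sw : ∑ p ∈ (U ×ˢ U).filter fun p => R p.1 p.2, deg p.2 =
      ∑ p ∈ (U ×ˢ U).filter fun p => R p.1 p.2, deg p.1 := by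
    refine sum_equiv (Equiv.prodComm α α) (fun p => ?_) fun p _ => rfl
    simp only [mem_filter, mem_product, Equiv.prodComm_apply, Prod.fst_swap, Prod.snd_swap]
    exact ⟨fun h => ⟨h.1.symm, hs _ _ h.2⟩, fun h => ⟨h.1.symm, hs _ _ h.2⟩⟩
  set P := (((U ×ˢ U).filter fun p => R p.1 p.2).card : ℝ) with hP
  have e1 : P = ∑ a ∈ U, deg a := by simpa using sm fun _ => 1
  have e2 : ∑ p ∈ (U ×ˢ U).filter fun p => R p.1 p.2, (deg p.1 + deg p.2) ≤ P * U.card := by
    rw [← nsmul_eq_mul]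
    refine sum_le_card_nsmul _ _ _ fun p hp => ?_
    obtain ⟨h1, h2⟩ := mem_filter.1 hp
    obtain ⟨h3, h4⟩ := mem_product.1 h1
    simp only [deg]
    rw [← Nat.cast_add, ← card_union_of_disjoint, Nat.cast_le]
    · exact card_le_card (union_subset (filter_subset _ _) (filter_subset _ _))
    · exact disjoint_left.2 fun d k1 k2 => ht _ h3 _ h4 d (mem_filter.1 k1).1 h2
        (mem_filter.1 k1).2 (mem_filter.1 k2).2
  rw [sum_add_distrib, sw, sm] at e2
  have e3 := sq_sum_le_card_mul_sum_sq (s := U) (f := deg)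
  rw [← e1] at e3
  simp only [sq] at e3
  have h0 : 0 ≤ P := Nat.cast_nonneg _
  have h1 : (0 : ℝ) ≤ U.card := Nat.cast_nonneg _
  by_contra k
  have k1 : 0 < P := lt_of_le_of_lt (by positivity) (not_le.1 k)
  nlinarith [mul_le_mul_of_nonneg_left e2 h1, mul_lt_mul_of_pos_left (not_le.1 k) k1]

/-- The critical density of complements. -/
noncomputable def rho : ℝ := 1 / √2

lemma rho_sq : rho ^ 2 = 1 / 2 := by simp [rho]

lemma rho_ge : 1 / 2 ≤ rho := by
  have h : 0 < rho := by simp [rho]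
  nlinarith [rho_sq]

lemma pt_edge {x y : ℝ} (hy : 0 ≤ y ∧ y ≤ 1) : |y - rho| ≤ 2 * (|x * y - 1 / 2| + |x - rho|) := by
  have h1 : rho * (y - rho) = (x * y - 1 / 2) - (x - rho) * y := by linear_combination -rho_sq
  have h2 : |rho * (y - rho)| ≤ |x * y - 1 / 2| + |x - rho| := by
    rw [h1]
    refine (abs_sub _ _).trans (add_le_add le_rfl ?_)
    rw [abs_mul, abs_of_nonneg hy.1]
    exact mul_le_of_le_one_right (abs_nonneg _) hy.2
  rw [abs_mul, abs_of_nonneg (by linarith [rho_ge])] at h2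
  nlinarith [rho_ge, abs_nonneg (y - rho)]

lemma pt_tri {x y z : ℝ} (hx : 0 ≤ x ∧ x ≤ 1) (hz : 0 ≤ z ∧ z ≤ 1) :
    |x - rho| ≤ 4 * (|x * y - 1 / 2| + |x * z - 1 / 2| + |y * z - 1 / 2|) := by
  have h1 : (x + rho) * (x - rho) = 2 * ((x * y - 1 / 2) * (x * z) + (x * z - 1 / 2) * (1 / 2) -
      (y * z - 1 / 2) * (x * x)) := by linear_combination -rho_sq
  have b : ∀ e t : ℝ, 0 ≤ t → t ≤ 1 → |e * t| ≤ |e| := fun e t h0 h1 => by
    rw [abs_mul, abs_of_nonneg h0]
    exact mul_le_of_le_one_right (abs_nonneg _) h1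
  have h2 : |(x + rho) * (x - rho)| ≤
      2 * (|x * y - 1 / 2| + |x * z - 1 / 2| + |y * z - 1 / 2|) := by
    rw [h1, abs_mul, abs_two]
    gcongr
    refine (abs_sub _ _).trans (add_le_add ((abs_add_le _ _).trans (add_le_add ?_ ?_)) ?_)
    · exact b _ _ (mul_nonneg hx.1 hz.1) (mul_le_one₀ hx.2 hz.1 hz.2)
    · exact b _ _ (by norm_num) (by norm_num)
    · exact b _ _ (mul_nonneg hx.1 hx.1) (mul_le_one₀ hx.2 hx.1 hx.2)
  rw [abs_mul, abs_of_nonneg (by linarith [rho_ge, hx.1])] at h2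
  nlinarith [rho_ge, abs_nonneg (x - rho), mul_nonneg hx.1 (abs_nonneg (x - rho))]

lemma image_le {α : Type*} [DecidableEq α] (B : Finset (Finset α))
    (P : Finset (Finset α × Finset α)) (hB : ∀ p ∈ P, p.1 ∈ B) (hs : ∀ p ∈ P, p.swap ∈ P) :
    ((P.image fun p => p.1 ∪ p.2).card : ℝ) ≤ B.card + P.card / 2 := by
  have h1 : 2 * ((P.image fun p => p.1 ∪ p.2) \ B).card ≤ P.card := by
    refine le_trans ?_ (card_le_card (filter_subset (fun p => p.1 ∪ p.2 ∉ B) P))
    refine mul_card_image_le_card_of_maps_to (f := fun p => p.1 ∪ p.2) (fun p hp => ?_) 2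
      fun S hS => ?_
    · exact mem_sdiff.2 ⟨mem_image_of_mem _ (mem_filter.1 hp).1, (mem_filter.1 hp).2⟩
    · obtain ⟨h1, h2⟩ := mem_sdiff.1 hS
      obtain ⟨p, hp, rfl⟩ := mem_image.1 h1
      refine one_lt_card.2 ⟨p, by simp [hp, h2], p.swap, ?_, fun e => h2 ?_⟩
      · simp only [mem_filter, hs p hp, Prod.fst_swap, Prod.snd_swap, true_and, union_comm p.2]
        exact ⟨h2, trivial⟩
      · have : p.2 = p.1 := (congrArg Prod.snd e :)
        rw [this, union_self]
        exact hB p hp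
  have h2 := le_card_sdiff B (P.image fun p => p.1 ∪ p.2)
  have h3 : 2 * (P.image fun p => p.1 ∪ p.2).card ≤ 2 * B.card + P.card := by omega
  have h4 : (2 * (P.image fun p => p.1 ∪ p.2).card : ℝ) ≤ 2 * B.card + P.card := by
    exact_mod_cast h3
  linarith

end Pool.Agent.Lib.MP_a893c7_co
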